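import Pool.Agent.Work.MP_fcea8e_co.Typ.Defs

/-!
# Module Charge (M): sparse digraphs can be coloured with few colours

Proof. Strong induction on `S` (`Finset.strongInduction`). For `S = ∅` trivial. Otherwise the number
of pairs `(x, y) ∈ S × S` with `E x y` is at most `2 d |S|`: the pairs with `P x y` are counted at `x`
(at most `d` for each `x`, by `h1`), the others at `y` (at most `d` for each `y`, by `h2`);
`Finset.card_filter`, `Finset.card_sigma` / `Finset.sum_card_bipartiteAbove_eq_sum_card_bipartiteBelow`.
The sum over `x ∈ S` of `|outs E S x| + |ins E S x|` is twice the number of these pairs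
(compare `sum_outs_eq` in `Dom/Count.lean`), so at most `4 d |S|`, and there is `x ∈ S` with
`|outs E S x| + |ins E S x| ≤ 4 d`. The hypotheses pass to `S.erase x` (subsets); colour `S.erase x`
with `4 d + 1` colours and give `x` a colour which does not occur in `outs E S x ∪ ins E S x`.
Model for the last step: `degen_out` in `Dom/Degen.lean` (copy it).
-/

set_option autoImplicit false

namespace Pool.Agent.Work.MP_fcea8e_co.Typ

open Finset Pool.Agent.Work.MP_fcea8e_co.Dom

open Classical in
theorem cb_of_charge {V : Type} {E : V → V → Prop} (hE : Asym E) (P : V → V → Prop) (d : ℕ)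
    (S : Finset V) (h1 : ∀ x ∈ S, (S.filter (fun y => E x y ∧ P x y)).card ≤ d)
    (h2 : ∀ y ∈ S, (S.filter (fun x => E x y ∧ ¬ P x y)).card ≤ d) : CB E S (4 * d + 1) := by
  induction S using Finset.strongInduction with
  | H S ih =>
    rcases S.eq_empty_or_nonempty with h0 | hne
    · subst h0
      exact ⟨fun _ => 0, by simp, by simp⟩
    · have hs1 : ∑ x ∈ S, (outs E S x).card ≤ 2 * (d * S.card) := by
        have e1 : ∀ x, (outs E S x).card = (S.filter (fun y => E x y ∧ P x y)).card +
            (S.filter (fun y => E x y ∧ ¬ P x y)).card := by
          intro x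
          rw [← card_union_of_disjoint]
          · congr 1
            ext y
            simp only [outs, mem_filter, mem_union]
            tauto
          · rw [disjoint_left]
            intro y hy hy'
            exact (mem_filter.1 hy').2.2 (mem_filter.1 hy).2.2
        have e2 : ∑ x ∈ S, (S.filter (fun y => E x y ∧ ¬ P x y)).card =
            ∑ y ∈ S, (S.filter (fun x => E x y ∧ ¬ P x y)).card := by
          simp only [card_filter]
          rw [sum_comm]
        rw [sum_congr rfl (fun x _ => e1 x), sum_add_distrib, e2]
        have k1 := sum_le_sum h1
        have k2 := sum_le_sum h2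
        rw [sum_const, smul_eq_mul, mul_comm] at k1 k2
        omega
      have hs2 : ∑ x ∈ S, (ins E S x).card ≤ 2 * (d * S.card) := by
        rw [← sum_outs_eq]
        exact hs1
      have hx : ∃ x ∈ S, (outs E S x).card + (ins E S x).card ≤ 4 * d := by
        by_contra hno
        push Not at hno
        have k1 := sum_lt_sum_of_nonempty hne hno
        rw [sum_add_distrib, sum_const, smul_eq_mul] at k1
        have k2 : S.card * (4 * d) = 4 * (d * S.card) := by ring
        omega
      obtain ⟨x, hxS, hx⟩ := hx
      obtain ⟨c, hc1, hc2⟩ := ih (S.erase x) (erase_ssubset hxS)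
        (fun y hy => (card_le_card (filter_subset_filter _ (erase_subset _ _))).trans
          (h1 y (mem_of_mem_erase hy)))
        (fun y hy => (card_le_card (filter_subset_filter _ (erase_subset _ _))).trans
          (h2 y (mem_of_mem_erase hy)))
      have hused : (((outs E S x) ∪ (ins E S x)).image c).card < (range (4 * d + 1)).card := by
        have k1 := card_image_le (s := (outs E S x) ∪ (ins E S x)) (f := c)
        have k2 := card_union_le (outs E S x) (ins E S x)
        rw [card_range]
        omega
      obtain ⟨γ, hγ1, hγ2⟩ := exists_mem_notMem_of_card_lt_card hused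
      rw [mem_range] at hγ1
      refine ⟨Function.update c x γ, ?_, ?_⟩
      · intro y hy
        by_cases hyx : y = x
        · rw [hyx, Function.update_self]
          exact hγ1
        · rw [Function.update_of_ne hyx]
          exact hc1 y (mem_erase.2 ⟨hyx, hy⟩)
      · intro y hy z hz hyz
        by_cases hyx : y = x
        · have hzx : z ≠ x := by
            intro hzx
            rw [hyx, hzx] at hyz
            exact hE _ _ hyz hyz
          rw [hyx, Function.update_self, Function.update_of_ne hzx]
          rw [hyx] at hyz
          intro h2
          refine hγ2 (mem_image.2 ⟨z, ?_, h2.symm⟩)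
          rw [mem_union, outs, mem_filter]
          exact Or.inl ⟨hz, hyz⟩
        · by_cases hzx : z = x
          · rw [hzx, Function.update_self, Function.update_of_ne hyx]
            rw [hzx] at hyz
            intro h2
            refine hγ2 (mem_image.2 ⟨y, ?_, h2⟩)
            rw [mem_union]
            right
            rw [ins, mem_filter]
            exact ⟨hy, hyz⟩
          · rw [Function.update_of_ne hyx, Function.update_of_ne hzx]
            exact hc2 y (mem_erase.2 ⟨hyx, hy⟩) z (mem_erase.2 ⟨hzx, hz⟩) hyz

end Pool.Agent.Work.MP_fcea8e_co.Typ
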