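import Pool.Agent.Work.MP_fcea8e_co.Typ.Defs

/-!
# Module Col (S): unions of coloured sets

Proofs. `cb_mono`: the same colouring. `cb_union`: on `S` use `c`, on `S' \ S` use `m + c'`.
`cb_empty`: constant. `cb_biUnion`: induction on `I` (`Finset.induction_on`) with `cb_union`
(`Finset.biUnion_insert`).
-/

set_option autoImplicit false

namespace Pool.Agent.Work.MP_fcea8e_co.Typ

open Finset Pool.Agent.Work.MP_fcea8e_co.Dom

variable {V : Type} {E : V → V → Prop}

theorem cb_mono {S S' : Finset V} {m n : ℕ} (h : CB E S m) (hS : S' ⊆ S) (hm : m ≤ n) :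
    CB E S' n := by
  obtain ⟨c, h1, h2⟩ := h
  exact ⟨c, fun x hx => lt_of_lt_of_le (h1 x (hS hx)) hm,
    fun x hx y hy hxy => h2 x (hS hx) y (hS hy) hxy⟩

theorem cb_empty (n : ℕ) : CB E ∅ n := by
  exact ⟨fun _ => 0, fun x hx => absurd hx (Finset.notMem_empty x),
    fun x hx => absurd hx (Finset.notMem_empty x)⟩

theorem cb_union [DecidableEq V] {S S' : Finset V} {m n : ℕ} (h : CB E S m) (h' : CB E S' n) :
    CB E (S ∪ S') (m + n) := by
  obtain ⟨c, h1, h2⟩ := h
  obtain ⟨c', h1', h2'⟩ := h'
  refine ⟨fun x => if x ∈ S then c x else m + c' x, ?_, ?_⟩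
  · intro x hx
    by_cases hxS : x ∈ S
    · simp only [hxS, if_true]
      have := h1 x hxS
      omega
    · simp only [hxS, if_false]
      have := h1' x ((Finset.mem_union.1 hx).resolve_left hxS)
      omega
  · intro x hx y hy hxy
    by_cases hxS : x ∈ S
    · have a1 := h1 x hxS
      by_cases hyS : y ∈ S
      · simp only [hxS, hyS, if_true]
        exact h2 x hxS y hyS hxy
      · simp only [hxS, hyS, if_true, if_false]
        omega
    · by_cases hyS : y ∈ S
      · have a1 := h1 y hyS
        simp only [hxS, hyS, if_true, if_false]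
        omega
      · simp only [hxS, hyS, if_false]
        have a2 := h2' x ((Finset.mem_union.1 hx).resolve_left hxS) y
          ((Finset.mem_union.1 hy).resolve_left hyS) hxy
        omega

theorem cb_biUnion [DecidableEq V] {ι : Type} (I : Finset ι) (S : ι → Finset V) (n : ℕ)
    (h : ∀ i ∈ I, CB E (S i) n) : CB E (I.biUnion S) (I.card * n) := by
  classical
  induction I using Finset.induction_on with
  | empty => simpa using cb_empty (E := E) 0
  | insert i I hi ih =>
    rw [Finset.biUnion_insert, Finset.card_insert_of_notMem hi]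
    have h1 := ih fun k hk => h k (Finset.mem_insert_of_mem hk)
    have h2 := cb_union (h i (Finset.mem_insert_self i I)) h1
    exact cb_mono h2 (Finset.Subset.refl _) (by ring_nf; exact le_refl _)

end Pool.Agent.Work.MP_fcea8e_co.Typ
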