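import Pool.Agent.Work.MP_fcea8e_co.Typ.TreeSum

/-!
# Module CoshSum (M): the sum for `c = cosh (m ^ (-1/4))`

Proofs. `term_le`: `cosh x ≤ exp (x ^ 2 / 2)` (`Real.cosh_le_exp_half_sq`), so with `x = m ^ (-1/4)`,
`x ^ 2 = m ^ (-1/2)`: `cosh x ^ d * exp (-d ^ 2 / (2 m)) ≤ exp (d m ^ (-1/2) / 2 - d ^ 2 / (2 m))`, and with
`y = d m ^ (-1/2)` (`y ^ 2 = d ^ 2 / m`) the exponent is `(y - y ^ 2) / 2 ≤ 1 / 8`.
`cosh_sum`: `tree_sum`; each of the `m` terms has `d + 1 ≤ m` and `term_le`, so the sum is at most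
`m * m * exp (1 / 8)`; and `2 exp (1 / 8 - 1) ≤ 1` because `exp (7 / 8) ≥ 2`
(`1 + 7/8 + 49/128 > 2`: `Real.quadratic_le_exp_of_nonneg`), so `exp (1 / 8) ≤ exp 1 / 2`.
-/

set_option autoImplicit false

namespace Pool.Agent.Work.MP_fcea8e_co.Typ

open Finset

theorem term_le {m : ℕ} (hm : 1 ≤ m) (d : ℕ) :
    Real.cosh ((m : ℝ) ^ (-(1 / 4) : ℝ)) ^ d * Real.exp (-(d : ℝ) ^ 2 / (2 * m)) ≤
      Real.exp (1 / 8) := by
  have hm0 : (0 : ℝ) < (m : ℝ) := by exact_mod_cast hm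
  set x : ℝ := (m : ℝ) ^ (-(1 / 4) : ℝ) with hx
  set y : ℝ := x ^ 2 with hy
  have hy2 : y ^ 2 = 1 / (m : ℝ) := by
    have h1 : x ^ 4 = (m : ℝ) ^ (-1 : ℝ) := by
      rw [hx, ← Real.rpow_natCast, ← Real.rpow_mul hm0.le]
      norm_num
    have h2 : y ^ 2 = x ^ 4 := by rw [hy]; ring
    rw [h2, h1, Real.rpow_neg_one, one_div]
  have h1 : Real.cosh x ^ d ≤ Real.exp ((d : ℝ) * (x ^ 2 / 2)) := by
    rw [Real.exp_nat_mul]
    exact pow_le_pow_left₀ (Real.cosh_pos x).le (Real.cosh_le_exp_half_sq x) d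
  have h2 : Real.cosh x ^ d * Real.exp (-(d : ℝ) ^ 2 / (2 * m)) ≤
      Real.exp ((d : ℝ) * (x ^ 2 / 2) + -(d : ℝ) ^ 2 / (2 * m)) := by
    rw [Real.exp_add]
    exact mul_le_mul_of_nonneg_right h1 (Real.exp_pos _).le
  refine h2.trans (Real.exp_le_exp.mpr ?_)
  have h3 : -(d : ℝ) ^ 2 / (2 * m) = -((d : ℝ) ^ 2 * y ^ 2) / 2 := by
    rw [hy2]
    field_simp
  rw [h3]
  have h4 : (d : ℝ) * (x ^ 2 / 2) = (d : ℝ) * y / 2 := by rw [hy]; ring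
  rw [h4]
  nlinarith [sq_nonneg ((d : ℝ) * y - 1 / 2)]

theorem cosh_sum {V : Type} [Fintype V] {A : Finset V} {v : V} (hv : v ∈ A) :
    2 * ∑ f ∈ Fo A {v}, ∑ w ∈ A, Real.cosh ((A.card : ℝ) ^ (-(1 / 4) : ℝ)) ^ dp f v w ≤
      (Fo A {v}).card * ((A.card : ℝ) ^ 2 * Real.exp 1) := by
  have hm : 1 ≤ A.card := Finset.card_pos.mpr ⟨v, hv⟩
  have h1 := tree_sum hv (c := Real.cosh ((A.card : ℝ) ^ (-(1 / 4) : ℝ))) (Real.cosh_pos _).le
  have h2 : ∑ d ∈ range A.card,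
        ((d : ℝ) + 1) * Real.cosh ((A.card : ℝ) ^ (-(1 / 4) : ℝ)) ^ d *
          Real.exp (-(d : ℝ) ^ 2 / (2 * A.card)) ≤
      ∑ d ∈ range A.card, (A.card : ℝ) * Real.exp (1 / 8) := by
    refine Finset.sum_le_sum fun d hd => ?_
    rw [mul_assoc]
    have hd1 : (d : ℝ) + 1 ≤ (A.card : ℝ) := by
      have := Finset.mem_range.mp hd
      exact_mod_cast this
    refine mul_le_mul hd1 (term_le hm d) ?_ (Nat.cast_nonneg _)
    have hc : 0 < Real.cosh ((A.card : ℝ) ^ (-(1 / 4) : ℝ)) := Real.cosh_pos _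
    positivity
  rw [Finset.sum_const, Finset.card_range, nsmul_eq_mul] at h2
  have h3 : 2 * Real.exp (1 / 8) ≤ Real.exp 1 := by
    have h4 : (2 : ℝ) ≤ Real.exp (7 / 8) := by
      have := Real.quadratic_le_exp_of_nonneg (x := 7 / 8) (by norm_num)
      norm_num at this ⊢
      linarith
    have h5 : Real.exp 1 = Real.exp (7 / 8) * Real.exp (1 / 8) := by
      rw [← Real.exp_add]; norm_num
    rw [h5]
    exact mul_le_mul_of_nonneg_right h4 (Real.exp_pos _).le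
  have hF : (0 : ℝ) ≤ ((Fo A {v}).card : ℝ) := Nat.cast_nonneg _
  calc 2 * ∑ f ∈ Fo A {v}, ∑ w ∈ A, Real.cosh ((A.card : ℝ) ^ (-(1 / 4) : ℝ)) ^ dp f v w
      ≤ 2 * ((Fo A {v}).card * ((A.card : ℝ) * ((A.card : ℝ) * Real.exp (1 / 8)))) := by
        refine mul_le_mul_of_nonneg_left (h1.trans ?_) (by norm_num)
        exact mul_le_mul_of_nonneg_left h2 hF
    _ = (Fo A {v}).card * ((A.card : ℝ) ^ 2 * (2 * Real.exp (1 / 8))) := by ring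
    _ ≤ _ := by
        refine mul_le_mul_of_nonneg_left ?_ hF
        exact mul_le_mul_of_nonneg_left h3 (by positivity)

end Pool.Agent.Work.MP_fcea8e_co.Typ
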