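import Pool.Agent.Work.MP_fcea8e_co.Dom.Assemble

/-!
# Typical oriented trees: definitions (fixed, do not change)

Part A (deterministic): colourings of sets of vertices, layers, heights in rooted trees.
Part B (counting): a map `f : V → V` is regarded as a parent function. `desc f v` is the set of the
vertices from which `v` is reached, `dp f v w` the number of steps from `w` to `v`, `e : V → Bool` a
choice of directions (`e w = true`: the arc is `f w → w`), `rh f e v w` the height of `w` above `v`.
-/

set_option autoImplicit false

namespace Pool.Agent.Work.MP_fcea8e_co.Typ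

open Finset Pool.Agent.Work.MP_fcea8e_co.Dom

/-- `E` restricted to `S` has a proper colouring with `n` colours -/
def CB {V : Type} (E : V → V → Prop) (S : Finset V) (n : ℕ) : Prop :=
  ∃ c : V → ℕ, (∀ x ∈ S, c x < n) ∧ ∀ x ∈ S, ∀ y ∈ S, E x y → c x ≠ c y

/-- `1` for `true`, `-1` for `false` -/
def sg (b : Bool) : ℤ := if b then 1 else -1

section layers

variable {V : Type} (E : V → V → Prop) (G : Finset V) (K l : ℕ)

open Classical in
/-- The layers at time `t`. All layers start as `G`; at every step the vertices of layer `i` with
fewer than `K` out-neighbours in layer `i + 1` (if `i < l`) or fewer than `K` in-neighbours in layer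
`i - 1` (if `-l < i`) are deleted from layer `i`. -/
noncomputable def lay : ℕ → ℤ → Finset V
  | 0, _ => G
  | t + 1, i => (lay t i).filter (fun v =>
      (i < l → K ≤ (outs E (lay t (i + 1)) v).card) ∧
      (-(l : ℤ) < i → K ≤ (ins E (lay t (i - 1)) v).card))

open Classical in
/-- the final layers -/
noncomputable def top (i : ℤ) : Finset V := G.filter (fun v => ∀ t, v ∈ lay E G K l t i)

/-- `v` is deleted from layer `i` because of its out-neighbours -/
def ROut (i : ℤ) (v : V) : Prop :=
  ∃ t, v ∈ lay E G K l t i ∧ i < l ∧ (outs E (lay E G K l t (i + 1)) v).card < K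

/-- `v` is deleted from layer `i` because of its in-neighbours -/
def RIn (i : ℤ) (v : V) : Prop :=
  ∃ t, v ∈ lay E G K l t i ∧ -(l : ℤ) < i ∧ (ins E (lay E G K l t (i - 1)) v).card < K

end layers

section rooted

variable {κ : Type} (R : RT κ)

/-- `t` is a descendant of `u` -/
def Dsc (u t : κ) : Prop := ∃ n, n ≤ R.dep t ∧ R.p^[n] t = u

/-- the height of `t` above the root -/
def ht (t : κ) : ℤ := ∑ i ∈ range (R.dep t), sg (R.dir (R.p^[i] t))

open Classical in
/-- the difference between the largest and the smallest height of the descendants of `u` -/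
noncomputable def rg [Fintype κ] (u : κ) : ℕ :=
  (univ.filter (fun q : κ × κ => Dsc R u q.1 ∧ Dsc R u q.2)).sup
    (fun q => (ht R q.1 - ht R q.2).toNat)

open Classical in
/-- the levels: `lv 0` is everything, `lv (j + 1)` the set of the vertices with `2 ^ j ≤ rg u`, and
the root -/
noncomputable def lv [Fintype κ] : ℕ → Finset κ
  | 0 => univ
  | j + 1 => univ.filter (fun u => 2 ^ j ≤ rg R u ∨ u = R.v)

end rooted

section maps

variable {V : Type} [Fintype V]

open Classical in
/-- the vertices from which `v` is reached -/
noncomputable def desc (f : V → V) (v : V) : Finset V := univ.filter (fun w => ∃ n, f^[n] w = v)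

/-- number of steps from `w` to `v` -/
noncomputable def dp (f : V → V) (v w : V) : ℕ := sInf {n : ℕ | f^[n] w = v}

/-- height of `w` above `v` -/
noncomputable def rh (f : V → V) (e : V → Bool) (v w : V) : ℤ :=
  ∑ i ∈ range (dp f v w), sg (e (f^[i] w))

/-- largest absolute value of the height above `v` of a descendant of `v` -/
noncomputable def mx (f : V → V) (e : V → Bool) (v : V) : ℕ :=
  (desc f v).sup (fun w => (rh f e v w).natAbs)

/-- largest number of steps from a descendant of `v` to `v` -/
noncomputable def hgt (f : V → V) (v : V) : ℕ := (desc f v).sup (fun w => dp f v w)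

open Classical in
/-- forests with vertex set `A` and set of roots `R`; the identity outside of `A \ R` -/
noncomputable def Fo (A R : Finset V) : Finset (V → V) :=
  univ.filter (fun f => (∀ x, x ∉ A \ R → f x = x) ∧ (∀ x ∈ A, f x ∈ A) ∧
    ∀ x ∈ A, ∃ n, f^[n] x ∈ R)

open Classical in
/-- forests with a marked vertex which is joined to the root `ρ` by a path with `h` steps -/
noncomputable def PF (A R : Finset V) (ρ : V) (h : ℕ) : Finset ((V → V) × V) :=
  (Fo A R ×ˢ A).filter (fun q => q.1^[h] q.2 = ρ ∧ ∀ i < h, q.1^[i] q.2 ∉ R)

variable (V) in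
open Classical in
/-- the rooted trees with vertex set `V`, as parent functions with the root as fixed point -/
noncomputable def TM : Finset (V → V) :=
  univ.filter (fun f => ∃ r, f r = r ∧ ∀ x, ∃ n, f^[n] x = r)

/-- `G` only depends on the values of the function on `A` without `v` -/
def Loc (A : Finset V) (v : V) (G : (V → V) → ℝ) : Prop :=
  ∀ f g : V → V, (∀ x ∈ A, x ≠ v → f x = g x) → desc f v = A → desc g v = A → G f = G g

open Classical in
/-- The sum over the functions of `F` with `desc f v = A` of a function which only depends on the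
tree below `v` is at most `κ |V \ A| ^ |V \ A|` times the sum over the trees on `A` with root `v`. -/
def Glue (F : Finset (V → V)) (κ : ℝ) : Prop :=
  ∀ (A : Finset V) (v : V), v ∈ A → ∀ G : (V → V) → ℝ, (∀ f, 0 ≤ G f) → Loc A v G →
    ∑ f ∈ F.filter (fun f => desc f v = A), G f ≤
      κ * (Aᶜ.card : ℝ) ^ Aᶜ.card * ∑ f ∈ Fo A {v}, G f

/-- the digraph described by the parent function `f` and the directions `e` -/
def Tr (f : V → V) (e : V → Bool) : Digraph V :=
  ⟨fun a b => (a ≠ b ∧ f b = a ∧ e b = true) ∨ (a ≠ b ∧ f a = b ∧ e a = false)⟩

/-- the sum of the bounded part: only the vertices with at most `L` descendants -/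
noncomputable def XL (L : ℕ) (ω : V → V × Bool) : ℕ :=
  ∑ v, if (desc (fun x => (ω x).1) v).card ≤ L then
    mx (fun x => (ω x).1) (fun x => (ω x).2) v else 0

end maps

end Pool.Agent.Work.MP_fcea8e_co.Typ
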