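import Pool.Agent.Work.MP_fcea8e_co.Typ.DetMain

/-!
# Module DetFin (M): the deterministic theorem for oriented trees

Proofs. `cNum_le_rt`: `cNum_eq hR` (Dom/Assemble and its imports: `cNum T = sInf (cSet R.pC)`), and
`det_main` says that `1 + ∑ (8 + 32 rg)` is in `cSet R.pC`; `Nat.sInf_le`.
`cNum_le`: take `R` with `Describes R T r` from `exists_rt`; it suffices that `rg R v ≤ Rg v` for all
`v` (`Finset.sum_le_sum`). By `exists_rg` there are `t, t'` with `Dsc R v t`, `Dsc R v t'`,
`ht R t - ht R t' = rg R v`. (a) `h t - h t' = ht R t - ht R t'`: the function `h - ht R` is constant: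
by induction on the depth `h t - ht R t = h r` (for `t ≠ r`, `T.Adj (p t) t` if `dir t = true` and
`T.Adj t (p t)` if `dir t = false`, from `Describes`; `ht_p`, `hh`). (b) For `Dsc R v t`, with
`G = SimpleGraph.fromRel T.Adj`: `G.dist t r = G.dist t v + G.dist v r`. Indeed `G.Adj t (p t)` for
`t ≠ r`, so `G.dist t (p^[n] t) ≤ n` for `n ≤ dep t` (walk / induction,
`SimpleGraph.Connected.dist_triangle`), in particular `dist t v ≤ n`, `dist v r ≤ dep v = dep t - n`
(`dep_iter`), and `dist t r ≥ dep t`: adjacent vertices have depths which differ by `1` (every arc of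
`T` is `(p b, b)` or `(a, p a)`), so `dep t ≤ dep r + length` for every walk from `t` to `r`; and
`dep r = 0`. With the triangle inequality `dist t r ≤ dist t v + dist v r` this gives the equality.
-/

set_option autoImplicit false

namespace Pool.Agent.Work.MP_fcea8e_co.Typ

open Finset Pool.Agent.Work.MP_fcea8e_co.Dom

theorem cNum_le_rt {κ : Type} [Fintype κ] {T : Digraph κ} {R : RT κ} {r : κ}
    (hR : Describes R T r) : cNum T ≤ 1 + ∑ u, (8 + 32 * rg R u) := by
  rw [cNum_eq hR]
  apply Nat.sInf_le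
  intro m E hE hk
  exact det_main R hE hk

private theorem arc_p {κ : Type} {T : Digraph κ} {R : RT κ} {r : κ} (hR : Describes R T r)
    {t : κ} (h : t ≠ r) :
    (R.dir t = true ∧ T.Adj (R.p t) t) ∨ (R.dir t = false ∧ T.Adj t (R.p t)) := by
  cases hd : R.dir t with
  | true => exact Or.inl ⟨rfl, (hR.2 _ _).2 (Or.inr ⟨h, rfl, hd⟩)⟩
  | false => exact Or.inr ⟨rfl, (hR.2 _ _).2 (Or.inl ⟨h, rfl, hd⟩)⟩

private theorem adj_p {κ : Type} {T : Digraph κ} {R : RT κ} {r : κ} (hR : Describes R T r)
    {t : κ} (h : t ≠ r) : (SimpleGraph.fromRel T.Adj).Adj t (R.p t) := by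
  rw [SimpleGraph.fromRel_adj]
  refine ⟨?_, ?_⟩
  · intro h1
    have h2 := R.dep_p t (by rw [hR.1]; exact h)
    rw [← h1] at h2
    omega
  · rcases arc_p hR h with h1 | h1
    · exact Or.inr h1.2
    · exact Or.inl h1.2

private theorem dep_adj {κ : Type} {T : Digraph κ} {R : RT κ} {r : κ} (hR : Describes R T r)
    {a b : κ} (h : (SimpleGraph.fromRel T.Adj).Adj a b) : R.dep a ≤ R.dep b + 1 := by
  rw [SimpleGraph.fromRel_adj] at h
  have key : ∀ x y, T.Adj x y → R.dep x ≤ R.dep y + 1 ∧ R.dep y ≤ R.dep x + 1 := by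
    intro x y hxy
    rcases (hR.2 x y).1 hxy with ⟨h1, h2, -⟩ | ⟨h1, h2, -⟩
    · have h3 := R.dep_p x (by rw [hR.1]; exact h1)
      rw [h2] at h3
      omega
    · have h3 := R.dep_p y (by rw [hR.1]; exact h1)
      rw [h2] at h3
      omega
  rcases h.2 with h1 | h1
  · exact (key _ _ h1).1
  · exact (key _ _ h1).2

private theorem dep_walk {κ : Type} {T : Digraph κ} {R : RT κ} {r : κ} (hR : Describes R T r)
    {a b : κ} (w : (SimpleGraph.fromRel T.Adj).Walk a b) : R.dep a ≤ R.dep b + w.length := by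
  induction w with
  | nil => simp
  | cons h q ih =>
    have h1 := dep_adj hR h
    rw [SimpleGraph.Walk.length_cons]
    omega

private theorem dist_iter {κ : Type} {T : Digraph κ} {R : RT κ} {r : κ} (hR : Describes R T r)
    (hc : (SimpleGraph.fromRel T.Adj).Connected) (t : κ) {n : ℕ} (hn : n ≤ R.dep t) :
    (SimpleGraph.fromRel T.Adj).dist t (R.p^[n] t) ≤ n := by
  induction n with
  | zero => simp
  | succ n ih =>
    have h1 := ih (by omega)
    have h2 := dep_iter R (t := t) (n := n) (by omega)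
    rw [Function.iterate_succ_apply']
    have h3 : R.p^[n] t ≠ r := by
      intro h4
      rw [h4, ← hR.1, R.dep_v] at h2
      omega
    have h4 := hc.dist_triangle (u := t) (v := R.p^[n] t) (w := R.p (R.p^[n] t))
    have h5 : (SimpleGraph.fromRel T.Adj).dist (R.p^[n] t) (R.p (R.p^[n] t)) ≤ 1 := by
      rw [SimpleGraph.dist_eq_one_iff_adj.2 (adj_p hR h3)]
    omega

private theorem dist_root {κ : Type} {T : Digraph κ} {R : RT κ} {r : κ} (hR : Describes R T r)
    (hc : (SimpleGraph.fromRel T.Adj).Connected) (t : κ) :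
    (SimpleGraph.fromRel T.Adj).dist t r ≤ R.dep t := by
  have h1 : R.p^[R.dep t] t = r := by
    have h2 := dep_iter R (t := t) (n := R.dep t) le_rfl
    by_contra h
    have h3 := R.dep_p _ (show R.p^[R.dep t] t ≠ R.v by rw [hR.1]; exact h)
    omega
  have h2 := dist_iter hR hc t (n := R.dep t) le_rfl
  rw [h1] at h2
  exact h2

private theorem dist_dsc {κ : Type} {T : Digraph κ} {R : RT κ} {r : κ} (hR : Describes R T r)
    (hc : (SimpleGraph.fromRel T.Adj).Connected) {v t : κ} (h : Dsc R v t) :
    (SimpleGraph.fromRel T.Adj).dist t r =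
      (SimpleGraph.fromRel T.Adj).dist t v + (SimpleGraph.fromRel T.Adj).dist v r := by
  obtain ⟨n, hn, hv⟩ := h
  have h1 := dist_iter hR hc t hn
  have h2 := dist_root hR hc v
  have h3 := dep_iter R hn
  rw [hv] at h1 h3
  have h4 := hc.dist_triangle (u := t) (v := v) (w := r)
  obtain ⟨w, hw⟩ := hc.exists_walk_length_eq_dist t r
  have h5 := dep_walk hR w
  have h6 : R.dep r = 0 := by rw [← hR.1]; exact R.dep_v
  omega

private theorem ht_eq {κ : Type} {T : Digraph κ} {R : RT κ} {r : κ} (hR : Describes R T r)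
    (h : κ → ℤ) (hh : ∀ a b, T.Adj a b → h b = h a + 1) (n : ℕ) :
    ∀ t, R.dep t = n → h t - ht R t = h r := by
  induction n with
  | zero =>
    intro t ht0
    have h1 : t = r := by
      by_contra h1
      have h2 := R.dep_p t (by rw [hR.1]; exact h1)
      omega
    rw [h1, ← hR.1, ht_root]
    ring
  | succ n ih =>
    intro t htn
    have h1 : t ≠ r := by
      rintro rfl
      rw [← hR.1, R.dep_v] at htn
      omega
    have h2 := R.dep_p t (by rw [hR.1]; exact h1)
    have h3 := ih (R.p t) (by omega)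
    have h4 := ht_p R (t := t) (by rw [hR.1]; exact h1)
    rcases arc_p hR h1 with ⟨h5, h6⟩ | ⟨h5, h6⟩
    · have h7 := hh _ _ h6
      rw [h5] at h4
      simp only [sg, if_true] at h4
      rw [h4, h7, ← h3]
      ring
    · have h7 := hh _ _ h6
      rw [h5] at h4
      simp only [sg] at h4
      rw [h4, ← h3, h7]
      simp
      ring

/-- The deterministic theorem. `h` is the height function of the oriented tree `T` (every arc goes
one level up), `r` a vertex, and `Rg v` a bound for the differences of heights in the subtree of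
the vertices `t` for which `v` is on the path from `t` to `r`. -/
theorem cNum_le {κ : Type} [Fintype κ] (T : Digraph κ) (hT : Oriented T)
    (ht : (SimpleGraph.fromRel T.Adj).IsTree) (r : κ) (h : κ → ℤ)
    (hh : ∀ a b, T.Adj a b → h b = h a + 1) (Rg : κ → ℕ)
    (hRg : ∀ v t t', (SimpleGraph.fromRel T.Adj).dist t r =
        (SimpleGraph.fromRel T.Adj).dist t v + (SimpleGraph.fromRel T.Adj).dist v r →
      (SimpleGraph.fromRel T.Adj).dist t' r =
        (SimpleGraph.fromRel T.Adj).dist t' v + (SimpleGraph.fromRel T.Adj).dist v r →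
      h t - h t' ≤ Rg v) : cNum T ≤ 1 + ∑ v, (8 + 32 * Rg v) := by
  obtain ⟨R, hR⟩ := exists_rt T hT ht r
  refine (cNum_le_rt hR).trans ?_
  have key : ∀ v, rg R v ≤ Rg v := by
    intro v
    obtain ⟨t, t', h1, h2, h3⟩ := exists_rg R v
    have h4 := hRg v t t' (dist_dsc hR ht.connected h1) (dist_dsc hR ht.connected h2)
    have h5 := ht_eq hR h hh _ t rfl
    have h6 := ht_eq hR h hh _ t' rfl
    have h7 : (rg R v : ℤ) ≤ Rg v := by
      rw [← h3]
      linarith
    exact_mod_cast h7
  gcongr with v hv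
  exact key v

end Pool.Agent.Work.MP_fcea8e_co.Typ
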