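import Pool.Agent.Work.MP_fcea8e_co.Typ.LayBase

/-!
# Module Extend (M): extending an embedding into the layers

Proof. Induction on `|S \ S'|`. If `S' = S`, `f' = f`. Otherwise let `t ∈ S \ S'` with `R.dep t`
minimal (`Finset.exists_min_image`); `t ≠ R.v` (as `R.v ∈ S'`), `R.p t ∈ S` has smaller depth
(`R.dep_p`), so `R.p t ∈ S'`. Put `x = f (R.p t) ∈ top (j (R.p t))`. If `R.dir t = true`:
`j t = j (R.p t) + 1 ≤ l`, so `j (R.p t) < l` and `-l ≤ j (R.p t)`, and `x` has at least `K`
out-neighbours in `top (j t)` (`top_out`); `|f '' S'| ≤ |S'| < |S| ≤ K`, so one of them, `y`, is not in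
`f '' S'` (`Finset.exists_mem_notMem_of_card_lt_card`). If `R.dir t = false` use `top_in`. Apply the
induction hypothesis to `insert t S'` and `Function.update f t y` (for `t' ∈ insert t S'`,
`t' ≠ R.v`: `R.p t' ∈ S'`, in particular `R.p t' ≠ t`).
-/

set_option autoImplicit false

namespace Pool.Agent.Work.MP_fcea8e_co.Typ

open Finset Pool.Agent.Work.MP_fcea8e_co.Dom

theorem extend {κ V : Type} (R : RT κ) {E : V → V → Prop} {G : Finset V} {K l : ℕ}
    {S' S : Finset κ} (hS : S' ⊆ S) (hv : R.v ∈ S') (hp' : ∀ t ∈ S', t ≠ R.v → R.p t ∈ S')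
    (hp : ∀ t ∈ S, t ≠ R.v → R.p t ∈ S) (hK : S.card ≤ K) (j : κ → ℤ)
    (hj : ∀ t ∈ S, |j t| ≤ l) (hj' : ∀ t ∈ S, t ∉ S' → j t = j (R.p t) + sg (R.dir t))
    (f : κ → V) (hf1 : Set.InjOn f S')
    (hf2 : ∀ t ∈ S', t ≠ R.v → R.arc E t (f (R.p t)) (f t))
    (hf3 : ∀ t ∈ S', f t ∈ top E G K l (j t)) :
    ∃ f' : κ → V, (∀ t ∈ S', f' t = f t) ∧ Set.InjOn f' S ∧
      (∀ t ∈ S, t ≠ R.v → R.arc E t (f' (R.p t)) (f' t)) ∧
      ∀ t ∈ S, f' t ∈ top E G K l (j t) := by
  classical
  obtain ⟨n, hn⟩ : ∃ n, n = (S \ S').card := ⟨_, rfl⟩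
  induction n generalizing S' f with
  | zero =>
    have h0 : S \ S' = ∅ := card_eq_zero.1 hn.symm
    have h1 : S = S' := Subset.antisymm (sdiff_eq_empty_iff_subset.1 h0) hS
    subst h1
    exact ⟨f, fun _ _ => rfl, hf1, hf2, hf3⟩
  | succ n ih =>
    have hne : (S \ S').Nonempty := by
      rw [← card_pos, ← hn]
      exact Nat.succ_pos n
    obtain ⟨t, htm, hmin⟩ := exists_min_image (S \ S') R.dep hne
    obtain ⟨htS, htS'⟩ := mem_sdiff.1 htm
    have htv : t ≠ R.v := fun h => htS' (h ▸ hv)
    have hpS : R.p t ∈ S := hp t htS htv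
    have hpS' : R.p t ∈ S' := by
      by_contra hno
      have h1 := hmin _ (mem_sdiff.2 ⟨hpS, hno⟩)
      have h2 := R.dep_p t htv
      omega
    have hptne : ∀ x ∈ S', x ≠ t := fun x hx h => htS' (h ▸ hx)
    have hjt := hj' t htS htS'
    have hjb := abs_le.1 (hj t htS)
    have hjp := abs_le.1 (hj _ hpS)
    have hcard : (S'.image f).card < K := by
      have h1 : (S'.image f).card ≤ S'.card := card_image_le
      have h2 : S'.card < S.card := card_lt_card ⟨hS, fun h => htS' (h htS)⟩
      omega
    have hy : ∃ y ∈ top E G K l (j t), y ∉ S'.image f ∧ R.arc E t (f (R.p t)) y := by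
      cases hd : R.dir t with
      | true =>
        have e1 : sg (R.dir t) = 1 := by rw [hd]; rfl
        rw [e1] at hjt
        have h3 := top_out (hf3 _ hpS') hjp.1 (by omega)
        rw [← hjt] at h3
        obtain ⟨y, hy1, hy2⟩ := exists_mem_notMem_of_card_lt_card (lt_of_lt_of_le hcard h3)
        unfold outs at hy1
        rw [mem_filter] at hy1
        refine ⟨y, hy1.1, hy2, fun _ => hy1.2, fun h => ?_⟩
        rw [hd] at h
        exact absurd h (by decide)
      | false =>
        have e1 : sg (R.dir t) = -1 := by rw [hd]; rfl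
        rw [e1] at hjt
        have h3 := top_in (hf3 _ hpS') (by omega) hjp.2
        have e2 : j (R.p t) - 1 = j t := by omega
        rw [e2] at h3
        obtain ⟨y, hy1, hy2⟩ := exists_mem_notMem_of_card_lt_card (lt_of_lt_of_le hcard h3)
        unfold ins at hy1
        rw [mem_filter] at hy1
        refine ⟨y, hy1.1, hy2, fun h => ?_, fun _ => hy1.2⟩
        rw [hd] at h
        exact absurd h (by decide)
    obtain ⟨y, hy1, hy2, hy3⟩ := hy
    have hup : ∀ x ∈ S', Function.update f t y x = f x := fun x hx =>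
      Function.update_of_ne (hptne x hx) _ _
    obtain ⟨f', h1, h2, h3, h4⟩ := ih (S' := insert t S') (f := Function.update f t y)
      (insert_subset htS hS) (mem_insert_of_mem hv)
      (fun x hx hxv => by
        rcases mem_insert.1 hx with h | h
        · rw [h]
          exact mem_insert_of_mem hpS'
        · exact mem_insert_of_mem (hp' x h hxv))
      (fun x hx hx' => hj' x hx (fun h => hx' (mem_insert_of_mem h)))
      (by
        rw [coe_insert]
        refine (Set.injOn_insert (fun h => htS' (mem_coe.1 h))).2 ⟨?_, ?_⟩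
        · intro a ha b hb hab
          rw [hup a (mem_coe.1 ha), hup b (mem_coe.1 hb)] at hab
          exact hf1 ha hb hab
        · rintro ⟨a, ha, hab⟩
          rw [hup a (mem_coe.1 ha), Function.update_self] at hab
          exact hy2 (mem_image.2 ⟨a, mem_coe.1 ha, hab⟩))
      (fun x hx hxv => by
        rcases mem_insert.1 hx with h | h
        · rw [h, hup _ hpS', Function.update_self]
          exact hy3
        · rw [hup x h, hup _ (hp' x h hxv)]
          exact hf2 x h hxv)
      (fun x hx => by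
        rcases mem_insert.1 hx with h | h
        · rw [h, Function.update_self]
          exact hy1
        · rw [hup x h]
          exact hf3 x h)
      (by
        rw [sdiff_insert, card_erase_of_mem htm, ← hn]
        rfl)
    exact ⟨f', fun x hx => (h1 x (mem_insert_of_mem hx)).trans (hup x hx), h2, h3, h4⟩

end Pool.Agent.Work.MP_fcea8e_co.Typ
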