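import Pool.Agent.Work.MP_fcea8e_co.Typ.RtBase

/-!
# Module LvHeight (M): relative heights over a level

Proof. For `t : κ` let `m t` be the least `m` with `R.p^[m] t ∈ lv R (j + 1)` (it exists: `m = dep t`
gives the root, `dep_iter`, and `lv_root`; `Nat.find`); put `q t = ht R t - ht R (R.p^[m t] t)`. If
`t ∈ lv (j + 1)`, `m t = 0`. If `t ∉ lv (j + 1)`, then `t ≠ R.v`, `m t = m (p t) + 1`, the same vertex
of `lv (j + 1)` is reached from `p t`, and `ht_p` gives the recursion.
Bound: let `t ∉ lv (j + 1)`, `m = m t ≥ 1`, `u' = R.p^[m - 1] t ∉ lv (j + 1)` and `u = R.p u'`. So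
`u' ≠ R.v` and `rg R u' < 2 ^ j`. `Dsc R u' t` and `Dsc R u' u'`, so `|ht t - ht u'| ≤ rg R u'`
(`rg_le` twice) and `|ht u' - ht u| = |sg (dir u')| = 1` (`ht_p`). Hence `|q t| ≤ 2 ^ j`.
(`m ≤ dep t` because `p^[dep t] t` is the root.)
-/

set_option autoImplicit false

namespace Pool.Agent.Work.MP_fcea8e_co.Typ

open Finset Pool.Agent.Work.MP_fcea8e_co.Dom

theorem lv_height {κ : Type} [Fintype κ] (R : RT κ) (j : ℕ) :
    ∃ q : κ → ℤ, (∀ t ∈ lv R (j + 1), q t = 0) ∧ (∀ t, |q t| ≤ (2 ^ j : ℕ)) ∧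
      ∀ t, t ∉ lv R (j + 1) → q t = q (R.p t) + sg (R.dir t) := by
  classical
  have hex : ∀ t, ∃ m, R.p^[m] t ∈ lv R (j + 1) := by
    intro t
    obtain ⟨n, -, hn⟩ := dsc_root R t
    exact ⟨n, by rw [hn]; exact lv_root R (j + 1)⟩
  have hzero : ∀ t, t ∈ lv R (j + 1) → Nat.find (hex t) = 0 := by
    intro t ht0
    rw [Nat.find_eq_zero]
    exact ht0
  refine ⟨fun t => ht R t - ht R (R.p^[Nat.find (hex t)] t), ?_, ?_, ?_⟩
  · intro t ht0
    simp [hzero t ht0]
  · intro t
    by_cases ht0 : t ∈ lv R (j + 1)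
    · simp [hzero t ht0]
    · have hpos : Nat.find (hex t) ≠ 0 := by
        intro h0
        rw [Nat.find_eq_zero] at h0
        exact ht0 h0
      obtain ⟨n, hn⟩ := Nat.exists_eq_succ_of_ne_zero hpos
      obtain ⟨d, hd, hd'⟩ := dsc_root R t
      have hle : Nat.find (hex t) ≤ d := Nat.find_min' (hex t) (by
        rw [hd']; exact lv_root R (j + 1))
      have hnot : R.p^[n] t ∉ lv R (j + 1) := Nat.find_min (hex t) (by omega)
      have hD : Dsc R (R.p^[n] t) t := ⟨n, by omega, rfl⟩
      have hne : R.p^[n] t ≠ R.v := by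
        intro hv
        exact hnot (by rw [hv]; exact lv_root R (j + 1))
      have hrg : rg R (R.p^[n] t) < 2 ^ j := by
        by_contra hcon
        apply hnot
        show R.p^[n] t ∈ univ.filter (fun u => 2 ^ j ≤ rg R u ∨ u = R.v)
        rw [Finset.mem_filter]
        exact ⟨Finset.mem_univ _, Or.inl (not_lt.1 hcon)⟩
      have hrg' : (rg R (R.p^[n] t) : ℤ) + 1 ≤ ((2 ^ j : ℕ) : ℤ) := by exact_mod_cast hrg
      have h1 := rg_le R hD (dsc_refl R (R.p^[n] t))
      have h2 := rg_le R (dsc_refl R (R.p^[n] t)) hD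
      have h3 := ht_p R hne
      have h4 : R.p^[Nat.find (hex t)] t = R.p (R.p^[n] t) := by
        rw [hn, Function.iterate_succ_apply']
      have h5 : sg (R.dir (R.p^[n] t)) = 1 ∨ sg (R.dir (R.p^[n] t)) = -1 := by
        unfold sg
        split <;> simp
      show |ht R t - ht R (R.p^[Nat.find (hex t)] t)| ≤ _
      rw [h4, abs_le]
      rcases h5 with h5 | h5 <;> rw [h5] at h3 <;> constructor <;> linarith
  · intro t ht0
    have hne : t ≠ R.v := by
      intro hv
      exact ht0 (by rw [hv]; exact lv_root R (j + 1))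
    have hfind : Nat.find (hex t) = Nat.find (hex (R.p t)) + 1 := by
      apply le_antisymm
      · apply Nat.find_min'
        rw [Function.iterate_succ_apply]
        exact Nat.find_spec (hex (R.p t))
      · have hpos : Nat.find (hex t) ≠ 0 := by
          intro h0
          rw [Nat.find_eq_zero] at h0
          exact ht0 h0
        obtain ⟨n, hn⟩ := Nat.exists_eq_succ_of_ne_zero hpos
        have hs := Nat.find_spec (hex t)
        rw [hn, Function.iterate_succ_apply] at hs
        have := Nat.find_min' (hex (R.p t)) hs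
        omega
    have h4 : R.p^[Nat.find (hex t)] t = R.p^[Nat.find (hex (R.p t))] (R.p t) := by
      rw [hfind, Function.iterate_succ_apply]
    show ht R t - ht R (R.p^[Nat.find (hex t)] t) =
      ht R (R.p t) - ht R (R.p^[Nat.find (hex (R.p t))] (R.p t)) + sg (R.dir t)
    rw [h4, ht_p R hne]
    ring

end Pool.Agent.Work.MP_fcea8e_co.Typ
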