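import Pool.Agent.Work.MP_fcea8e_co.Typ.RtBase

/-!
# Module LvSum (M): the sum over the levels

Proofs. Let `N = Nat.size (rg R R.v)`: `rg R R.v < 2 ^ N` (`Nat.lt_size_self`) and
`2 ^ (j - 1) ≤ rg R R.v` for `1 ≤ j ≤ N` (`Nat.lt_size`).
`lv_last`: `u ∈ lv (N + 1)` with `u ≠ v` would have `2 ^ N ≤ rg u ≤ rg v` (`rg_le_root`).
`lv_sum`: the term `j = 0` is `8 |κ|`. For `1 ≤ j ≤ N`, `lv R j = {u | 2 ^ (j - 1) ≤ rg R u}` (the root
satisfies the condition). So the sum of the other terms is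
`∑_u ∑_{j = 1}^N [2 ^ (j - 1) ≤ rg u] 8 * 2 ^ j` (`Finset.card_filter`, `Finset.sum_comm`), and for a number
`r`, `∑_{i < N} [2 ^ i ≤ r] 16 * 2 ^ i ≤ 32 r`: for `r = 0` all terms vanish, for `r ≥ 1` the terms with
`i ≤ Nat.log 2 r` sum up to `16 (2 ^ (log 2 r + 1) - 1) ≤ 32 r` (`geom_aux`; e.g. induction on `N`
with the statement `∑_{i < N} [2 ^ i ≤ r] 2 ^ i ≤ min (2 ^ N) (2 * r)`, written as two inequalities:
if `2 ^ N ≤ r` then the sum plus `2 ^ N` is `≤ 2 ^ N + 2 ^ N ≤ 2 r`).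
-/

set_option autoImplicit false

namespace Pool.Agent.Work.MP_fcea8e_co.Typ

open Finset Pool.Agent.Work.MP_fcea8e_co.Dom

private theorem lvsum_geom (r : ℕ) : ∀ N : ℕ, ∑ i ∈ range N, (if 2 ^ i ≤ r then 2 ^ i else 0) ≤ 2 * r ∧
    ∑ i ∈ range N, (if 2 ^ i ≤ r then 2 ^ i else 0) + 1 ≤ 2 ^ N := by
  intro N
  induction N with
  | zero => simp
  | succ N ih =>
    obtain ⟨h1, h2⟩ := ih
    rw [sum_range_succ, pow_succ]
    have h3 : 0 < 2 ^ N := by positivity
    by_cases h : 2 ^ N ≤ r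
    · rw [if_pos h]
      constructor <;> omega
    · rw [if_neg h]
      constructor <;> omega

theorem geom_aux (N r : ℕ) : ∑ i ∈ range N, (if 2 ^ i ≤ r then 2 ^ i else 0) ≤ 2 * r := by
  exact (lvsum_geom r N).1

variable {κ : Type} [Fintype κ] (R : RT κ)

theorem lv_last : lv R (Nat.size (rg R R.v) + 1) = {R.v} := by
  ext u
  simp only [lv, mem_filter, mem_univ, true_and, mem_singleton]
  constructor
  · rintro (h | h)
    · have h1 := rg_le_root R u
      have h2 := Nat.lt_size_self (rg R R.v)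
      omega
    · exact h
  · intro h
    exact Or.inr h

private theorem lvsum_card {j : ℕ} (hj : j < Nat.size (rg R R.v)) :
    (lv R (j + 1)).card = ∑ u, if 2 ^ j ≤ rg R u then 1 else 0 := by
  classical
  have h0 : 2 ^ j ≤ rg R R.v := Nat.lt_size.1 hj
  have h1 : lv R (j + 1) = univ.filter (fun u => 2 ^ j ≤ rg R u) := by
    ext u
    simp only [lv, mem_filter, mem_univ, true_and]
    constructor
    · rintro (h | h)
      · exact h
      · rw [h]
        exact h0
    · intro h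
      exact Or.inl h
  rw [h1, card_filter]

theorem lv_sum : ∑ j ∈ range (Nat.size (rg R R.v) + 1), 8 * 2 ^ j * (lv R j).card ≤
    ∑ u, (8 + 32 * rg R u) := by
  rw [sum_range_succ', sum_add_distrib, add_comm]
  have h0 : 8 * 2 ^ 0 * (lv R 0).card = ∑ _u : κ, 8 := by
    simp [lv, mul_comm]
  rw [h0]
  apply Nat.add_le_add_left
  calc ∑ j ∈ range (Nat.size (rg R R.v)), 8 * 2 ^ (j + 1) * (lv R (j + 1)).card
      = ∑ j ∈ range (Nat.size (rg R R.v)), ∑ u : κ, 16 * (if 2 ^ j ≤ rg R u then 2 ^ j else 0) := by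
        refine sum_congr rfl fun j hj => ?_
        rw [lvsum_card R (mem_range.1 hj), mul_sum]
        refine sum_congr rfl fun u _ => ?_
        by_cases h : 2 ^ j ≤ rg R u
        · rw [if_pos h, if_pos h, pow_succ]
          ring
        · rw [if_neg h, if_neg h, mul_zero, mul_zero]
    _ = ∑ u : κ, 16 * ∑ j ∈ range (Nat.size (rg R R.v)), (if 2 ^ j ≤ rg R u then 2 ^ j else 0) := by
        rw [sum_comm]
        refine sum_congr rfl fun u _ => ?_
        rw [mul_sum]
    _ ≤ ∑ u : κ, 32 * rg R u := by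
        refine sum_le_sum fun u _ => ?_
        have := geom_aux (Nat.size (rg R R.v)) (rg R u)
        omega

end Pool.Agent.Work.MP_fcea8e_co.Typ
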