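import Pool.Agent.Work.MP_fcea8e_co.Typ.LayMain
import Pool.Agent.Work.MP_fcea8e_co.Typ.Extend
import Pool.Agent.Work.MP_fcea8e_co.Typ.LvHeight
import Pool.Agent.Work.MP_fcea8e_co.Typ.LvSum

/-!
# Module DetMain (M): the deterministic theorem for rooted trees

Proof. Let `N = Nat.size (rg R R.v)`. Define `W 0 = univ`, `W (j + 1) = top E (W j) K_j (2 ^ j) 0` with
`K_j = (lv R j).card ≥ 1` (`lv_root`) (a recursive definition: `Nat.rec`).
By `layer_col`, `CB E (W j \ W (j + 1)) (8 * 2 ^ j * K_j)`, so by induction (`cb_union`, `cb_mono`)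
`CB E (univ \ W j) (∑ i ∈ range j, 8 * 2 ^ i * K_i)`. If `W (N + 1)` were empty, `E` would have a
colouring (`KC`) with at most `∑_u (8 + 32 rg u)` colours (`lv_sum`), a contradiction to `h` (note that
`KC E k` for `k` = the sum, which is smaller than `1 +` the sum). Let `x₀ ∈ W (N + 1)`.
Claim, by downward induction on `j` (from `N + 1` to `0`; e.g. induction on `i` with `j = N + 1 - i`):
there is `f : κ → V`, injective on `lv R j`, with `R.arc E t (f (R.p t)) (f t)` for
`t ∈ lv R j`, `t ≠ R.v`, and `f t ∈ W j` for `t ∈ lv R j`. For `j = N + 1`: `lv R (N + 1) = {R.v}`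
(`lv_last`), `f = fun _ => x₀`. Step from `j + 1` to `j`: `extend` with `S' = lv R (j + 1)`,
`S = lv R j`, `G = W j`, `K = K_j`, `l = 2 ^ j` and the function of `lv_height R j`
(`f t ∈ W (j + 1) = top E (W j) K_j (2 ^ j) 0` and `q t = 0` for `t ∈ lv R (j + 1)`); the new `f` maps
`lv R j` into `W j` by `top_sub`. For `j = 0`, `lv R 0 = univ`: `f` is a copy (`RT.Copy`).
-/

set_option autoImplicit false

namespace Pool.Agent.Work.MP_fcea8e_co.Typ

open Finset Pool.Agent.Work.MP_fcea8e_co.Dom

theorem det_main {κ V : Type} [Fintype κ] [Fintype V] (R : RT κ) {E : V → V → Prop}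
    (hE : Asym E) (h : ∀ k, k < 1 + ∑ u, (8 + 32 * rg R u) → ¬ KC E k) :
    ∃ f : κ → V, R.Copy E f := by
  classical
  set N : ℕ := Nat.size (rg R R.v) with hN
  let W : ℕ → Finset V := fun n =>
    Nat.rec (motive := fun _ => Finset V) univ
      (fun j G => top E G (lv R j).card (2 ^ j) 0) n
  have hW0 : W 0 = univ := rfl
  have hWs : ∀ j, W (j + 1) = top E (W j) (lv R j).card (2 ^ j) 0 := fun j => rfl
  have hK : ∀ j, 1 ≤ (lv R j).card := fun j => Finset.card_pos.2 ⟨R.v, lv_root R j⟩
  have hCB : ∀ j, CB E (univ \ W j) (∑ i ∈ range j, 8 * 2 ^ i * (lv R i).card) := by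
    intro j
    induction j with
    | zero =>
      rw [hW0, Finset.sdiff_self]
      exact cb_empty _
    | succ j ih =>
      have h1 := layer_col hE (W j) (2 ^ j) (hK j)
      rw [← hWs j] at h1
      refine cb_mono (cb_union ih h1) ?_ ?_
      · intro x hx
        rw [mem_sdiff] at hx
        rw [mem_union, mem_sdiff, mem_sdiff]
        rcases Classical.em (x ∈ W j) with hx1 | hx1
        · exact Or.inr ⟨hx1, hx.2⟩
        · exact Or.inl ⟨mem_univ _, hx1⟩
      · rw [Finset.sum_range_succ]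
  have hne : (W (N + 1)).Nonempty := by
    by_contra hcon
    rw [Finset.not_nonempty_iff_eq_empty] at hcon
    have h1 := hCB (N + 1)
    rw [hcon, Finset.sdiff_empty] at h1
    obtain ⟨c, hc1, hc2⟩ := h1
    have h2 := lv_sum R
    apply h (∑ u, (8 + 32 * rg R u)) (by omega)
    refine ⟨c, fun x => lt_of_lt_of_le (hc1 x (mem_univ x)) h2, fun x y hxy =>
      hc2 x (mem_univ x) y (mem_univ y) hxy⟩
  obtain ⟨x₀, hx₀⟩ := hne
  have key : ∀ i j, j + i = N + 1 → ∃ f : κ → V, Set.InjOn f (lv R j) ∧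
      (∀ t ∈ lv R j, t ≠ R.v → R.arc E t (f (R.p t)) (f t)) ∧ ∀ t ∈ lv R j, f t ∈ W j := by
    intro i
    induction i with
    | zero =>
      intro j hj
      have hj' : j = N + 1 := by omega
      have hl : lv R j = {R.v} := by
        rw [hj', hN]; exact lv_last R
      refine ⟨fun _ => x₀, ?_, ?_, ?_⟩
      · intro a ha b hb _
        rw [hl, mem_coe, mem_singleton] at ha hb
        rw [ha, hb]
      · intro t ht htv
        rw [hl, mem_singleton] at ht
        exact absurd ht htv
      · intro t _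
        rw [hj']
        exact hx₀
    | succ i ih =>
      intro j hj
      obtain ⟨f, hf1, hf2, hf3⟩ := ih (j + 1) (by omega)
      obtain ⟨q, hq1, hq2, hq3⟩ := lv_height R j
      obtain ⟨f', g1, g2, g3, g4⟩ := extend R (E := E) (G := W j) (K := (lv R j).card)
        (l := 2 ^ j) (lv_anti R j) (lv_root R (j + 1)) (fun t ht h => lv_p R (j + 1) ht h)
        (fun t ht h => lv_p R j ht h) le_rfl q (fun t _ => hq2 t) (fun t _ h => hq3 t h) f hf1
        hf2 (fun t ht => by
          rw [hq1 t ht, ← hWs j]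
          exact hf3 t ht)
      exact ⟨f', g2, g3, fun t ht => top_sub _ (g4 t ht)⟩
  obtain ⟨f, hf1, hf2, _⟩ := key (N + 1) 0 (by omega)
  refine ⟨f, ?_, ?_⟩
  · intro a b hab
    exact hf1 (mem_coe.2 (mem_univ a)) (mem_coe.2 (mem_univ b)) hab
  · intro t ht
    exact hf2 t (mem_univ t) ht

end Pool.Agent.Work.MP_fcea8e_co.Typ
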