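import Pool.Agent.Work.MP_fcea8e_co.Typ.TrTree
import Pool.Agent.Work.MP_fcea8e_co.Typ.DetFin

/-!
# Module TrBound (M): the deterministic bound for the digraph of a rooted tree

Proof. Take `r` and `R` from `tr_describes`; `cNum_le_rt` gives `cNum ≤ 1 + ∑ (8 + 32 rg R u)`; it suffices
that `rg R u ≤ 2 mx f e u`. By `exists_rg` there are `t, t'` with `Dsc R u t`, `Dsc R u t'` and
`rg = ht t - ht t'`. For `Dsc R u t`: `f^[n] t = u` with `n ≤ dep t`, so `t ∈ desc f u`, and `dp f u t = n`
for the least such `n`; `ht R t - ht R u = rh f e u t` (from `ht_p`, by induction on `n = dp f u t`: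
`ht R t = ht R (f^[n] t) + ∑_{i < n} sg (e (f^[i] t))` for `n ≤ dep t`). Hence
`|ht t - ht u| ≤ mx f e u` (`Finset.le_sup`), the same for `t'`, and `ht t - ht t' ≤ 2 mx f e u`.
-/

set_option autoImplicit false

namespace Pool.Agent.Work.MP_fcea8e_co.Typ

open Finset Pool.Agent.Work.MP_fcea8e_co.Dom

theorem tr_bound {V : Type} [Fintype V] {f : V → V} (hf : f ∈ TM V) (e : V → Bool) :
    cNum (Tr f e) ≤ 1 + ∑ u, (8 + 64 * mx f e u) := by
  classical
  have hf' := hf
  unfold TM at hf'
  simp only [mem_filter, mem_univ, true_and] at hf'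
  obtain ⟨r, hr, h⟩ := hf'
  obtain ⟨R, hRv, hRp, hRdir, hRdep, hD⟩ := tr_describes hr h e
  refine (cNum_le_rt hD).trans ?_
  refine Nat.add_le_add_left (sum_le_sum (fun u _ => ?_)) 1
  have key : ∀ t, Dsc R u t → (ht R t - ht R u).natAbs ≤ mx f e u := by
    rintro t ⟨n, hn, hnt⟩
    have hit : ∀ i, i ≤ R.dep t → ht R t = ht R (f^[i] t) + ∑ j ∈ range i, sg (e (f^[j] t)) := by
      intro i
      induction i with
      | zero => intro _; simp
      | succ i ih =>
        intro hi
        rw [ih (by omega), sum_range_succ, Function.iterate_succ_apply']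
        have hne : f^[i] t ≠ R.v := by
          intro hc
          have h1 := dep_iter R (t := t) (n := i) (by omega)
          rw [hRp, hc] at h1
          have h2 : R.dep R.v = 0 := by
            rw [hRdep, hRv]
            exact dp_self
          omega
        rw [ht_p R hne, hRp, hRdir]
        ring
    rw [hRp] at hnt
    have hmem : t ∈ desc f u := mem_desc.2 ⟨n, hnt⟩
    have hd : dp f u t ≤ R.dep t := (dp_le hnt).trans hn
    have h1 := hit _ hd
    rw [iter_dp hmem] at h1
    have h2 : ht R t - ht R u = rh f e u t := by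
      rw [h1]
      unfold rh
      ring
    rw [h2]
    exact Finset.le_sup (f := fun w => (rh f e u w).natAbs) hmem
  obtain ⟨t, t', h1, h2, h3⟩ := exists_rg R u
  have k1 := key t h1
  have k2 := key t' h2
  have h4 : rg R u ≤ 2 * mx f e u := by omega
  omega

end Pool.Agent.Work.MP_fcea8e_co.Typ
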