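import Pool.Agent.Work.MP_fcea8e_co.Typ.TrTree

/-!
# Module TrCount (M-L): from rooted trees to trees

Proof. Consider the map `(f, e) ↦ (Tr f e, r, e r)` where `r` is the root of `f ∈ TM V` (choose it with
`Classical.choose`; unique by `root_unique`). It is a bijection from `TM V ×ˢ univ` onto
`{T | Oriented T ∧ IsTree} × V × Bool`.
Values: `tr_oriented`, `tr_isTree`. Injective: `tr_inj`: let `Tr f e = Tr f' e'` with the same root `r` and
`e r = e' r`. In the underlying graph `G` the neighbours of `x` are `f x` (if `x ≠ r`) and the `y ≠ r` with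
`f y = x`. `dp f r x = G.dist x r = dp f' r x` (or: by strong induction on `dp f r x`: `f x = f' x` for all
`x`. Let `x ≠ r`; the edge `{x, f x}` of `G` is also `{z, f' z}` for `z = x` or `z = f x`. If `z = f x` then
`f' (f x) = x` and by the induction hypothesis for `f x` (smaller depth), `f' (f x) = f (f x)`, so
`f (f x) = x`, impossible by `dp_step` (or `f x = r` and `f' r = r ≠ x`). So `f' x = f x`.) Then
`e x = e' x` for `x ≠ r`: `e x = true` iff `Adj (f x) x` (as the digraph is oriented).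
Surjective: `tr_surj`: for `T`, `r` and `b : Bool` take `R` from `exists_rt` (`Describes R T r`); put
`f x = if x = r then r else R.p x`, `e x = if x = r then b else R.dir x`. `f^[n] x = r` for
`n = R.dep x` (induction with `R.dep_p`; `R.dep x = 0` only for `x = r`: if `x ≠ r`, `dep x ≥ 1`), so `f ∈ TM V`,
and `Tr f e = T` (for `x ≠ r`, `R.p x ≠ x` because of the depths).
`tr_count`: count `{(f, e) | P (Tr f e)}` with this bijection: `(2 |V|) * |{T | ... ∧ P T}|`
(`Equiv.ofBijective` between the subtype of the pairs and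
`{T // Oriented T ∧ IsTree ∧ P T} × V × Bool`, then `Nat.card_congr`, `Nat.card_prod`).
-/

set_option autoImplicit false

namespace Pool.Agent.Work.MP_fcea8e_co.Typ

open Finset Pool.Agent.Work.MP_fcea8e_co.Dom

variable {V : Type} [Fintype V]

private theorem trc_no2 {f : V → V} {r : V} (hr : f r = r) (h : ∀ x, ∃ n, f^[n] x = r) {x : V}
    (hx : f (f x) = x) : x = r := by
  by_contra hxr
  have h1 := dp_step hr h hxr
  by_cases hfx : f x = r
  · rw [hfx, hr] at hx
    exact hxr hx.symm
  · have h2 := dp_step hr h hfx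
    rw [hx] at h2
    omega

private theorem trc_und {f : V → V} {e : V → Bool} {a b : V} :
    ((Tr f e).Adj a b ∨ (Tr f e).Adj b a) ↔ a ≠ b ∧ (f b = a ∨ f a = b) := by
  unfold Tr
  dsimp only
  constructor
  · rintro ((⟨h1, h2, h3⟩ | ⟨h1, h2, h3⟩) | (⟨h1, h2, h3⟩ | ⟨h1, h2, h3⟩))
    · exact ⟨h1, Or.inl h2⟩
    · exact ⟨h1, Or.inr h2⟩
    · exact ⟨fun h => h1 h.symm, Or.inr h2⟩
    · exact ⟨fun h => h1 h.symm, Or.inl h2⟩
  · rintro ⟨h1, h2 | h2⟩
    · cases he : e b with
      | true => exact Or.inl (Or.inl ⟨h1, h2, rfl⟩)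
      | false => exact Or.inr (Or.inr ⟨fun h => h1 h.symm, h2, rfl⟩)
    · cases he : e a with
      | true => exact Or.inr (Or.inl ⟨fun h => h1 h.symm, h2, rfl⟩)
      | false => exact Or.inl (Or.inr ⟨h1, h2, rfl⟩)

private theorem trc_eq {f f' : V → V} {e e' : V → Bool} {r : V} (hr : f r = r) (hr' : f' r = r)
    (h : ∀ x, ∃ n, f^[n] x = r) (hT : Tr f e = Tr f' e') :
    ∀ (n : ℕ) (x : V), dp f r x = n → f x = f' x := by
  intro n
  induction n using Nat.strong_induction_on with
  | _ n ih =>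
    intro x hn
    by_cases hxr : x = r
    · rw [hxr, hr, hr']
    · have hne : x ≠ f x := fun hx => hxr (root_unique hr h hx.symm)
      have h1 := (trc_und (f := f) (e := e) (a := x) (b := f x)).2 ⟨hne, Or.inr rfl⟩
      rw [hT] at h1
      rcases (trc_und.1 h1).2 with h2 | h2
      · have h3 := dp_step hr h hxr
        have h4 := ih (dp f r (f x)) (by omega) (f x) rfl
        rw [h2] at h4
        exact absurd (trc_no2 hr h h4) hxr
      · exact h2.symm

theorem tr_inj {f f' : V → V} {e e' : V → Bool} {r : V} (hr : f r = r) (hr' : f' r = r)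
    (h : ∀ x, ∃ n, f^[n] x = r) (h' : ∀ x, ∃ n, f'^[n] x = r) (he : e r = e' r)
    (hT : Tr f e = Tr f' e') : f = f' ∧ e = e' := by
  have hf : f = f' := by
    funext x
    exact trc_eq hr hr' h hT _ x rfl
  subst hf
  refine ⟨rfl, ?_⟩
  funext x
  by_cases hxr : x = r
  · rw [hxr, he]
  · have hne : f x ≠ x := fun hx => hxr (root_unique hr h hx)
    have hno : f (f x) ≠ x := fun hx => hxr (trc_no2 hr h hx)
    cases hex : e x with
    | true =>
      have h1 : (Tr f e).Adj (f x) x := Or.inl ⟨hne, rfl, hex⟩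
      rw [hT] at h1
      rcases h1 with ⟨_, _, h2⟩ | ⟨_, h2, _⟩
      · exact h2.symm
      · exact absurd h2 hno
    | false =>
      have h1 : (Tr f e).Adj x (f x) := Or.inr ⟨fun h => hne h.symm, rfl, hex⟩
      rw [hT] at h1
      rcases h1 with ⟨_, h2, _⟩ | ⟨_, _, h2⟩
      · exact absurd h2 hno
      · exact h2.symm

theorem tr_surj (T : Digraph V) (ho : Oriented T)
    (ht : (SimpleGraph.fromRel T.Adj).IsTree) (r : V) (b : Bool) :
    ∃ (f : V → V) (e : V → Bool), f r = r ∧ (∀ x, ∃ n, f^[n] x = r) ∧ e r = b ∧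
      Tr f e = T := by
  classical
  obtain ⟨R, hRv, hadj⟩ := exists_rt T ho ht r
  have hstep : ∀ x, x ≠ r → R.dep (R.p x) + 1 = R.dep x := fun x hx => R.dep_p x (by rwa [hRv])
  refine ⟨fun x => if x = r then r else R.p x, fun x => if x = r then b else R.dir x,
    if_pos rfl, ?_, if_pos rfl, ?_⟩
  · have key : ∀ (n : ℕ) (x : V), R.dep x = n →
        ∃ m, (fun x => if x = r then r else R.p x)^[m] x = r := by
      intro n
      induction n using Nat.strong_induction_on with
      | _ n ih =>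
        intro x hn
        by_cases hxr : x = r
        · exact ⟨0, hxr⟩
        · have h1 := hstep x hxr
          obtain ⟨m, hm⟩ := ih (R.dep (R.p x)) (by omega) (R.p x) rfl
          refine ⟨m + 1, ?_⟩
          rw [Function.iterate_succ_apply]
          simp only [if_neg hxr]
          exact hm
    exact fun x => key _ x rfl
  · have hp : ∀ x, x ≠ r → R.p x ≠ x := by
      intro x hx h
      have h1 := hstep x hx
      rw [h] at h1
      omega
    ext a b
    rw [hadj a b]
    unfold Tr
    dsimp only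
    constructor
    · rintro (⟨h1, h2, h3⟩ | ⟨h1, h2, h3⟩)
      · by_cases hb : b = r
        · rw [if_pos hb] at h2
          exact absurd (h2.symm.trans hb.symm) h1
        · rw [if_neg hb] at h2 h3
          exact Or.inr ⟨hb, h2, h3⟩
      · by_cases ha : a = r
        · rw [if_pos ha] at h2
          exact absurd (ha.trans h2) h1
        · rw [if_neg ha] at h2 h3
          exact Or.inl ⟨ha, h2, h3⟩
    · rintro (⟨h1, h2, h3⟩ | ⟨h1, h2, h3⟩)
      · refine Or.inr ⟨?_, ?_, ?_⟩
        · intro h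
          exact hp a h1 (h2.trans h.symm)
        · rw [if_neg h1]
          exact h2
        · rw [if_neg h1]
          exact h3
      · refine Or.inl ⟨?_, ?_, ?_⟩
        · intro h
          exact hp b h1 (h2.trans h)
        · rw [if_neg h1]
          exact h2
        · rw [if_neg h1]
          exact h3

private theorem trc_mem {f : V → V} : f ∈ TM V ↔ ∃ r, f r = r ∧ ∀ x, ∃ n, f^[n] x = r := by
  classical
  unfold TM
  rw [mem_filter]
  exact ⟨fun h => h.2, fun h => ⟨mem_univ _, h⟩⟩

open Classical in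
theorem tr_count (P : Digraph V → Prop) :
    Nat.card {q : (V → V) × (V → Bool) // q.1 ∈ TM V ∧ P (Tr q.1 q.2)} =
      2 * Fintype.card V * Nat.card {T : Digraph V // Oriented T ∧
        (SimpleGraph.fromRel T.Adj).IsTree ∧ P T} := by
  have hroot : ∀ q : {q : (V → V) × (V → Bool) // q.1 ∈ TM V ∧ P (Tr q.1 q.2)},
      ∃ r, q.1.1 r = r ∧ ∀ x, ∃ n, q.1.1^[n] x = r := fun q => trc_mem.1 q.2.1
  choose rt hrt1 hrt2 using hroot
  let Φ : {q : (V → V) × (V → Bool) // q.1 ∈ TM V ∧ P (Tr q.1 q.2)} →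
      {T : Digraph V // Oriented T ∧ (SimpleGraph.fromRel T.Adj).IsTree ∧ P T} × V × Bool :=
    fun q => (⟨Tr q.1.1 q.1.2, tr_oriented q.2.1 q.1.2, tr_isTree q.2.1 q.1.2, q.2.2⟩, rt q,
      q.1.2 (rt q))
  have hbij : Function.Bijective Φ := by
    constructor
    · intro q q' h
      have h1 : Tr q.1.1 q.1.2 = Tr q'.1.1 q'.1.2 := congrArg (fun z => z.1.1) h
      have h2 : rt q = rt q' := congrArg (fun z => z.2.1) h
      have h3 : q.1.2 (rt q) = q'.1.2 (rt q') := congrArg (fun z => z.2.2) h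
      have h4 := hrt1 q'
      have h5 := hrt2 q'
      rw [← h2] at h3 h4 h5
      obtain ⟨h6, h7⟩ := tr_inj (hrt1 q) h4 (hrt2 q) h5 h3 h1
      exact Subtype.ext (Prod.ext h6 h7)
    · rintro ⟨⟨T, hT1, hT2, hT3⟩, r, b⟩
      obtain ⟨f, e, h1, h2, h3, h4⟩ := tr_surj T hT1 hT2 r b
      obtain ⟨q, hq⟩ : ∃ q : {q : (V → V) × (V → Bool) // q.1 ∈ TM V ∧ P (Tr q.1 q.2)},
          q.1 = (f, e) := ⟨⟨(f, e), trc_mem.2 ⟨r, h1, h2⟩, by rw [h4]; exact hT3⟩, rfl⟩
      have h6 := hrt1 q
      have h5 : rt q = r := by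
        rw [hq] at h6
        exact root_unique h1 h2 h6
      refine ⟨q, Prod.ext (Subtype.ext ?_) (Prod.ext h5 ?_)⟩
      · change Tr q.1.1 q.1.2 = T
        rw [hq]
        exact h4
      · change q.1.2 (rt q) = b
        rw [h5, hq]
        exact h3
  rw [Nat.card_congr (Equiv.ofBijective Φ hbij), Nat.card_prod, Nat.card_prod]
  rw [Nat.card_eq_fintype_card (α := V), Nat.card_eq_fintype_card (α := Bool), Fintype.card_bool]
  ring

end Pool.Agent.Work.MP_fcea8e_co.Typ
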