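import Pool.Agent.Work.MP_fcea8e_co.Typ.TreeTail
import Pool.Agent.Work.MP_fcea8e_co.Typ.TrBound
import Pool.Agent.Work.MP_fcea8e_co.Typ.TrCount

/-!
# Module Final (M): almost all oriented trees

Proofs. `lower`: `k ≤ tNum T`: with `R` from `exists_rt`, `tNum_eq`, `cNum_eq`; the set `tSet R.pC` is nonempty
(`cSet_ne R`, `cSet_sub_tSet`), so `n = tNum T` is in it (`Nat.sInf_mem`); the transitive tournament on
`Fin n` contains `T`, and the copy is an injective map `Fin k → Fin n`. `tNum T ≤ cNum T`: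
`Nat.sInf_le (cSet_sub_tSet _ (Nat.sInf_mem (cSet_ne R)))`.
`almost_all`: `C = 107657 ≥ 1 + 8 + 64 * 1682`. Given `ε`, `k₀` from `tree_tail` (and `k₀ ≥ 1`). Let `V = Fin k`. If
`T = Tr f e` with `f ∈ TM V` and `cNum T > C k`, then by `tr_bound` `1 + 8 k + 64 ∑ mx > C k`, so
`∑ mx > 1682 k`. So with `tr_count` (for `P T = (C k < cNum T)` and for `P = True`) and `tree_tail`:
`2 k |bad trees| ≤ ε |TM| 2 ^ k = ε * 2 k |trees|`. (`Nat.card` of a subtype of pairs is the card of the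
filter: `Nat.subtype_card` / `Fintype.card_subtype`.)
-/

set_option autoImplicit false

namespace Pool.Agent.Work.MP_fcea8e_co.Typ

open Finset Pool.Agent.Work.MP_fcea8e_co.Dom

theorem lower {k : ℕ} (T : Digraph (Fin k)) (hT : Oriented T)
    (ht : (SimpleGraph.fromRel T.Adj).IsTree) : k ≤ tNum T ∧ tNum T ≤ cNum T := by
  obtain ⟨r⟩ := ht.connected.nonempty
  obtain ⟨R, hR⟩ := exists_rt T hT ht r
  have hc := cSet_ne R
  have h1 := Nat.sInf_mem hc
  have h2 := Nat.sInf_mem (hc.mono (cSet_sub_tSet _))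
  constructor
  · rw [tNum_eq hR]
    obtain ⟨f, hf⟩ := h2 (fun a b => a < b) (fun a b h h' => lt_asymm h h')
      (fun a b h => lt_or_gt_of_ne h)
    have h3 := Fintype.card_le_of_injective f hf.1
    rwa [Fintype.card_fin, Fintype.card_fin] at h3
  · rw [tNum_eq hR, cNum_eq hR]
    exact Nat.sInf_le (cSet_sub_tSet _ h1)

theorem almost_all : ∃ C : ℕ, ∀ ε : ℝ, 0 < ε → ∃ k₀ : ℕ, ∀ k : ℕ, k₀ ≤ k →
    (Nat.card {T : Digraph (Fin k) // Oriented T ∧ (SimpleGraph.fromRel T.Adj).IsTree ∧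
      C * k < cNum T} : ℝ) ≤
      ε * Nat.card {T : Digraph (Fin k) // Oriented T ∧
        (SimpleGraph.fromRel T.Adj).IsTree} := by
  classical
  refine ⟨107657, fun ε hε => ?_⟩
  obtain ⟨k₀, h₀⟩ := tree_tail hε
  refine ⟨max k₀ 1, fun k hk => ?_⟩
  have hk1 : 1 ≤ k := le_trans (le_max_right _ _) hk
  have h1 := h₀ (Fin k) (by rw [Fintype.card_fin]; exact le_trans (le_max_left _ _) hk)
  have h2 := tr_count (V := Fin k) (fun T => 107657 * k < cNum T)
  have h3 := tr_count (V := Fin k) (fun _ => True)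
  rw [Fintype.card_fin] at h1 h2 h3
  have h4 : Nat.card {q : (Fin k → Fin k) × (Fin k → Bool) // q.1 ∈ TM (Fin k) ∧
      107657 * k < cNum (Tr q.1 q.2)} ≤
      ((TM (Fin k) ×ˢ (univ : Finset (Fin k → Bool))).filter (fun q => 1682 * k <
        ∑ v, mx q.1 q.2 v)).card := by
    rw [Nat.subtype_card ((TM (Fin k) ×ˢ (univ : Finset (Fin k → Bool))).filter
      (fun q => 107657 * k < cNum (Tr q.1 q.2))) (fun q => by
        rw [mem_filter, mem_product]
        exact ⟨fun h => ⟨h.1.1, h.2⟩, fun h => ⟨⟨h.1, mem_univ _⟩, h.2⟩⟩)]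
    refine card_le_card (fun q hq => ?_)
    rw [mem_filter, mem_product] at hq ⊢
    refine ⟨hq.1, ?_⟩
    have h5 := tr_bound hq.1.1 q.2
    rw [sum_add_distrib, sum_const, card_univ, Fintype.card_fin, ← mul_sum, smul_eq_mul] at h5
    have h6 := hq.2
    omega
  have h7 : Nat.card {q : (Fin k → Fin k) × (Fin k → Bool) // q.1 ∈ TM (Fin k) ∧ True} =
      (TM (Fin k)).card * 2 ^ k := by
    rw [Nat.subtype_card (TM (Fin k) ×ˢ (univ : Finset (Fin k → Bool))) (fun q => by
        rw [mem_product]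
        exact ⟨fun h => ⟨h.1, trivial⟩, fun h => ⟨h.1, mem_univ _⟩⟩), card_product, card_univ,
      Fintype.card_fun, Fintype.card_bool, Fintype.card_fin]
  rw [h7] at h3
  simp only [and_true] at h3
  have h8 : ((2 * k * Nat.card {T : Digraph (Fin k) // Oriented T ∧
      (SimpleGraph.fromRel T.Adj).IsTree ∧ 107657 * k < cNum T} : ℕ) : ℝ) ≤
      ε * ((2 * k * Nat.card {T : Digraph (Fin k) // Oriented T ∧
      (SimpleGraph.fromRel T.Adj).IsTree} : ℕ) : ℝ) := by
    rw [← h2, ← h3]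
    have h1' := (Nat.cast_le (α := ℝ)).2 h4
    refine le_trans h1' ?_
    refine le_trans (le_of_eq ?_) (h1.trans (le_of_eq ?_))
    · congr 2
      ext q
      simp only [mem_filter, mem_product, mem_univ, and_true]
    · push_cast
      ring
  push_cast at h8
  have h9 : (0 : ℝ) < 2 * k := by
    have : (0 : ℝ) < k := by exact_mod_cast hk1
    linarith
  have h10 : 2 * (k : ℝ) * (Nat.card {T : Digraph (Fin k) // Oriented T ∧
      (SimpleGraph.fromRel T.Adj).IsTree ∧ 107657 * k < cNum T} : ℝ) ≤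
      2 * k * (ε * (Nat.card {T : Digraph (Fin k) // Oriented T ∧
      (SimpleGraph.fromRel T.Adj).IsTree} : ℝ)) := by
    refine h8.trans (le_of_eq ?_)
    ring
  exact le_of_mul_le_mul_left h10 h9

end Pool.Agent.Work.MP_fcea8e_co.Typ
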