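import Mathlib

/-!
# Module PowSum (S-M): a sum over subsets

Proof. `∑_{L ⊆ S} |L| r^|L| n^(|S| - |L|) = ∑_{x ∈ S} ∑_{L ⊆ S, x ∈ L} r^|L| n^(|S| - |L|)`
(`Finset.card_eq_sum_ones` / `Finset.sum_comm'`), and for `x ∈ S` the inner sum is
`∑_{L' ⊆ S.erase x} r^(|L'| + 1) n^(|S| - 1 - |L'|) = r (r + n)^(|S| - 1)`
(bijection `L' ↦ insert x L'`; `Finset.sum_pow_mul_eq_add_pow`). Alternative: group by the cardinality
(`Finset.sum_powerset_apply_card`), `l * choose s l = s * choose (s - 1) (l - 1)`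
(`Nat.add_one_mul_choose_eq`) and the binomial theorem `add_pow`.
-/

set_option autoImplicit false

namespace Pool.Agent.Work.MP_fcea8e_co.Typ

open Finset

theorem pow_sum {α : Type} [DecidableEq α] (S : Finset α) (r n : ℕ) :
    ∑ L ∈ S.powerset, L.card * r ^ L.card * n ^ (S.card - L.card) =
      S.card * r * (r + n) ^ (S.card - 1) := by
  have h := Finset.sum_powerset_apply_card (x := S) (fun l => l * r ^ l * n ^ (S.card - l))
  simp only [smul_eq_mul] at h
  rw [h]
  rcases Nat.eq_zero_or_pos S.card with h0 | h0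
  · rw [h0]
    simp
  · obtain ⟨t, ht⟩ := Nat.exists_eq_add_of_le' h0
    rw [ht, Finset.sum_range_succ', Nat.add_sub_cancel]
    simp only [zero_mul, mul_zero, add_zero]
    rw [add_pow, Finset.mul_sum]
    refine Finset.sum_congr rfl fun l _ => ?_
    have h1 := Nat.add_one_mul_choose_eq t l
    have h2 : t + 1 - (l + 1) = t - l := by omega
    rw [h2, pow_succ]
    calc (t + 1).choose (l + 1) * ((l + 1) * (r ^ l * r) * n ^ (t - l))
        = ((t + 1).choose (l + 1) * (l + 1)) * (r ^ l * r * n ^ (t - l)) := by ring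
      _ = ((t + 1) * t.choose l) * (r ^ l * r * n ^ (t - l)) := by rw [h1]
      _ = (t + 1) * r * (r ^ l * n ^ (t - l) * t.choose l) := by ring

end Pool.Agent.Work.MP_fcea8e_co.Typ
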