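import Pool.Agent.Work.MP_fcea8e_co.Typ.FoRec
import Pool.Agent.Work.MP_fcea8e_co.Typ.PowSum

/-!
# Module FoCard (M): the number of forests (Cayley)

Proof. Strong induction on `n = |A \ R|` (for all `A`, `R`). `n = 0`: `R = A`, `Fo A A` consists of the
identity only; both sides are `|A|`. `n ≥ 1`, `a = |A| = n + r`, `r = |R|`. For `L ⊆ A \ R`, `L ≠ ∅`, the
induction hypothesis for `A \ R`, `L` (`|(A \ R) \ L| < n`) gives
`n * |Fo (A \ R) L| = |L| * n ^ (n - |L|)`; for `L = ∅` the set `Fo (A \ R) ∅` is empty
(`A \ R ≠ ∅` and no point reaches `∅`), so the same formula holds. With `fo_rec` and `pow_sum`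
(`S = A \ R`): `n * |Fo A R| = ∑_L r ^ |L| * |L| * n ^ (n - |L|) = n * r * (r + n) ^ (n - 1)`; cancel `n`:
`|Fo A R| = r * a ^ (n - 1)`, multiply by `a`.
-/

set_option autoImplicit false

namespace Pool.Agent.Work.MP_fcea8e_co.Typ

open Finset

open Classical in
private theorem mem_fo' {V : Type} [Fintype V] {A R : Finset V} {f : V → V} :
    f ∈ Fo A R ↔ (∀ x, x ∉ A \ R → f x = x) ∧ (∀ x ∈ A, f x ∈ A) ∧
      ∀ x ∈ A, ∃ n, f^[n] x ∈ R := by
  unfold Fo
  rw [Finset.mem_filter]
  exact ⟨fun h => h.2, fun h => ⟨Finset.mem_univ _, h⟩⟩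

open Classical in
private theorem fo_empty {V : Type} [Fintype V] {A : Finset V} (h : A.Nonempty) :
    Fo A ∅ = ∅ := by
  rw [Finset.eq_empty_iff_forall_notMem]
  intro f hf
  obtain ⟨x, hx⟩ := h
  obtain ⟨n, hn⟩ := (mem_fo'.1 hf).2.2 x hx
  exact absurd hn (Finset.notMem_empty _)

open Classical in
private theorem fo_self {V : Type} [Fintype V] (A : Finset V) : Fo A A = {id} := by
  ext f
  rw [mem_fo', Finset.mem_singleton, Finset.sdiff_self]
  constructor
  · intro h
    funext x
    exact h.1 x (Finset.notMem_empty x)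
  · rintro rfl
    exact ⟨fun x _ => rfl, fun x hx => hx, fun x hx => ⟨0, hx⟩⟩

open Classical in
private theorem fo_card_aux {V : Type} [Fintype V] (n : ℕ) : ∀ (A R : Finset V), R ⊆ A →
    (A \ R).card = n → A.card * (Fo A R).card = R.card * A.card ^ n := by
  induction n using Nat.strong_induction_on with
  | _ n ih =>
    intro A R h hn
    rcases Nat.eq_zero_or_pos n with h0 | hpos
    · subst h0
      rw [Finset.card_eq_zero, Finset.sdiff_eq_empty_iff_subset] at hn
      have hAR : A = R := Finset.Subset.antisymm hn h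
      subst hAR
      rw [fo_self, Finset.card_singleton, pow_zero]
    · have hne : (A \ R).Nonempty := by
        rw [← Finset.card_pos]
        omega
      have ha : A.card = R.card + n := by
        have h1 := Finset.card_sdiff_add_card_eq_card h
        omega
      have key : ∀ L ∈ (A \ R).powerset,
          n * (R.card ^ L.card * (Fo (A \ R) L).card) =
            L.card * R.card ^ L.card * n ^ ((A \ R).card - L.card) := by
        intro L hL
        have hLs := Finset.mem_powerset.1 hL
        rcases Finset.eq_empty_or_nonempty L with h1 | h1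
        · rw [h1, fo_empty hne]
          simp
        · have h2 : ((A \ R) \ L).card = n - L.card := by
            rw [Finset.card_sdiff_of_subset hLs, hn]
          have h3 : 0 < L.card := Finset.card_pos.2 h1
          have h4 := ih (n - L.card) (by omega) (A \ R) L hLs h2
          rw [hn] at h4 ⊢
          calc n * (R.card ^ L.card * (Fo (A \ R) L).card)
              = R.card ^ L.card * (n * (Fo (A \ R) L).card) := by ring
            _ = R.card ^ L.card * (L.card * n ^ (n - L.card)) := by rw [h4]
            _ = L.card * R.card ^ L.card * n ^ (n - L.card) := by ring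
      have h5 : n * (Fo A R).card = n * (R.card * (R.card + n) ^ (n - 1)) := by
        rw [fo_rec h, Finset.mul_sum, Finset.sum_congr rfl key]
        have h6 := pow_sum (A \ R) R.card n
        rw [h6, hn]
        ring
      have h7 : (Fo A R).card = R.card * (R.card + n) ^ (n - 1) :=
        Nat.eq_of_mul_eq_mul_left hpos h5
      rw [h7, ha]
      obtain ⟨m, rfl⟩ : ∃ m, n = m + 1 := ⟨n - 1, by omega⟩
      rw [Nat.add_sub_cancel]
      ring

open Classical in
theorem fo_card {V : Type} [Fintype V] {A R : Finset V} (h : R ⊆ A) :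
    A.card * (Fo A R).card = R.card * A.card ^ (A \ R).card :=
  fo_card_aux _ A R h rfl

end Pool.Agent.Work.MP_fcea8e_co.Typ
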