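import Pool.Agent.Work.MP_fcea8e_co.Typ.Defs

/-!
# Module FoRec (M-L): the recursion for the number of forests

Proof. For `f ∈ Fo A R` put `L f = (A \ R).filter (fun x => f x ∈ R)`. Count by the value of `L f`
(`Finset.card_eq_sum_card_fiberwise` with target `(A \ R).powerset`). For `L ⊆ A \ R`, the set
`{f ∈ Fo A R | L f = L}` is in bijection with `piFinset (fun x => if x ∈ L then R else {x}) ×ˢ Fo (A \ R) L`:
`f ↦ (g, f')` with `g x = if x ∈ L then f x else x`, `f' x = if x ∈ (A \ R) \ L then f x else x`; the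
inverse map is `(g, f') ↦ (fun x => if x ∈ L then g x else f' x)` (`Finset.card_nbij'`).
`f' ∈ Fo (A \ R) L`: for `x ∈ (A \ R) \ L` we have `f x ∈ A`, `f x ∉ R`. Every `x ∈ A \ R` reaches `L`
under `f'`: let `n` be minimal with `f^[n] x ∈ R` (`n ≥ 1`); then `f^[i] x ∈ A \ R` for `i < n`,
`f^[n - 1] x ∈ L` and `f'^[i] x = f^[i] x` for `i ≤ n - 1` as long as `L` is not reached (take the
least `i` with `f^[i] x ∈ L`; before that `f'` and `f` agree). Conversely, `(g, f')` gives `f` with
`f = id` outside of `A \ R` (`f'` is the identity outside of `(A \ R) \ L`), `f` maps `A` into `A`,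
every `x ∈ A \ R` reaches `L` under `f'`, so under `f` (first visit of `L`), and then `R` in one step;
`x ∈ R` is in `R` already. `L f = L`: for `x ∈ L`, `f x = g x ∈ R`; for `x ∈ (A \ R) \ L`,
`f x = f' x ∈ A \ R`.
`card (piFinset ..) = |R| ^ |L|` (`Fintype.card_piFinset`, `Finset.prod_ite`, singletons have card `1`).
-/

set_option autoImplicit false

namespace Pool.Agent.Work.MP_fcea8e_co.Typ

open Finset

open Classical in
private theorem mem_fo {V : Type} [Fintype V] {A R : Finset V} {f : V → V} :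
    f ∈ Fo A R ↔ (∀ x, x ∉ A \ R → f x = x) ∧ (∀ x ∈ A, f x ∈ A) ∧
      ∀ x ∈ A, ∃ n, f^[n] x ∈ R := by
  unfold Fo
  rw [Finset.mem_filter]
  exact ⟨fun h => h.2, fun h => ⟨Finset.mem_univ _, h⟩⟩

open Classical in
private theorem fwd {V : Type} {A R L : Finset V} {f f' : V → V}
    (h2 : ∀ x ∈ A, f x ∈ A)
    (hL : ∀ x, x ∈ L ↔ x ∈ A \ R ∧ f x ∈ R)
    (hf' : ∀ x, x ∈ (A \ R) \ L → f' x = f x) :
    ∀ (n : ℕ) (x : V), x ∈ A \ R → f^[n] x ∈ R → ∃ m, f'^[m] x ∈ L := by
  intro n
  induction n with
  | zero =>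
    intro x hx h
    exact absurd h (Finset.mem_sdiff.1 hx).2
  | succ n ih =>
    intro x hx h
    rw [Function.iterate_succ_apply] at h
    by_cases hR : f x ∈ R
    · exact ⟨0, (hL x).2 ⟨hx, hR⟩⟩
    · have h3 : f x ∈ A \ R := Finset.mem_sdiff.2 ⟨h2 x (Finset.mem_sdiff.1 hx).1, hR⟩
      obtain ⟨m, hm⟩ := ih (f x) h3 h
      refine ⟨m + 1, ?_⟩
      rw [Function.iterate_succ_apply, hf' x (Finset.mem_sdiff.2 ⟨hx, fun h4 => hR ((hL x).1 h4).2⟩)]
      exact hm

open Classical in
private theorem bwd {V : Type} {A R L : Finset V} {f f' g : V → V}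
    (h2 : ∀ x ∈ A \ R, f' x ∈ A \ R) (hg : ∀ x ∈ L, g x ∈ R)
    (hf : ∀ x, f x = if x ∈ L then g x else f' x) :
    ∀ (n : ℕ) (x : V), x ∈ A \ R → f'^[n] x ∈ L → ∃ m, f^[m] x ∈ R := by
  intro n
  have key : ∀ x, x ∈ L → ∃ m, f^[m] x ∈ R := by
    intro x hx
    refine ⟨1, ?_⟩
    rw [Function.iterate_one, hf, if_pos hx]
    exact hg x hx
  induction n with
  | zero =>
    intro x hx h
    exact key x h
  | succ n ih =>
    intro x hx h
    by_cases hxL : x ∈ L
    · exact key x hxL
    · rw [Function.iterate_succ_apply] at h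
      obtain ⟨m, hm⟩ := ih (f' x) (h2 x hx) h
      refine ⟨m + 1, ?_⟩
      rw [Function.iterate_succ_apply, hf, if_neg hxL]
      exact hm

open Classical in
private theorem fiber {V : Type} [Fintype V] {A R L : Finset V} (h : R ⊆ A) (hLs : L ⊆ A \ R) :
    ((Fo A R).filter fun f => (A \ R).filter (fun x => f x ∈ R) = L).card =
      R.card ^ L.card * (Fo (A \ R) L).card := by
  have h1 : ((Fo A R).filter fun f => (A \ R).filter (fun x => f x ∈ R) = L).card =
      ((Fintype.piFinset fun x => if x ∈ L then R else {x}) ×ˢ Fo (A \ R) L).card := by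
    refine Finset.card_nbij'
      (fun f => ((fun x => if x ∈ L then f x else x), fun x => if x ∈ (A \ R) \ L then f x else x))
      (fun q => fun x => if x ∈ L then q.1 x else q.2 x) ?_ ?_ ?_ ?_
    · intro f hf
      rw [Finset.mem_coe, Finset.mem_filter, mem_fo] at hf
      obtain ⟨⟨f1, f2, f3⟩, f4⟩ := hf
      have hL : ∀ x, x ∈ L ↔ x ∈ A \ R ∧ f x ∈ R := by
        intro x
        rw [← f4, Finset.mem_filter]
      rw [Finset.mem_coe, Finset.mem_product, Fintype.mem_piFinset, mem_fo]
      refine ⟨fun x => ?_, fun x hx => ?_, fun x hx => ?_, fun x hx => ?_⟩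
      · change (if x ∈ L then f x else x) ∈ (if x ∈ L then R else {x})
        by_cases hx : x ∈ L
        · rw [if_pos hx, if_pos hx]
          exact ((hL x).1 hx).2
        · rw [if_neg hx, if_neg hx]
          exact Finset.mem_singleton_self x
      · exact if_neg hx
      · change (if x ∈ (A \ R) \ L then f x else x) ∈ A \ R
        by_cases hx' : x ∈ (A \ R) \ L
        · rw [if_pos hx', Finset.mem_sdiff]
          have hxA := Finset.mem_sdiff.1 hx'
          exact ⟨f2 x (Finset.mem_sdiff.1 hxA.1).1, fun hR => hxA.2 ((hL x).2 ⟨hxA.1, hR⟩)⟩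
        · rw [if_neg hx']
          exact hx
      · obtain ⟨n, hn⟩ := f3 x (Finset.mem_sdiff.1 hx).1
        exact fwd f2 hL (fun y hy => if_pos hy) n x hx hn
    · intro q hq
      rw [Finset.mem_coe, Finset.mem_product, Fintype.mem_piFinset, mem_fo] at hq
      obtain ⟨q1, q2, q3, q4⟩ := hq
      have hg : ∀ x ∈ L, q.1 x ∈ R := by
        intro x hx
        have h2 := q1 x
        rw [if_pos hx] at h2
        exact h2
      rw [Finset.mem_coe, Finset.mem_filter, mem_fo]
      refine ⟨⟨fun x hx => ?_, fun x hx => ?_, fun x hx => ?_⟩, ?_⟩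
      · change (if x ∈ L then q.1 x else q.2 x) = x
        rw [if_neg fun hxL => hx (hLs hxL)]
        exact q2 x fun hx' => hx (Finset.mem_sdiff.1 hx').1
      · change (if x ∈ L then q.1 x else q.2 x) ∈ A
        by_cases hxL : x ∈ L
        · rw [if_pos hxL]
          exact h (hg x hxL)
        · rw [if_neg hxL]
          by_cases hxR : x ∈ A \ R
          · exact (Finset.mem_sdiff.1 (q3 x hxR)).1
          · rw [q2 x fun hx' => hxR (Finset.mem_sdiff.1 hx').1]
            exact hx
      · by_cases hxR : x ∈ R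
        · exact ⟨0, hxR⟩
        · have hxA : x ∈ A \ R := Finset.mem_sdiff.2 ⟨hx, hxR⟩
          obtain ⟨n, hn⟩ := q4 x hxA
          exact bwd (g := q.1) (f' := q.2) q3 hg (fun y => rfl) n x hxA hn
      · ext x
        rw [Finset.mem_filter]
        constructor
        · rintro ⟨hx, hxR⟩
          by_contra hxL
          have hxR' : (if x ∈ L then q.1 x else q.2 x) ∈ R := hxR
          rw [if_neg hxL] at hxR'
          exact (Finset.mem_sdiff.1 (q3 x hx)).2 hxR'
        · intro hxL
          refine ⟨hLs hxL, ?_⟩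
          change (if x ∈ L then q.1 x else q.2 x) ∈ R
          rw [if_pos hxL]
          exact hg x hxL
    · intro f hf
      rw [Finset.mem_coe, Finset.mem_filter, mem_fo] at hf
      obtain ⟨⟨f1, f2, f3⟩, f4⟩ := hf
      funext x
      change (if x ∈ L then (if x ∈ L then f x else x) else
        (if x ∈ (A \ R) \ L then f x else x)) = f x
      by_cases hxL : x ∈ L
      · rw [if_pos hxL, if_pos hxL]
      · rw [if_neg hxL]
        by_cases hx : x ∈ (A \ R) \ L
        · rw [if_pos hx]
        · rw [if_neg hx]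
          refine (f1 x fun hx' => hx (Finset.mem_sdiff.2 ⟨hx', hxL⟩)).symm
    · intro q hq
      rw [Finset.mem_coe, Finset.mem_product, Fintype.mem_piFinset, mem_fo] at hq
      obtain ⟨q1, q2, q3, q4⟩ := hq
      refine Prod.ext ?_ ?_
      · funext x
        change (if x ∈ L then (if x ∈ L then q.1 x else q.2 x) else x) = q.1 x
        by_cases hxL : x ∈ L
        · rw [if_pos hxL, if_pos hxL]
        · rw [if_neg hxL]
          have h2 := q1 x
          rw [if_neg hxL, Finset.mem_singleton] at h2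
          exact h2.symm
      · funext x
        change (if x ∈ (A \ R) \ L then (if x ∈ L then q.1 x else q.2 x) else x) = q.2 x
        by_cases hx : x ∈ (A \ R) \ L
        · rw [if_pos hx, if_neg (Finset.mem_sdiff.1 hx).2]
        · rw [if_neg hx]
          exact (q2 x hx).symm
  rw [h1, Finset.card_product, Fintype.card_piFinset]
  congr 1
  have h2 : ∀ x, (if x ∈ L then R else ({x} : Finset V)).card = if x ∈ L then R.card else 1 := by
    intro x
    by_cases hx : x ∈ L
    · rw [if_pos hx, if_pos hx]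
    · rw [if_neg hx, if_neg hx, Finset.card_singleton]
  rw [Finset.prod_congr rfl fun x _ => h2 x, Finset.prod_ite_mem, Finset.univ_inter,
    Finset.prod_const]

open Classical in
theorem fo_rec {V : Type} [Fintype V] {A R : Finset V} (h : R ⊆ A) :
    (Fo A R).card = ∑ L ∈ (A \ R).powerset, R.card ^ L.card * (Fo (A \ R) L).card := by
  rw [Finset.card_eq_sum_card_fiberwise (f := fun f : V → V => (A \ R).filter (fun x => f x ∈ R))
    (s := Fo A R) (t := (A \ R).powerset)
    (fun f _ => Finset.mem_coe.2 (Finset.mem_powerset.2 (Finset.filter_subset _ _)))]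
  refine Finset.sum_congr rfl fun L hL => ?_
  exact fiber h (Finset.mem_powerset.1 hL)

end Pool.Agent.Work.MP_fcea8e_co.Typ
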