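import Pool.Agent.Work.MP_fcea8e_co.Typ.Defs

/-!
# Module MapBase (M): steps and descendants for a map

Proofs. `iter_dp`: `Nat.sInf_mem`. `dp_le`: `Nat.sInf_le`. `not_of_lt_dp`: `Nat.notMem_of_lt_sInf`.
`dp_eq`: `le_antisymm`. `path_inj`: let `d = dp f v w`; if `f^[i] w = f^[j] w` with `i < j ≤ d`, then
`f^[i + (d - j)] w = f^[j + (d - j)] w = v` (apply `f^[d - j]`, `Function.iterate_add_apply`) and
`i + (d - j) < d`, a contradiction to `not_of_lt_dp`. `iter_mem_desc`: `f^[d - i] (f^[i] w) = v`.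
`dp_lt_card`: the `d + 1` vertices `f^[i] w`, `i ≤ d`, are different and in `desc f v`
(`Finset.card_le_card_of_injOn`). `dp_iter`: `f^[d - i] (f^[i] w) = v`, and a smaller number for
`f^[i] w` would give a smaller one for `w`. `self_mem_desc`: `n = 0`. `mx_lt_card`: by `dp_lt_card`,
`|rh| ≤ dp` (a sum of `dp` terms `±1`), `Finset.sup_lt_iff` (`0 < card` as `v ∈ desc f v`).
`hgt_lt_card`, `mx_le_hgt` in the same way. `dp_self`: `f^[0] v = v`.
-/

set_option autoImplicit false

namespace Pool.Agent.Work.MP_fcea8e_co.Typ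

open Finset

variable {V : Type} [Fintype V] {f : V → V} {v w : V}

theorem mem_desc : w ∈ desc f v ↔ ∃ n, f^[n] w = v := by
  classical
  unfold desc
  simp only [mem_filter, mem_univ, true_and]

theorem self_mem_desc : v ∈ desc f v := mem_desc.2 ⟨0, rfl⟩

theorem iter_dp (h : w ∈ desc f v) : f^[dp f v w] w = v := by
  obtain ⟨n, hn⟩ := mem_desc.1 h
  exact Nat.sInf_mem (s := {n : ℕ | f^[n] w = v}) ⟨n, hn⟩

theorem dp_le {n : ℕ} (h : f^[n] w = v) : dp f v w ≤ n :=
  Nat.sInf_le (s := {n : ℕ | f^[n] w = v}) h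

theorem not_of_lt_dp {n : ℕ} (h : n < dp f v w) : f^[n] w ≠ v :=
  fun h' => absurd (dp_le h') (not_le.2 h)

theorem dp_eq {n : ℕ} (h : f^[n] w = v) (h' : ∀ i < n, f^[i] w ≠ v) : dp f v w = n := by
  refine le_antisymm (dp_le h) ?_
  by_contra hlt
  push Not at hlt
  exact h' _ hlt (iter_dp (mem_desc.2 ⟨n, h⟩))

theorem dp_self : dp f v v = 0 := Nat.le_zero.1 (dp_le rfl)

private theorem no_rep (h : w ∈ desc f v) {i j : ℕ} (hij : i < j) (hj : j ≤ dp f v w) :
    f^[i] w ≠ f^[j] w := by
  intro he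
  have h1 : f^[(dp f v w - j) + i] w = v := by
    rw [Function.iterate_add_apply, he, ← Function.iterate_add_apply, Nat.sub_add_cancel hj]
    exact iter_dp h
  exact not_of_lt_dp (by omega) h1

theorem path_inj (h : w ∈ desc f v) :
    Set.InjOn (fun i => f^[i] w) (Set.Iic (dp f v w)) := by
  intro i hi j hj hij
  rcases lt_trichotomy i j with h1 | h1 | h1
  · exact absurd hij (no_rep h h1 hj)
  · exact h1
  · exact absurd hij.symm (no_rep h h1 hi)

theorem iter_mem_desc (h : w ∈ desc f v) {i : ℕ} (hi : i ≤ dp f v w) :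
    f^[i] w ∈ desc f v := by
  refine mem_desc.2 ⟨dp f v w - i, ?_⟩
  rw [← Function.iterate_add_apply, Nat.sub_add_cancel hi]
  exact iter_dp h

theorem dp_iter (h : w ∈ desc f v) {i : ℕ} (hi : i ≤ dp f v w) :
    dp f v (f^[i] w) = dp f v w - i := by
  refine dp_eq ?_ (fun j hj => ?_)
  · rw [← Function.iterate_add_apply, Nat.sub_add_cancel hi]
    exact iter_dp h
  · rw [← Function.iterate_add_apply]
    exact not_of_lt_dp (by omega)

theorem dp_lt_card (h : w ∈ desc f v) : dp f v w < (desc f v).card := by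
  have h1 : (range (dp f v w + 1)).card ≤ (desc f v).card := by
    refine card_le_card_of_injOn (fun i => f^[i] w) (fun i hi => ?_) (fun i hi j hj hij => ?_)
    · exact iter_mem_desc h (Nat.lt_succ_iff.1 (mem_range.1 hi))
    · exact path_inj h (Nat.lt_succ_iff.1 (mem_range.1 (mem_coe.1 hi)))
        (Nat.lt_succ_iff.1 (mem_range.1 (mem_coe.1 hj))) hij
  rw [card_range] at h1
  omega

theorem abs_rh_le (e : V → Bool) : (rh f e v w).natAbs ≤ dp f v w := by
  have key : ∀ n : ℕ, (∑ i ∈ range n, sg (e (f^[i] w))).natAbs ≤ n := by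
    intro n
    induction n with
    | zero => simp
    | succ n ih =>
      rw [sum_range_succ]
      have h1 : (sg (e (f^[n] w))).natAbs = 1 := by
        unfold sg
        split <;> rfl
      have h2 := Int.natAbs_add_le (∑ i ∈ range n, sg (e (f^[i] w))) (sg (e (f^[n] w)))
      omega
  exact key _

theorem hgt_lt_card : hgt f v < (desc f v).card := by
  unfold hgt
  rw [Finset.sup_lt_iff (card_pos.2 ⟨v, self_mem_desc⟩)]
  intro w hw
  exact dp_lt_card hw

theorem mx_le_hgt (e : V → Bool) : mx f e v ≤ hgt f v := by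
  unfold mx
  refine Finset.sup_le (fun w hw => ?_)
  exact (abs_rh_le e).trans (Finset.le_sup (f := fun w => dp f v w) hw)

end Pool.Agent.Work.MP_fcea8e_co.Typ
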