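import Pool.Agent.Work.MP_fcea8e_co.Typ.PFCard
import Pool.Agent.Work.MP_fcea8e_co.Typ.MapBase

/-!
# Module TreeSum (M): sums over the vertices of all trees on `A` with root `v`

Proofs. `fo_desc`: for `f ∈ Fo A {v}`, `v ∈ A`: every `w ∈ A` reaches `v`, and for `w ∉ A`, `f w = w ≠ v`, so
`w` does not reach `v` (`Function.iterate_fixed`); hence `desc f v = A`.
`tree_sum`: for `f ∈ Fo A {v}`, `w ∈ A` and `d`: `dp f v w = d` iff `(f, w) ∈ PF A {v} v d` (`dp_eq`,
`iter_dp`, `not_of_lt_dp`), and `dp f v w < |A|` (`dp_lt_card`, `fo_desc`). So the double sum is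
`∑_{d < |A|} c ^ d |PF A {v} v d|` (sum over the fibres of `dp`, `Finset.sum_fiberwise_of_maps_to` over
the product `Fo A {v} ×ˢ A`). With `m = |A|`, `|A \ {v}| = m - 1`, `pf_card` gives
`|PF A {v} v d| = (m - 1).descFactorial d * (1 + d) * m ^ (m - 1 - d) / m` and `fo_card` gives
`|Fo A {v}| = m ^ (m - 1) / m`. So it remains to see that for `d ≤ m - 1`
`(m - 1).descFactorial d * m ^ (m - 1 - d) ≤ m ^ (m - 1) * exp (- d ^ 2 / (2 m))` (`desc_le`), i.e.
`∏_{i < d} (m - 1 - i) / m = ∏_{i = 1}^d (1 - i / m) ≤ exp (- d (d + 1) / (2 m)) ≤ exp (- d ^ 2 / (2 m))`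
(induction on `d` with `Real.add_one_le_exp (- (d + 1) / m)`; `Nat.descFactorial_succ`).
-/

set_option autoImplicit false

namespace Pool.Agent.Work.MP_fcea8e_co.Typ

open Finset

theorem fo_desc {V : Type} [Fintype V] {A : Finset V} {v : V} (hv : v ∈ A) {f : V → V}
    (hf : f ∈ Fo A {v}) : desc f v = A := by
  classical
  ext w
  rw [mem_desc]
  unfold Fo at hf
  simp only [mem_filter, mem_univ, true_and] at hf
  obtain ⟨h1, h2, h3⟩ := hf
  constructor
  · rintro ⟨n, hn⟩
    by_contra hw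
    have hfix : f w = w := h1 w (fun h => hw (mem_sdiff.1 h).1)
    rw [Function.iterate_fixed hfix] at hn
    exact hw (hn ▸ hv)
  · intro hw
    obtain ⟨n, hn⟩ := h3 w hw
    exact ⟨n, mem_singleton.1 hn⟩

theorem desc_le {m d : ℕ} (h : d < m) : (((m - 1).descFactorial d : ℕ) : ℝ) ≤
    (m : ℝ) ^ d * Real.exp (-(d : ℝ) ^ 2 / (2 * m)) := by
  have hm : (0 : ℝ) < m := by
    have : 0 < m := by omega
    exact_mod_cast this
  have key : (((m - 1).descFactorial d : ℕ) : ℝ) ≤
      (m : ℝ) ^ d * Real.exp (-((d : ℝ) * (d + 1)) / (2 * m)) := by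
    induction d with
    | zero => simp
    | succ d ih =>
      have ih' := ih (by omega)
      rw [Nat.descFactorial_succ]
      have hle : d + 1 ≤ m := by omega
      have h1 : (((m - 1 - d : ℕ)) : ℝ) = m - (d + 1) := by
        have : m - 1 - d = m - (d + 1) := by omega
        rw [this, Nat.cast_sub hle]
        push_cast
        ring
      have h2 : (m : ℝ) - (d + 1) ≤ m * Real.exp (-((d : ℝ) + 1) / m) := by
        have h3 := Real.add_one_le_exp (-((d : ℝ) + 1) / m)
        have h4 := mul_le_mul_of_nonneg_left h3 hm.le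
        have h5 : (m : ℝ) * (-((d : ℝ) + 1) / m + 1) = m - (d + 1) := by
          field_simp
          ring
        rw [h5] at h4
        exact h4
      have h0 : (0 : ℝ) ≤ (m : ℝ) - (d + 1) := by
        have : ((d + 1 : ℕ) : ℝ) ≤ m := by exact_mod_cast hle
        push_cast at this
        linarith
      push_cast
      rw [h1]
      calc ((m : ℝ) - (d + 1)) * (((m - 1).descFactorial d : ℕ) : ℝ)
          ≤ (m * Real.exp (-((d : ℝ) + 1) / m)) *
            ((m : ℝ) ^ d * Real.exp (-((d : ℝ) * (d + 1)) / (2 * m))) := by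
            refine mul_le_mul h2 ih' (Nat.cast_nonneg _) (by positivity)
        _ = (m : ℝ) ^ (d + 1) * (Real.exp (-((d : ℝ) + 1) / m) *
            Real.exp (-((d : ℝ) * (d + 1)) / (2 * m))) := by ring
        _ = (m : ℝ) ^ (d + 1) * Real.exp (-(((d : ℝ) + 1) * ((d : ℝ) + 1 + 1)) / (2 * m)) := by
            rw [← Real.exp_add]
            congr 2
            field_simp
            ring
  refine key.trans ?_
  refine mul_le_mul_of_nonneg_left (Real.exp_le_exp.2 ?_) (by positivity)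
  rw [div_le_div_iff_of_pos_right (by positivity)]
  nlinarith [(Nat.cast_nonneg d : (0 : ℝ) ≤ d)]

theorem tree_sum {V : Type} [Fintype V] {A : Finset V} {v : V} (hv : v ∈ A) {c : ℝ}
    (hc : 0 ≤ c) : ∑ f ∈ Fo A {v}, ∑ w ∈ A, c ^ dp f v w ≤
      (Fo A {v}).card * ∑ d ∈ range A.card,
        ((d : ℝ) + 1) * c ^ d * Real.exp (-(d : ℝ) ^ 2 / (2 * A.card)) := by
  classical
  have hA : 0 < A.card := card_pos.2 ⟨v, hv⟩
  have hAr : (0 : ℝ) < A.card := by exact_mod_cast hA
  have hsub : ({v} : Finset V) ⊆ A := singleton_subset_iff.2 hv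
  have hcd : (A \ {v}).card = A.card - 1 := by
    rw [card_sdiff_of_subset hsub, card_singleton]
  have hmaps : ∀ q ∈ Fo A {v} ×ˢ A, dp q.1 v q.2 ∈ range A.card := by
    intro q hq
    rw [mem_product] at hq
    have hd := fo_desc hv hq.1
    have h1 : q.2 ∈ desc q.1 v := by rw [hd]; exact hq.2
    rw [mem_range, ← hd]
    have h2 := dp_lt_card h1
    exact h2
  rw [← sum_product', ← sum_fiberwise_of_maps_to hmaps, mul_sum]
  refine sum_le_sum (fun d hd => ?_)
  rw [mem_range] at hd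
  have hfib : (Fo A {v} ×ˢ A).filter (fun q => dp q.1 v q.2 = d) = PF A {v} v d := by
    unfold PF
    refine filter_congr (fun q hq => ?_)
    rw [mem_product] at hq
    have hdd := fo_desc hv hq.1
    have h1 : q.2 ∈ desc q.1 v := by rw [hdd]; exact hq.2
    constructor
    · intro h2
      refine ⟨by rw [← h2]; exact iter_dp h1, fun i hi => ?_⟩
      rw [mem_singleton]
      exact not_of_lt_dp (by omega)
    · rintro ⟨h2, h3⟩
      exact dp_eq h2 (fun i hi => fun h4 => h3 i hi (mem_singleton.2 h4))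
  have hs : ∑ q ∈ (Fo A {v} ×ˢ A).filter (fun q => dp q.1 v q.2 = d), c ^ dp q.1 v q.2 =
      ((PF A {v} v d).card : ℝ) * c ^ d := by
    rw [sum_congr rfl (g := fun _ => c ^ d) (fun q hq => by rw [(mem_filter.1 hq).2]), hfib,
      sum_const, nsmul_eq_mul]
  rw [hs]
  have hpf := pf_card hsub (mem_singleton_self v) d
  have hfo := fo_card hsub
  rw [hcd, card_singleton] at hpf hfo
  have hpf' : (A.card : ℝ) * (PF A {v} v d).card =
      (((A.card - 1).descFactorial d : ℕ) : ℝ) * (1 + d) * (A.card : ℝ) ^ (A.card - 1 - d) := by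
    exact_mod_cast hpf
  have hfo' : (A.card : ℝ) * (Fo A {v}).card = (A.card : ℝ) ^ (A.card - 1) := by
    have := hfo
    rw [one_mul] at this
    exact_mod_cast this
  have hdl := desc_le hd
  have hpow : (A.card : ℝ) ^ (A.card - 1) = (A.card : ℝ) ^ d * (A.card : ℝ) ^ (A.card - 1 - d) := by
    rw [← pow_add]
    congr 1
    omega
  have hmain : ((PF A {v} v d).card : ℝ) ≤ (Fo A {v}).card *
      (((d : ℝ) + 1) * Real.exp (-(d : ℝ) ^ 2 / (2 * A.card))) := by
    refine le_of_mul_le_mul_left ?_ hAr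
    rw [hpf', ← mul_assoc, hfo', hpow]
    calc (((A.card - 1).descFactorial d : ℕ) : ℝ) * (1 + d) * (A.card : ℝ) ^ (A.card - 1 - d)
        ≤ ((A.card : ℝ) ^ d * Real.exp (-(d : ℝ) ^ 2 / (2 * A.card))) * (1 + d) *
          (A.card : ℝ) ^ (A.card - 1 - d) := by
          gcongr
      _ = (A.card : ℝ) ^ d * (A.card : ℝ) ^ (A.card - 1 - d) *
          (((d : ℝ) + 1) * Real.exp (-(d : ℝ) ^ 2 / (2 * A.card))) := by ring
  calc ((PF A {v} v d).card : ℝ) * c ^ d ≤ ((Fo A {v}).card *
      (((d : ℝ) + 1) * Real.exp (-(d : ℝ) ^ 2 / (2 * A.card)))) * c ^ d :=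
        mul_le_mul_of_nonneg_right hmain (pow_nonneg hc d)
    _ = _ := by ring

end Pool.Agent.Work.MP_fcea8e_co.Typ
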