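import Pool.Agent.Work.MP_fcea8e_co.Typ.Local
import Pool.Agent.Work.MP_fcea8e_co.Typ.TreeSum

/-!
# Module GlueMap (M): gluing in the model of all maps

Proof. Let `v ∈ A`, `F = univ`. For `f` with `desc f v = A` let `r f = (fun x => if x ∈ A \ {v} then f x else x)`,
in `Fo A {v}` by `res_fo`. `G f = G (r f)` by `Loc` (`desc (r f) v = A` by `fo_desc`). So the sum is
`∑_{g ∈ Fo A {v}} |{f | desc f v = A, r f = g}| * G g` (`Finset.sum_fiberwise_of_maps_to`), and since
`G ≥ 0` it suffices that the number of `f` with `desc f v = A` and `r f = g` is at most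
`|V| * |V \ A| ^ |V \ A|`: such an `f` is in
`Fintype.piFinset (fun x => if x = v then univ else if x ∈ A then {g x} else Aᶜ)`
(`out_desc` for `x ∉ A`), which has `|V| * |Aᶜ| ^ |Aᶜ|` elements (`Fintype.card_piFinset`; split the
product into `x = v`, `x ∈ A \ {v}`, `x ∈ Aᶜ`; `Finset.prod_ite`, `Finset.prod_const`).
-/

set_option autoImplicit false

namespace Pool.Agent.Work.MP_fcea8e_co.Typ

open Finset

open Classical in
private theorem card_ext' {V : Type} [Fintype V] {A : Finset V} {v : V} (hv : v ∈ A)
    (g : V → V) :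
    ((univ : Finset (V → V)).filter (fun f => desc f v = A ∧
      (fun x => if x ∈ A \ {v} then f x else x) = g)).card ≤
      Fintype.card V * Aᶜ.card ^ Aᶜ.card := by
  have hsub : (univ : Finset (V → V)).filter (fun f => desc f v = A ∧
      (fun x => if x ∈ A \ {v} then f x else x) = g) ⊆
      Fintype.piFinset (fun x => if x = v then univ else if x ∈ A then {g x} else Aᶜ) := by
    intro f hf
    obtain ⟨_, h1, h2⟩ := mem_filter.1 hf
    refine Fintype.mem_piFinset.2 (fun x => ?_)
    by_cases hx : x = v
    · rw [if_pos hx]; exact mem_univ _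
    rw [if_neg hx]
    by_cases hA : x ∈ A
    · rw [if_pos hA, mem_singleton, ← h2]
      simp only
      rw [if_pos (mem_sdiff.2 ⟨hA, by simpa using hx⟩)]
    · rw [if_neg hA, mem_compl, ← h1]
      exact out_desc (h1 ▸ hA)
  refine (card_le_card hsub).trans (le_of_eq ?_)
  rw [Fintype.card_piFinset]
  have hcard : ∀ x : V, (if x = v then (univ : Finset V) else if x ∈ A then {g x} else Aᶜ).card =
      (if x = v then Fintype.card V else 1) * (if x ∈ Aᶜ then Aᶜ.card else 1) := by
    intro x
    by_cases hx : x = v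
    · subst hx
      simp [hv]
    · by_cases hA : x ∈ A
      · simp [hx, hA]
      · simp [hx, hA]
  rw [Finset.prod_congr rfl (fun x _ => hcard x), Finset.prod_mul_distrib,
    Finset.prod_ite_eq', if_pos (mem_univ _), Finset.prod_ite_mem, Finset.univ_inter,
    Finset.prod_const]

open Classical in
theorem glue_map (V : Type) [Fintype V] :
    Glue (univ : Finset (V → V)) (Fintype.card V) := by
  intro A v hv G hG hL
  have hr : ∀ f ∈ (univ : Finset (V → V)).filter (fun f => desc f v = A),
      (fun x => if x ∈ A \ {v} then f x else x) ∈ Fo A {v} := by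
    intro f hf
    have h1 := (mem_filter.1 hf).2
    have h2 := res_fo f v
    rwa [h1] at h2
  have hGr : ∀ f ∈ (univ : Finset (V → V)).filter (fun f => desc f v = A),
      G f = G (fun x => if x ∈ A \ {v} then f x else x) := by
    intro f hf
    refine hL _ _ (fun x hx hxv => ?_) (mem_filter.1 hf).2 (fo_desc hv (hr f hf))
    rw [if_pos (mem_sdiff.2 ⟨hx, by simpa using hxv⟩)]
  rw [← Finset.sum_fiberwise_of_maps_to hr, Finset.mul_sum]
  refine Finset.sum_le_sum (fun g _ => ?_)
  rw [Finset.filter_filter]
  have h3 : ∀ f ∈ (univ : Finset (V → V)).filter (fun f => desc f v = A ∧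
      (fun x => if x ∈ A \ {v} then f x else x) = g), G f = G g := by
    intro f hf
    obtain ⟨_, h1, h2⟩ := mem_filter.1 hf
    rw [hGr f (mem_filter.2 ⟨mem_univ _, h1⟩), h2]
  rw [Finset.sum_congr rfl h3, Finset.sum_const, nsmul_eq_mul]
  refine mul_le_mul_of_nonneg_right ?_ (hG g)
  exact_mod_cast card_ext' hv g

end Pool.Agent.Work.MP_fcea8e_co.Typ
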