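import Pool.Agent.Work.MP_fcea8e_co.Typ.Local
import Pool.Agent.Work.MP_fcea8e_co.Typ.TreeSum

/-!
# Module GlueTree (M-L): gluing in the model of rooted trees

Proof. As in the model of all maps: let `v ∈ A`; for `f ∈ TM V` with `desc f v = A` let
`r f = (fun x => if x ∈ A \ {v} then f x else x) ∈ Fo A {v}` (`res_fo`), `G f = G (r f)` by `Loc`, and it
suffices that for `g ∈ Fo A {v}` the number of `f ∈ TM V` with `desc f v = A`, `r f = g` is at most
`|V \ A| ^ |V \ A|`. Case `A = univ`: `v` is the root of `f`: the root `r₀` of `f` (`f r₀ = r₀`) is in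
`desc f v = univ`, so `v = r₀` (`Function.iterate_fixed`) and `f v = v`, so `f = r f = g`: at most `1 = 0 ^ 0`.
Case `A ≠ univ`, `B = Aᶜ`, `b = |B| ≥ 1`: the root `r₀` of `f` is not in `A`: otherwise `v = r₀` is the root and
`desc f v = univ`. `f v ∉ A`: otherwise all `f^[n] v ∈ A` (for `x ∈ A`, `x ≠ v`, `f x ∈ A`), but `v` reaches
`r₀ ∉ A`. `f` maps `B` into `B` (`out_desc`) and every `x ∈ B` reaches `r₀`. So the map
`f ↦ (f v, r₀, fun x => if x ∈ B \ {r₀} then f x else x)` goes into `B × {(r₀, f') | r₀ ∈ B, f' ∈ Fo B {r₀}}`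
and is injective on these `f` (`f` is determined by `g` on `A \ {v}`, by its value at `v`, by `f'` on
`B \ {r₀}` and by `f r₀ = r₀`). The number of pairs `(r₀, f')` is `∑_{r₀ ∈ B} |Fo B {r₀}|` and
`b |Fo B {r₀}| = b ^ (b - 1)` by `fo_card` (`|B \ {r₀}| = b - 1`); so the sum is `b ^ (b - 1)` and the product with
`b` is `b ^ b`.
-/

set_option autoImplicit false

namespace Pool.Agent.Work.MP_fcea8e_co.Typ

open Finset

variable {V : Type} [Fintype V]

open Classical in
private noncomputable def glRes (B : Finset V) (r : V) (f : V → V) : V → V :=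
  fun x => if x ∈ B \ {r} then f x else x

private theorem gl_reach {B : Finset V} {f : V → V} {r : V} (hB : ∀ x ∈ B, f x ∈ B) :
    ∀ (n : ℕ) (x : V), x ∈ B → f^[n] x = r → ∃ m, (glRes B r f)^[m] x = r := by
  intro n
  induction n with
  | zero => exact fun x _ h => ⟨0, h⟩
  | succ n ih =>
    intro x hx h
    by_cases hxr : x = r
    · exact ⟨0, hxr⟩
    · rw [Function.iterate_succ_apply] at h
      obtain ⟨m, hm⟩ := ih (f x) (hB x hx) h
      refine ⟨m + 1, ?_⟩
      have h1 : glRes B r f x = f x := by
        simp [glRes, hx, hxr]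
      rw [Function.iterate_succ_apply, h1, hm]

private theorem gl_fo {B : Finset V} {f : V → V} {r : V} (hr : r ∈ B) (hB : ∀ x ∈ B, f x ∈ B)
    (h : ∀ x, ∃ n, f^[n] x = r) : glRes B r f ∈ Fo B {r} := by
  classical
  unfold Fo
  rw [mem_filter]
  refine ⟨mem_univ _, ?_, ?_, ?_⟩
  · intro x hx
    unfold glRes
    rw [if_neg]
    intro h1
    apply hx
    rw [mem_sdiff, mem_singleton] at h1 ⊢
    exact h1
  · intro x hx
    unfold glRes
    by_cases hx' : x ∈ B \ {r}
    · rw [if_pos hx']
      exact hB x hx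
    · rw [if_neg hx']
      exact hx
  · intro x hx
    obtain ⟨n, hn⟩ := h x
    obtain ⟨m, hm⟩ := gl_reach hB n x hx hn
    exact ⟨m, by rw [hm]; exact mem_singleton_self r⟩

private theorem gl_root {f : V → V} {v r : V} (hr : f r = r) (h : r ∈ desc f v) : v = r := by
  obtain ⟨n, hn⟩ := mem_desc.1 h
  rw [Function.iterate_fixed hr] at hn
  exact hn.symm

private theorem gl_in {f : V → V} {v x : V} (hx : x ∈ desc f v) (hxv : x ≠ v) :
    f x ∈ desc f v := by
  obtain ⟨n, hn⟩ := mem_desc.1 hx
  cases n with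
  | zero => exact absurd hn hxv
  | succ n =>
    rw [Function.iterate_succ_apply] at hn
    exact mem_desc.2 ⟨n, hn⟩

private theorem gl_univ {f : V → V} {v : V} (h : ∀ x, ∃ n, f^[n] x = v) (x : V) :
    x ∈ desc f v := mem_desc.2 (h x)

private theorem gl_fv {f : V → V} {v r : V} (hr : f r = r) (h : ∀ x, ∃ n, f^[n] x = r)
    (hrv : r ∉ desc f v) : f v ∉ desc f v := by
  intro hfv
  have h1 : ∀ x ∈ desc f v, f x ∈ desc f v := by
    intro x hx
    by_cases hxv : x = v
    · rw [hxv]
      exact hfv
    · exact gl_in hx hxv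
  have h2 : ∀ n, f^[n] v ∈ desc f v := by
    intro n
    induction n with
    | zero => exact self_mem_desc
    | succ n ih =>
      rw [Function.iterate_succ_apply']
      exact h1 _ ih
  obtain ⟨n, hn⟩ := h v
  apply hrv
  rw [← hn]
  exact h2 n

open Classical in
private noncomputable def glRoot (f : V → V) (v : V) : V :=
  if h : ∃ r, f r = r ∧ ∀ x, ∃ n, f^[n] x = r then h.choose else v

private theorem gl_root_spec {f : V → V} (v : V) (hf : f ∈ TM V) :
    f (glRoot f v) = glRoot f v ∧ ∀ x, ∃ n, f^[n] x = glRoot f v := by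
  classical
  unfold TM at hf
  rw [mem_filter] at hf
  unfold glRoot
  rw [dif_pos hf.2]
  exact hf.2.choose_spec

open Classical in
private theorem gl_card (B : Finset V) (hB : B.Nonempty) :
    (B ×ˢ (B.sigma fun r => Fo B {r})).card = B.card ^ B.card := by
  rw [card_product, card_sigma, mul_sum]
  have h1 : ∀ r ∈ B, B.card * (Fo B {r}).card = B.card ^ (B.card - 1) := by
    intro r hr
    have h2 := fo_card (singleton_subset_iff.2 hr : ({r} : Finset V) ⊆ B)
    rw [card_singleton, one_mul, card_sdiff_of_subset (singleton_subset_iff.2 hr),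
      card_singleton] at h2
    exact h2
  rw [sum_congr rfl h1, sum_const, smul_eq_mul, ← pow_succ']
  congr 1
  have := hB.card_pos
  omega

open Classical in
private theorem gl_fib (A : Finset V) (v : V) (g : V → V) :
    (((TM V).filter (fun f => desc f v = A)).filter (fun f => glRes A v f = g)).card ≤
      Aᶜ.card ^ Aᶜ.card := by
  by_cases hA : A = univ
  · have h1 : Aᶜ.card ^ Aᶜ.card = 1 := by
      rw [hA]
      simp
    rw [h1]
    refine le_trans (card_le_card (t := {g}) ?_) (le_of_eq (card_singleton g))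
    intro f hf
    rw [mem_filter, mem_filter] at hf
    obtain ⟨⟨hT, hd⟩, hg⟩ := hf
    obtain ⟨r1, r2⟩ := gl_root_spec v hT
    have hv : v = glRoot f v := by
      refine gl_root r1 ?_
      rw [hd, hA]
      exact mem_univ _
    have hfv : f v = v := by
      rw [← hv] at r1
      exact r1
    rw [mem_singleton, ← hg]
    funext x
    unfold glRes
    by_cases hx : x = v
    · subst hx
      rw [if_neg (by simp)]
      exact hfv
    · rw [if_pos (by simp [hA, hx])]
  · have hroot : ∀ f ∈ TM V, desc f v = A → glRoot f v ∈ Aᶜ := by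
      intro f hT hd
      obtain ⟨r1, r2⟩ := gl_root_spec v hT
      rw [mem_compl]
      intro hr
      rw [← hd] at hr
      have hv := gl_root r1 hr
      apply hA
      rw [← hd, eq_univ_iff_forall]
      intro x
      apply gl_univ
      intro y
      obtain ⟨n, hn⟩ := r2 y
      exact ⟨n, by rw [hn]; exact hv.symm⟩
    have hne : (Aᶜ).Nonempty := by
      rw [nonempty_iff_ne_empty]
      intro h
      apply hA
      rwa [compl_eq_empty_iff] at h
    rw [← gl_card Aᶜ hne]
    refine card_le_card_of_injOn (fun f => (f v, ⟨glRoot f v, glRes Aᶜ (glRoot f v) f⟩)) ?_ ?_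
    · intro f hf
      rw [mem_coe, mem_filter, mem_filter] at hf
      obtain ⟨⟨hT, hd⟩, hg⟩ := hf
      obtain ⟨r1, r2⟩ := gl_root_spec v hT
      have hr := hroot f hT hd
      rw [mem_coe, mem_product, mem_sigma]
      refine ⟨?_, hr, ?_⟩
      · rw [mem_compl, ← hd]
        refine gl_fv r1 r2 ?_
        rw [hd]
        exact mem_compl.1 hr
      · refine gl_fo hr ?_ r2
        intro x hx
        rw [mem_compl, ← hd] at hx ⊢
        exact out_desc hx
    · intro f hf f' hf' h
      rw [mem_coe, mem_filter, mem_filter] at hf hf'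
      obtain ⟨⟨hT, hd⟩, hg⟩ := hf
      obtain ⟨⟨hT', hd'⟩, hg'⟩ := hf'
      obtain ⟨r1, r2⟩ := gl_root_spec v hT
      obtain ⟨r1', r2'⟩ := gl_root_spec v hT'
      simp only [Prod.mk.injEq, Sigma.mk.injEq, heq_eq_eq] at h
      obtain ⟨h1, h2, h3⟩ := h
      rw [← h2] at h3 r1' r2'
      funext x
      by_cases hxv : x = v
      · rw [hxv]
        exact h1
      by_cases hxA : x ∈ A
      · have h4 : glRes A v f x = glRes A v f' x := by rw [hg, hg']
        unfold glRes at h4
        rw [if_pos (by simp [hxA, hxv]), if_pos (by simp [hxA, hxv])] at h4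
        exact h4
      by_cases hxr : x = glRoot f v
      · rw [hxr, r1, r1']
      · have h4 := congrFun h3 x
        unfold glRes at h4
        rw [if_pos (by simp [hxA, hxr]), if_pos (by simp [hxA, hxr])] at h4
        exact h4

open Classical in
theorem glue_tree (V : Type) [Fintype V] : Glue (TM V) 1 := by
  intro A v hv G hG hL
  have hres : ∀ f : V → V, desc f v = A → glRes A v f ∈ Fo A {v} := by
    intro f hd
    have h := res_fo f v
    rw [hd] at h
    exact h
  have hGr : ∀ f : V → V, desc f v = A → G f = G (glRes A v f) := by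
    intro f hd
    refine hL f _ ?_ hd (fo_desc hv (hres f hd))
    intro x hx hxv
    unfold glRes
    rw [if_pos (by simp [hx, hxv])]
  calc ∑ f ∈ (TM V).filter (fun f => desc f v = A), G f
      = ∑ f ∈ (TM V).filter (fun f => desc f v = A), G (glRes A v f) := by
        refine sum_congr rfl fun f hf => hGr f (mem_filter.1 hf).2
    _ = ∑ g ∈ Fo A {v}, ∑ f ∈ ((TM V).filter (fun f => desc f v = A)).filter
          (fun f => glRes A v f = g), G (glRes A v f) := by
        refine (sum_fiberwise_of_maps_to ?_ _).symm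
        intro f hf
        exact hres f (mem_filter.1 hf).2
    _ = ∑ g ∈ Fo A {v}, ((((TM V).filter (fun f => desc f v = A)).filter
          (fun f => glRes A v f = g)).card : ℝ) * G g := by
        refine sum_congr rfl fun g _ => ?_
        rw [sum_congr rfl (g := fun _ => G g), sum_const, nsmul_eq_mul]
        intro f hf
        rw [(mem_filter.1 hf).2]
    _ ≤ ∑ g ∈ Fo A {v}, ((Aᶜ.card : ℝ) ^ Aᶜ.card) * G g := by
        refine sum_le_sum fun g _ => mul_le_mul_of_nonneg_right ?_ (hG g)
        have h := gl_fib A v g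
        exact_mod_cast h
    _ = 1 * (Aᶜ.card : ℝ) ^ Aᶜ.card * ∑ f ∈ Fo A {v}, G f := by
        rw [one_mul, mul_sum]

end Pool.Agent.Work.MP_fcea8e_co.Typ
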