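import Pool.Agent.Work.MP_fcea8e_co.Typ.TrCount

/-!
# Module HCount (M): from rooted trees to undirected trees

`Gr f` is the underlying graph of the rooted tree with parent function `f`.
Proofs. `gr_tr`: both sides say `a ≠ b ∧ (f a = b ∨ f b = a)` (cases on `e a`, `e b`).
`gr_inj`: choose `e' x = true` iff `(Tr f (fun _ => true)).Adj (f' x) x` for `x ≠ r` and `e' r = true`; then
`Tr f' e' = Tr f (fun _ => true)` (two oriented graphs with the same underlying graph, for every
`x ≠ r` the edge `{x, f' x}` has the same direction; all edges are of this form), and `tr_inj` gives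
`f = f'`. Or copy the first half of the proof of `tr_inj`, which only uses the underlying graph.
`gr_surj`: take any orientation `T` of `G` (for example `T.Adj a b` iff `G.Adj a b ∧ φ a < φ b` with an
injection `φ : V → ℕ`), `tr_surj` and `gr_tr`.
`gr_count`: the map `f ↦ (Gr f, root of f)` is a bijection from `{f // f ∈ TM V ∧ P (Gr f)}` onto
`{G // G.IsTree ∧ P G} × V` (`tr_isTree` and `gr_tr` for `IsTree`; `gr_inj`, `gr_surj`; the root is unique,
`root_unique`); `Nat.card_congr`, `Nat.card_prod`.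
-/

set_option autoImplicit false

namespace Pool.Agent.Work.MP_fcea8e_co.Typ

open Finset Pool.Agent.Work.MP_fcea8e_co.Dom

/-- the underlying graph of a rooted tree -/
def Gr {V : Type} (f : V → V) : SimpleGraph V := SimpleGraph.fromRel (fun a b => f b = a)

variable {V : Type} [Fintype V]

private theorem gr_adj {f : V → V} {a b : V} : (Gr f).Adj a b ↔ a ≠ b ∧ (f b = a ∨ f a = b) := by
  unfold Gr
  rw [SimpleGraph.fromRel_adj]

theorem gr_tr (f : V → V) (e : V → Bool) : SimpleGraph.fromRel (Tr f e).Adj = Gr f := by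
  ext a b
  rw [SimpleGraph.fromRel_adj, gr_adj]
  unfold Tr
  dsimp only
  constructor
  · rintro ⟨h0, ((⟨h1, h2, h3⟩ | ⟨h1, h2, h3⟩) | (⟨h1, h2, h3⟩ | ⟨h1, h2, h3⟩))⟩
    · exact ⟨h0, Or.inl h2⟩
    · exact ⟨h0, Or.inr h2⟩
    · exact ⟨h0, Or.inr h2⟩
    · exact ⟨h0, Or.inl h2⟩
  · rintro ⟨h1, h2 | h2⟩
    · cases he : e b with
      | true => exact ⟨h1, Or.inl (Or.inl ⟨h1, h2, rfl⟩)⟩
      | false => exact ⟨h1, Or.inr (Or.inr ⟨fun h => h1 h.symm, h2, rfl⟩)⟩
    · cases he : e a with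
      | true => exact ⟨h1, Or.inr (Or.inl ⟨fun h => h1 h.symm, h2, rfl⟩)⟩
      | false => exact ⟨h1, Or.inl (Or.inr ⟨h1, h2, rfl⟩)⟩

private theorem gr_no2 {f : V → V} {r : V} (hr : f r = r) (h : ∀ x, ∃ n, f^[n] x = r) {x : V}
    (hx : f (f x) = x) : x = r := by
  by_contra hxr
  have h1 := dp_step hr h hxr
  by_cases hfx : f x = r
  · rw [hfx, hr] at hx
    exact hxr hx.symm
  · have h2 := dp_step hr h hfx
    rw [hx] at h2
    omega

private theorem gr_mem {f : V → V} : f ∈ TM V ↔ ∃ r, f r = r ∧ ∀ x, ∃ n, f^[n] x = r := by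
  classical
  unfold TM
  rw [mem_filter]
  exact ⟨fun h => h.2, fun h => ⟨mem_univ _, h⟩⟩

theorem gr_inj {f f' : V → V} {r : V} (hr : f r = r) (hr' : f' r = r)
    (h : ∀ x, ∃ n, f^[n] x = r) (h' : ∀ x, ∃ n, f'^[n] x = r) (hG : Gr f = Gr f') :
    f = f' := by
  have key : ∀ (n : ℕ) (x : V), dp f r x = n → f x = f' x := by
    intro n
    induction n using Nat.strong_induction_on with
    | _ n ih =>
      intro x hn
      by_cases hxr : x = r
      · rw [hxr, hr, hr']
      · have hne : x ≠ f x := fun hx => hxr (root_unique hr h hx.symm)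
        have h1 : (Gr f).Adj x (f x) := gr_adj.2 ⟨hne, Or.inr rfl⟩
        rw [hG] at h1
        rcases (gr_adj.1 h1).2 with h2 | h2
        · have h3 := dp_step hr h hxr
          have h4 := ih (dp f r (f x)) (by omega) (f x) rfl
          rw [h2] at h4
          exact absurd (gr_no2 hr h h4) hxr
        · exact h2.symm
  funext x
  exact key _ x rfl

theorem gr_surj (G : SimpleGraph V) (hG : G.IsTree) (r : V) :
    ∃ f : V → V, f r = r ∧ (∀ x, ∃ n, f^[n] x = r) ∧ Gr f = G := by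
  classical
  obtain ⟨φ⟩ : Nonempty (V ≃ Fin (Fintype.card V)) := ⟨Fintype.equivFin V⟩
  obtain ⟨T, hT⟩ : ∃ T : Digraph V, ∀ a b, T.Adj a b ↔ (G.Adj a b ∧ φ a < φ b) :=
    ⟨⟨fun a b => G.Adj a b ∧ φ a < φ b⟩, fun _ _ => Iff.rfl⟩
  have ho : Oriented T := by
    intro a b h1 h2
    exact lt_asymm ((hT a b).1 h1).2 ((hT b a).1 h2).2
  have hTG : SimpleGraph.fromRel T.Adj = G := by
    ext a b
    rw [SimpleGraph.fromRel_adj, hT, hT]
    constructor
    · rintro ⟨_, h | h⟩
      · exact h.1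
      · exact h.1.symm
    · intro h
      refine ⟨h.ne, ?_⟩
      rcases lt_or_gt_of_ne (fun h' => h.ne (φ.injective h')) with h1 | h1
      · exact Or.inl ⟨h, h1⟩
      · exact Or.inr ⟨h.symm, h1⟩
  obtain ⟨f, e, h1, h2, -, h4⟩ := tr_surj T ho (by rw [hTG]; exact hG) r true
  exact ⟨f, h1, h2, by rw [← gr_tr f e, h4, hTG]⟩

theorem gr_count (P : SimpleGraph V → Prop) :
    Nat.card {f : V → V // f ∈ TM V ∧ P (Gr f)} =
      Fintype.card V * Nat.card {G : SimpleGraph V // G.IsTree ∧ P G} := by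
  classical
  have hroot : ∀ q : {f : V → V // f ∈ TM V ∧ P (Gr f)},
      ∃ r, q.1 r = r ∧ ∀ x, ∃ n, q.1^[n] x = r := fun q => gr_mem.1 q.2.1
  choose rt hrt1 hrt2 using hroot
  have htree : ∀ q : {f : V → V // f ∈ TM V ∧ P (Gr f)}, (Gr q.1).IsTree := by
    intro q
    rw [← gr_tr q.1 (fun _ => true)]
    exact tr_isTree q.2.1 _
  let Φ : {f : V → V // f ∈ TM V ∧ P (Gr f)} → V × {G : SimpleGraph V // G.IsTree ∧ P G} :=
    fun q => (rt q, ⟨Gr q.1, htree q, q.2.2⟩)
  have hbij : Function.Bijective Φ := by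
    constructor
    · intro q q' h
      have h1 : Gr q.1 = Gr q'.1 := congrArg (fun z => z.2.1) h
      have h2 : rt q = rt q' := congrArg (fun z => z.1) h
      have h4 := hrt1 q'
      have h5 := hrt2 q'
      rw [← h2] at h4 h5
      exact Subtype.ext (gr_inj (hrt1 q) h4 (hrt2 q) h5 h1)
    · rintro ⟨r, ⟨G, hG1, hG2⟩⟩
      obtain ⟨f, h1, h2, h3⟩ := gr_surj G hG1 r
      obtain ⟨q, hq⟩ : ∃ q : {f : V → V // f ∈ TM V ∧ P (Gr f)}, q.1 = f :=
        ⟨⟨f, gr_mem.2 ⟨r, h1, h2⟩, by rw [h3]; exact hG2⟩, rfl⟩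
      have h6 := hrt1 q
      have h5 : rt q = r := by
        rw [hq] at h6
        exact root_unique h1 h2 h6
      refine ⟨q, Prod.ext h5 (Subtype.ext ?_)⟩
      change Gr q.1 = G
      rw [hq]
      exact h3
  rw [Nat.card_congr (Equiv.ofBijective Φ hbij), Nat.card_prod,
    Nat.card_eq_fintype_card (α := V)]

end Pool.Agent.Work.MP_fcea8e_co.Typ
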