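import Pool.Agent.Work.MP_fcea8e_co.Typ.HTail
import Pool.Agent.Work.MP_fcea8e_co.Typ.HCount
import Pool.Agent.Work.MP_fcea8e_co.Typ.TrBound

/-!
# Module HFinal (M): all orientations of almost all trees

Proof. Let `V = Fin k`, `P G` the property that there is an orientation `T` of `G` with
`k (log k) ^ 2 < cNum T`. Let `f ∈ TM V` with `P (Gr f)`, `r` the root of `f`, `T` the orientation. `T` is an
oriented tree (its underlying graph is `Gr f`, a tree by `gr_tr` and `tr_isTree`); by `tr_surj` there are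
`f', e` with root `r` and `Tr f' e = T`; `Gr f' = fromRel T.Adj = Gr f` (`gr_tr`), so `f' = f` (`gr_inj`).
`tr_bound` and `mx_le_hgt`: `cNum T ≤ 1 + 8 k + 64 ∑_v hgt f v`. So
`64 ∑ hgt > k (log k) ^ 2 - 8 k - 1 ≥ 64 k (log k) ^ 2 / 100` if `(log k) ^ 2 ≥ 25` (then
`0.36 k (log k) ^ 2 ≥ 9 k ≥ 8 k + 1`), i.e. for large `k`. Hence with `gr_count` (for `P` and for
`fun _ => True`) and `hgt_tail`: `k |{G | IsTree, P}| ≤ ε |TM| = ε k |{G | IsTree}|`.
-/

set_option autoImplicit false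

namespace Pool.Agent.Work.MP_fcea8e_co.Typ

open Finset Pool.Agent.Work.MP_fcea8e_co.Dom

private theorem hf_mem_tm {V : Type} [Fintype V] {f : V → V} :
    f ∈ TM V ↔ ∃ r, f r = r ∧ ∀ x, ∃ n, f^[n] x = r := by
  classical
  unfold TM
  simp only [mem_filter, mem_univ, true_and]

theorem all_orient {ε : ℝ} (hε : 0 < ε) : ∃ k₀ : ℕ, ∀ k : ℕ, k₀ ≤ k →
    (Nat.card {G : SimpleGraph (Fin k) // G.IsTree ∧ ∃ T : Digraph (Fin k), Oriented T ∧
      SimpleGraph.fromRel T.Adj = G ∧ (k : ℝ) * Real.log k ^ 2 < cNum T} : ℝ) ≤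
      ε * Nat.card {G : SimpleGraph (Fin k) // G.IsTree} := by
  classical
  obtain ⟨k₀, h₀⟩ := hgt_tail hε
  obtain ⟨k₁, hk₁⟩ := Filter.eventually_atTop.1
    ((Real.tendsto_log_atTop.comp tendsto_natCast_atTop_atTop).eventually_ge_atTop (5 : ℝ))
  refine ⟨max (max k₀ k₁) 1, fun k hk => ?_⟩
  have hk1 : 1 ≤ k := le_trans (le_max_right _ _) hk
  have hk0 : k₀ ≤ k := le_trans (le_trans (le_max_left _ _) (le_max_left _ _)) hk
  have hlog : (5 : ℝ) ≤ Real.log k :=
    hk₁ k (le_trans (le_trans (le_max_right _ _) (le_max_left _ _)) hk)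
  have h1 := h₀ (Fin k) (by rw [Fintype.card_fin]; exact hk0)
  have h2 := gr_count (V := Fin k) (fun G => ∃ T : Digraph (Fin k), Oriented T ∧
      SimpleGraph.fromRel T.Adj = G ∧ (k : ℝ) * Real.log k ^ 2 < cNum T)
  have h3 := gr_count (V := Fin k) (fun _ => True)
  rw [Fintype.card_fin] at h1 h2 h3
  have h4 : Nat.card {f : Fin k → Fin k // f ∈ TM (Fin k) ∧ ∃ T : Digraph (Fin k),
      Oriented T ∧ SimpleGraph.fromRel T.Adj = Gr f ∧ (k : ℝ) * Real.log k ^ 2 < cNum T} ≤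
      ((TM (Fin k)).filter (fun f => (k : ℝ) * Real.log k ^ 2 / 100 <
        ∑ v, (hgt f v : ℝ))).card := by
    rw [Nat.subtype_card ((TM (Fin k)).filter (fun f => ∃ T : Digraph (Fin k),
      Oriented T ∧ SimpleGraph.fromRel T.Adj = Gr f ∧
        (k : ℝ) * Real.log k ^ 2 < cNum T)) (fun f => by rw [mem_filter])]
    refine card_le_card (fun f hf => ?_)
    rw [mem_filter] at hf ⊢
    refine ⟨hf.1, ?_⟩
    obtain ⟨hfT, T, hT, hTG, hlt⟩ := hf
    obtain ⟨r, hr, hreach⟩ := hf_mem_tm.1 hfT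
    have hTt : (SimpleGraph.fromRel T.Adj).IsTree := by
      rw [hTG, ← gr_tr f (fun _ => true)]
      exact tr_isTree hfT _
    obtain ⟨f', e, hr', hreach', -, hTr⟩ := tr_surj T hT hTt r true
    have hff : f' = f := by
      refine gr_inj hr' hr hreach' hreach ?_
      rw [← gr_tr f' e, hTr, hTG]
    subst hff
    have h5 := tr_bound hfT e
    rw [hTr] at h5
    have h6 : ∑ u, (8 + 64 * mx f' e u) ≤ 8 * k + 64 * ∑ u, hgt f' u := by
      rw [sum_add_distrib, sum_const, card_univ, Fintype.card_fin, smul_eq_mul, ← mul_sum,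
        mul_comm k 8]
      exact Nat.add_le_add_left (Nat.mul_le_mul_left _
        (sum_le_sum (fun u _ => mx_le_hgt e))) _
    have h7 : (cNum T : ℝ) ≤ 1 + (8 * k + 64 * ∑ u, (hgt f' u : ℝ)) := by
      have h8 : cNum T ≤ 1 + (8 * k + 64 * ∑ u, hgt f' u) := by omega
      exact_mod_cast h8
    have hk1' : (1 : ℝ) ≤ k := by exact_mod_cast hk1
    have h9 : (25 : ℝ) ≤ Real.log k ^ 2 := by nlinarith
    have h10 : (25 : ℝ) * k ≤ k * Real.log k ^ 2 := by
      have := mul_le_mul_of_nonneg_left h9 (by linarith : (0 : ℝ) ≤ k)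
      linarith
    linarith
  have h7 : Nat.card {f : Fin k → Fin k // f ∈ TM (Fin k) ∧ True} = (TM (Fin k)).card := by
    rw [Nat.subtype_card (TM (Fin k)) (fun f => by simp)]
  rw [h7] at h3
  simp only [and_true] at h3
  have h8 : ((k * Nat.card {G : SimpleGraph (Fin k) // G.IsTree ∧ ∃ T : Digraph (Fin k),
      Oriented T ∧ SimpleGraph.fromRel T.Adj = G ∧
        (k : ℝ) * Real.log k ^ 2 < cNum T} : ℕ) : ℝ) ≤
      ε * ((k * Nat.card {G : SimpleGraph (Fin k) // G.IsTree} : ℕ) : ℝ) := by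
    rw [← h2, ← h3]
    have h1' := (Nat.cast_le (α := ℝ)).2 h4
    refine le_trans h1' ?_
    refine le_trans (le_of_eq ?_) h1
    congr 2
  push_cast at h8
  have h9 : (0 : ℝ) < k := by exact_mod_cast hk1
  have h10 : (k : ℝ) * (Nat.card {G : SimpleGraph (Fin k) // G.IsTree ∧
      ∃ T : Digraph (Fin k), Oriented T ∧ SimpleGraph.fromRel T.Adj = G ∧
        (k : ℝ) * Real.log k ^ 2 < cNum T} : ℝ) ≤
      k * (ε * (Nat.card {G : SimpleGraph (Fin k) // G.IsTree} : ℝ)) := by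
    refine h8.trans (le_of_eq ?_)
    ring
  exact le_of_mul_le_mul_left h10 h9

end Pool.Agent.Work.MP_fcea8e_co.Typ
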