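import Pool.Agent.Work.MP_fcea8e_co.Typ.MapBase

/-!
# Module HMax (S): an exponential bound for the height

Proof. There is `w₀ ∈ desc f v` with `hgt f v = dp f v w₀` (`Finset.exists_mem_eq_sup`, nonempty by
`self_mem_desc`). With `y = lam * hgt f v`: `y ≤ a + exp (y - a)` (`Real.add_one_le_exp`) and
`exp y = exp lam ^ dp f v w₀ ≤ ∑ w ∈ desc f v, exp lam ^ dp f v w` (`Finset.single_le_sum`). Divide by
`lam`.
-/

set_option autoImplicit false

namespace Pool.Agent.Work.MP_fcea8e_co.Typ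

open Finset

theorem hgt_le_exp {V : Type} [Fintype V] (f : V → V) (v : V) {lam : ℝ} (hl : 0 < lam)
    (a : ℝ) : (hgt f v : ℝ) ≤ lam⁻¹ *
      (a + Real.exp (-a) * ∑ w ∈ desc f v, Real.exp lam ^ dp f v w) := by
  obtain ⟨w₀, hw₀, he⟩ := exists_mem_eq_sup (desc f v) ⟨v, self_mem_desc⟩ (fun w => dp f v w)
  have h0 : hgt f v = dp f v w₀ := he
  have h1 : Real.exp (lam * hgt f v) ≤ ∑ w ∈ desc f v, Real.exp lam ^ dp f v w := by
    rw [h0, mul_comm, Real.exp_nat_mul]
    exact single_le_sum (f := fun w => Real.exp lam ^ dp f v w)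
      (fun w _ => pow_nonneg (Real.exp_pos _).le _) hw₀
  have h2 := Real.add_one_le_exp (lam * hgt f v - a)
  rw [sub_eq_add_neg, Real.exp_add, mul_comm (Real.exp (lam * hgt f v))] at h2
  have h3 := mul_le_mul_of_nonneg_left h1 (Real.exp_pos (-a)).le
  have h4 : lam * hgt f v ≤ a + Real.exp (-a) * ∑ w ∈ desc f v, Real.exp lam ^ dp f v w := by
    linarith
  rw [inv_mul_eq_div, le_div_iff₀ hl, mul_comm]
  exact h4

end Pool.Agent.Work.MP_fcea8e_co.Typ
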