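import Mathlib

/-!
# Module HSeries (S-M): a harmonic type sum

Proof. For `2 m ≤ k`: `√(k / (k - m)) ≤ √2 ≤ 2`, and `∑_{1 ≤ m ≤ k} 1 / m ≤ 1 + log k`
(`harmonic_le_one_add_log`). For `2 m > k`: `m⁻¹ ≤ 2 / k` and `∑_{m < k} √(k / (k - m)) =
√k ∑_{j = 1}^{k - 1} 1 / √j ≤ √k * 2 √k = 2 k` (`1 / √j ≤ 2 (√j - √(j - 1))`, reflection `j = k - m`), so
these terms give at most `4`. Total `6 + 2 log k`.
-/

set_option autoImplicit false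

namespace Pool.Agent.Work.MP_fcea8e_co.Typ

open Finset

private theorem hs_sqrt (n : ℕ) : ∑ j ∈ Ico 1 (n + 1), (√(j : ℝ))⁻¹ ≤ 2 * √(n : ℝ) := by
  induction n with
  | zero => simp
  | succ n ih =>
    rw [Finset.sum_Ico_succ_top (by omega)]
    have h0 : (0 : ℝ) ≤ n := Nat.cast_nonneg n
    have h1 : 0 < √((n + 1 : ℕ) : ℝ) := Real.sqrt_pos.2 (by positivity)
    have h2 : √(n : ℝ) ≤ √((n + 1 : ℕ) : ℝ) := Real.sqrt_le_sqrt (by push_cast; linarith)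
    have h3 : √((n + 1 : ℕ) : ℝ) ^ 2 = n + 1 := by
      rw [Real.sq_sqrt (by positivity)]
      push_cast
      ring
    have h4 : √(n : ℝ) ^ 2 = n := Real.sq_sqrt h0
    have h5 : (√((n + 1 : ℕ) : ℝ))⁻¹ ≤ 2 * √((n + 1 : ℕ) : ℝ) - 2 * √(n : ℝ) := by
      rw [inv_le_iff_one_le_mul₀ h1]
      nlinarith [Real.sqrt_nonneg (n : ℝ)]
    linarith

private theorem hs_harm (k : ℕ) (hk : 1 ≤ k) : ∑ m ∈ Ico 1 k, (m : ℝ)⁻¹ ≤ 1 + Real.log k := by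
  rw [Finset.sum_Ico_eq_sum_range]
  have h1 := harmonic_le_one_add_log k
  have h2 : ∑ i ∈ range (k - 1), ((1 + i : ℕ) : ℝ)⁻¹ ≤ ∑ i ∈ range k, ((1 + i : ℕ) : ℝ)⁻¹ :=
    Finset.sum_le_sum_of_subset_of_nonneg (Finset.range_subset_range.2 (by omega))
      fun i _ _ => by positivity
  have h3 : ((harmonic k : ℚ) : ℝ) = ∑ i ∈ range k, ((1 + i : ℕ) : ℝ)⁻¹ := by
    rw [harmonic]
    push_cast
    refine Finset.sum_congr rfl fun i _ => ?_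
    rw [add_comm]
  linarith

theorem h_series {k : ℕ} (hk : 1 ≤ k) :
    ∑ m ∈ Ico 1 k, √((k : ℝ) / ((k : ℝ) - m)) * (m : ℝ)⁻¹ ≤ 6 + 2 * Real.log k := by
  have hk0 : (0 : ℝ) < k := by exact_mod_cast hk
  have hsk : 0 < √(k : ℝ) := Real.sqrt_pos.2 hk0
  have hpt : ∀ m ∈ Ico 1 k, √((k : ℝ) / ((k : ℝ) - m)) * (m : ℝ)⁻¹ ≤
      2 * (m : ℝ)⁻¹ + 2 / √(k : ℝ) * (√((k - m : ℕ) : ℝ))⁻¹ := by
    intro m hm
    rw [Finset.mem_Ico] at hm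
    have hm1 : (1 : ℝ) ≤ m := by exact_mod_cast hm.1
    have hm2 : (m : ℝ) < k := by exact_mod_cast hm.2
    have hc : ((k - m : ℕ) : ℝ) = (k : ℝ) - m := by rw [Nat.cast_sub hm.2.le]
    rw [hc]
    have hd : 0 < (k : ℝ) - m := by linarith
    have hsd : 0 < √((k : ℝ) - m) := Real.sqrt_pos.2 hd
    have hinv : 0 < (m : ℝ)⁻¹ := by positivity
    rcases le_or_gt (2 * (m : ℝ)) k with h | h
    · have h1 : √((k : ℝ) / ((k : ℝ) - m)) ≤ 2 := by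
        rw [Real.sqrt_le_left (by norm_num), div_le_iff₀ hd]
        nlinarith
      have h2 : 0 ≤ 2 / √(k : ℝ) * (√((k : ℝ) - m))⁻¹ := by positivity
      nlinarith
    · have h1 : (m : ℝ)⁻¹ ≤ 2 / k := by
        rw [inv_le_comm₀ (by linarith) (by positivity), inv_div]
        linarith
      have h2 : √((k : ℝ) / ((k : ℝ) - m)) * (m : ℝ)⁻¹ ≤
          √((k : ℝ) / ((k : ℝ) - m)) * (2 / k) :=
        mul_le_mul_of_nonneg_left h1 (Real.sqrt_nonneg _)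
      have h3 : √((k : ℝ) / ((k : ℝ) - m)) * (2 / k) = 2 / √(k : ℝ) * (√((k : ℝ) - m))⁻¹ := by
        rw [Real.sqrt_div hk0.le]
        have h4 : (k : ℝ) = √(k : ℝ) * √(k : ℝ) := (Real.mul_self_sqrt hk0.le).symm
        have h5 : (2 : ℝ) / k = 2 / (√(k : ℝ) * √(k : ℝ)) := by rw [← h4]
        rw [h5]
        field_simp
      have h6 : 0 ≤ 2 * (m : ℝ)⁻¹ := by positivity
      linarith
  refine (Finset.sum_le_sum hpt).trans ?_
  rw [Finset.sum_add_distrib, ← Finset.mul_sum, ← Finset.mul_sum]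
  have h1 := hs_harm k hk
  have h2 : ∑ m ∈ Ico 1 k, (√((k - m : ℕ) : ℝ))⁻¹ = ∑ j ∈ Ico 1 k, (√(j : ℝ))⁻¹ := by
    have := Finset.sum_Ico_reflect (fun j : ℕ => (√(j : ℝ))⁻¹) 1 (m := k) (n := k) (by omega)
    rw [this]
    congr 1
    have e1 : k + 1 - k = 1 := by omega
    have e2 : k + 1 - 1 = k := by omega
    rw [e1, e2]
  have h3 : ∑ j ∈ Ico 1 k, (√(j : ℝ))⁻¹ ≤ 2 * √(k : ℝ) := by
    obtain ⟨n, rfl⟩ := Nat.exists_eq_add_of_le' hk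
    refine (hs_sqrt n).trans ?_
    have : √(n : ℝ) ≤ √((n + 1 : ℕ) : ℝ) := Real.sqrt_le_sqrt (by push_cast; linarith)
    linarith
  rw [h2]
  have h4 : 2 / √(k : ℝ) * ∑ j ∈ Ico 1 k, (√(j : ℝ))⁻¹ ≤ 2 / √(k : ℝ) * (2 * √(k : ℝ)) :=
    mul_le_mul_of_nonneg_left h3 (by positivity)
  have h5 : 2 / √(k : ℝ) * (2 * √(k : ℝ)) = 4 := by
    field_simp
    norm_num
  linarith

end Pool.Agent.Work.MP_fcea8e_co.Typ
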