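import Pool.Agent.Work.MP_fcea8e_co.Typ.HMax
import Pool.Agent.Work.MP_fcea8e_co.Typ.TreeSum

/-!
# Module HSize (M): the mean height of the trees on `A` with root `v`

Proof. Let `m = |A| ≥ 1`, `y = log (m + 2) ≥ 1` (`exp 1 < 3`: `Real.exp_one_lt_d9`), `lam = √(y / m)`,
`lam ^ 2 = y / m`. `tree_sum` with `c = exp lam`: every term is at most
`m * exp (lam d - d ^ 2 / (2 m)) ≤ m * exp (lam ^ 2 m / 2) = m * exp (y / 2)` (`(d - lam m) ^ 2 ≥ 0`), so
`∑_f ∑_w exp lam ^ dp ≤ |Fo| m ^ 2 exp (y / 2) ≤ |Fo| exp (5 y / 2)` (`m ≤ exp y`). Sum `hgt_le_exp` with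
`a = 5 y / 2` over `f` (`fo_desc`): `∑_f hgt ≤ |Fo| lam⁻¹ (5 y / 2 + 1) ≤ |Fo| lam⁻¹ (4 y)`, and
`lam⁻¹ * y = √(m / y) * y = √(m y)`.
-/

set_option autoImplicit false

namespace Pool.Agent.Work.MP_fcea8e_co.Typ

open Finset

private theorem hsize_term {m y lam d : ℝ} (hm : 0 < m) (hl : lam ^ 2 * m = y) :
    lam * d + -d ^ 2 / (2 * m) ≤ y / 2 := by
  have h1 : 0 ≤ (d - lam * m) ^ 2 := sq_nonneg _
  have h2 : lam * d + -d ^ 2 / (2 * m) = (2 * m * (lam * d) - d ^ 2) / (2 * m) := by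
    field_simp
    ring
  rw [h2, div_le_iff₀ (by positivity), ← hl]
  nlinarith

theorem size_hgt {V : Type} [Fintype V] {A : Finset V} {v : V} (hv : v ∈ A) :
    ∑ f ∈ Fo A {v}, (hgt f v : ℝ) ≤
      (Fo A {v}).card * (4 * √(A.card * Real.log (A.card + 2))) := by
  obtain ⟨m, hm⟩ : ∃ m : ℝ, m = (A.card : ℝ) := ⟨_, rfl⟩
  have hm1 : 1 ≤ m := by
    rw [hm]
    exact_mod_cast Finset.card_pos.2 ⟨v, hv⟩
  have hm0 : 0 < m := by linarith
  obtain ⟨y, hy⟩ : ∃ y : ℝ, y = Real.log (m + 2) := ⟨_, rfl⟩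
  have hy1 : 1 ≤ y := by
    rw [hy, Real.le_log_iff_exp_le (by linarith)]
    have := Real.exp_one_lt_d9
    linarith
  have hey : Real.exp y = m + 2 := by
    rw [hy, Real.exp_log (by linarith)]
  obtain ⟨lam, hlam⟩ : ∃ lam : ℝ, lam = √(y / m) := ⟨_, rfl⟩
  have hl0 : 0 < lam := by
    rw [hlam]
    positivity
  have hl2 : lam ^ 2 * m = y := by
    rw [hlam, Real.sq_sqrt (by positivity)]
    field_simp
  obtain ⟨F, hF⟩ : ∃ F : ℝ, F = ((Fo A {v}).card : ℝ) := ⟨_, rfl⟩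
  have hF0 : 0 ≤ F := by
    rw [hF]
    exact Nat.cast_nonneg _
  have h1 := tree_sum hv (c := Real.exp lam) (Real.exp_pos _).le
  have h2 : ∑ d ∈ range A.card, ((d : ℝ) + 1) * Real.exp lam ^ d *
      Real.exp (-(d : ℝ) ^ 2 / (2 * A.card)) ≤ Real.exp (5 * y / 2) := by
    have h3 : ∀ d ∈ range A.card, ((d : ℝ) + 1) * Real.exp lam ^ d *
        Real.exp (-(d : ℝ) ^ 2 / (2 * A.card)) ≤ m * Real.exp (y / 2) := by
      intro d hd
      have hd1 : (d : ℝ) + 1 ≤ m := by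
        rw [hm]
        exact_mod_cast Finset.mem_range.1 hd
      rw [← hm, mul_assoc, ← Real.exp_nat_mul, ← Real.exp_add]
      refine mul_le_mul hd1 (Real.exp_le_exp.2 ?_) (Real.exp_pos _).le hm0.le
      rw [mul_comm (d : ℝ) lam]
      exact hsize_term hm0 hl2
    refine (Finset.sum_le_sum h3).trans ?_
    rw [Finset.sum_const, nsmul_eq_mul, Finset.card_range, ← hm]
    have h4 : m ≤ Real.exp y := by
      rw [hey]
      linarith
    calc m * (m * Real.exp (y / 2)) ≤ Real.exp y * (Real.exp y * Real.exp (y / 2)) := by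
          gcongr
      _ = Real.exp (5 * y / 2) := by
          rw [← Real.exp_add, ← Real.exp_add]
          congr 1
          ring
  have h3 : ∑ f ∈ Fo A {v}, ∑ w ∈ A, Real.exp lam ^ dp f v w ≤ F * Real.exp (5 * y / 2) := by
    refine h1.trans ?_
    rw [← hF]
    exact mul_le_mul_of_nonneg_left h2 hF0
  have h4 : ∀ f ∈ Fo A {v}, (hgt f v : ℝ) ≤ lam⁻¹ *
      (5 * y / 2 + Real.exp (-(5 * y / 2)) * ∑ w ∈ A, Real.exp lam ^ dp f v w) := by
    intro f hf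
    have h5 := hgt_le_exp f v hl0 (5 * y / 2)
    rwa [fo_desc hv hf] at h5
  have h5 : ∑ f ∈ Fo A {v}, (hgt f v : ℝ) ≤ lam⁻¹ *
      (F * (5 * y / 2) + Real.exp (-(5 * y / 2)) * (F * Real.exp (5 * y / 2))) := by
    refine (Finset.sum_le_sum h4).trans ?_
    rw [← Finset.mul_sum, Finset.sum_add_distrib, Finset.sum_const, nsmul_eq_mul, ← hF,
      ← Finset.mul_sum]
    refine mul_le_mul_of_nonneg_left ?_ (inv_nonneg.2 hl0.le)
    exact add_le_add le_rfl (mul_le_mul_of_nonneg_left h3 (Real.exp_pos _).le)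
  have h6 : Real.exp (-(5 * y / 2)) * (F * Real.exp (5 * y / 2)) = F := by
    rw [mul_left_comm, ← Real.exp_add, neg_add_cancel, Real.exp_zero, mul_one]
  rw [h6] at h5
  have h7 : lam⁻¹ * y = √(m * y) := by
    rw [inv_mul_eq_iff_eq_mul₀ hl0.ne', hlam, ← Real.sqrt_mul (by positivity)]
    rw [show y / m * (m * y) = y * y by field_simp, Real.sqrt_mul_self (by linarith)]
  rw [← hF, ← hm, ← hy, ← h7]
  refine h5.trans ?_
  have h8 : F * (5 * y / 2) + F ≤ F * (4 * y) := by nlinarith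
  calc lam⁻¹ * (F * (5 * y / 2) + F) ≤ lam⁻¹ * (F * (4 * y)) :=
        mul_le_mul_of_nonneg_left h8 (inv_nonneg.2 hl0.le)
    _ = F * (4 * (lam⁻¹ * y)) := by ring

end Pool.Agent.Work.MP_fcea8e_co.Typ
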