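import Pool.Agent.Work.MP_fcea8e_co.Typ.FoCard

/-!
# Module TMCard (S-M): the number of rooted trees

Proof. `TM V` is the disjoint union over `r : V` of `Fo univ {r}` (`f ∈ Fo univ {r}` iff `f r = r` and every
point reaches `r`; `r` is the only fixed point: a fixed point `s` reaches `r`, so `s = r`,
`Function.iterate_fixed`). `Finset.card_biUnion` or `Finset.card_eq_sum_card_fiberwise`; by `fo_card`,
`|V| * |Fo univ {r}| = |V| ^ (|V| - 1)`. So `|TM V| = ∑_r |Fo univ {r}| = |V| ^ (|V| - 1)` for
`|V| ≥ 1` (all numbers `|Fo univ {r}|` are equal to `|V| ^ (|V| - 1) / |V|`).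
-/

set_option autoImplicit false

namespace Pool.Agent.Work.MP_fcea8e_co.Typ

open Finset

open Classical in
private theorem mem_fo1 {V : Type} [Fintype V] {r : V} {f : V → V} :
    f ∈ Fo univ {r} ↔ f r = r ∧ ∀ x, ∃ n, f^[n] x = r := by
  unfold Fo
  rw [Finset.mem_filter]
  constructor
  · rintro ⟨-, h1, -, h3⟩
    refine ⟨h1 r (by simp), fun x => ?_⟩
    obtain ⟨n, hn⟩ := h3 x (mem_univ _)
    exact ⟨n, mem_singleton.1 hn⟩
  · rintro ⟨h1, h2⟩
    refine ⟨mem_univ _, fun x hx => ?_, fun x _ => mem_univ _, fun x _ => ?_⟩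
    · have : x = r := by simpa using hx
      rw [this]; exact h1
    · obtain ⟨n, hn⟩ := h2 x
      exact ⟨n, mem_singleton.2 hn⟩

open Classical in
theorem tm_card (V : Type) [Fintype V] (h : 1 ≤ Fintype.card V) :
    (TM V).card = Fintype.card V ^ (Fintype.card V - 1) := by
  have h1 : TM V = (univ : Finset V).biUnion (fun r => Fo univ {r}) := by
    ext f
    simp only [mem_biUnion, mem_univ, true_and, mem_fo1]
    unfold TM
    rw [Finset.mem_filter]
    simp
  have h2 : ((univ : Finset V).biUnion (fun r => Fo (univ : Finset V) {r})).card =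
      ∑ r : V, (Fo (univ : Finset V) {r}).card := by
    apply Finset.card_biUnion
    intro r _ s _ hrs
    rw [Function.onFun, Finset.disjoint_left]
    intro f hf hg
    obtain ⟨hr, hr2⟩ := mem_fo1.1 hf
    obtain ⟨hs, hs2⟩ := mem_fo1.1 hg
    apply hrs
    obtain ⟨n, hn⟩ := hr2 s
    rw [Function.iterate_fixed hs] at hn
    exact hn.symm
  have h3 : ∀ r : V, Fintype.card V * (Fo (univ : Finset V) {r}).card =
      Fintype.card V ^ (Fintype.card V - 1) := by
    intro r
    have h4 := fo_card (A := (univ : Finset V)) (R := {r}) (subset_univ _)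
    rw [Finset.card_univ, card_singleton, one_mul, Finset.card_sdiff_of_subset (subset_univ _),
      Finset.card_univ, card_singleton] at h4
    exact h4
  have h5 : Fintype.card V * (∑ r : V, (Fo (univ : Finset V) {r}).card) =
      Fintype.card V * Fintype.card V ^ (Fintype.card V - 1) := by
    rw [Finset.mul_sum, Finset.sum_congr rfl (fun r _ => h3 r), Finset.sum_const, Finset.card_univ,
      smul_eq_mul]
  rw [h1, h2]
  exact Nat.eq_of_mul_eq_mul_left h h5

end Pool.Agent.Work.MP_fcea8e_co.Typ
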