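import Pool.Agent.Work.MP_fcea8e_co.Typ.HTotal
import Pool.Agent.Work.MP_fcea8e_co.Typ.TMCard

/-!
# Module HTail (S-M): the heights of almost all trees

Proof. Markov: the number `N` of `f ∈ TM V` with `∑_v hgt f v > k (log k) ^ 2 / 100` satisfies
`N * (k (log k) ^ 2 / 100) ≤ ∑_{f ∈ TM V} ∑_v hgt f v ≤ k ^ (k - 1) * 36 k (log (k + 2)) ^ (3/2)`
(`total_hgt`), so for `k ≥ 2`, `N ≤ |TM V| * 3600 (log (k + 2)) ^ (3/2) / (log k) ^ 2` (`tm_card`). For `k ≥ 2`,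
`log (k + 2) ≤ log (k ^ 2) = 2 log k`, so the factor is at most `3600 * 2 ^ (3/2) * (log k) ^ (-1/2)`, which
tends to `0` (`Real.tendsto_log_atTop`, `tendsto_rpow_neg_atTop`; or simply `log k ≥ (20000 / ε) ^ 2` for
large `k`).
-/

set_option autoImplicit false

namespace Pool.Agent.Work.MP_fcea8e_co.Typ

open Finset

private theorem htail_num {ε k N T s0 : ℝ} (hε : 0 < ε) (hs0 : s0 = 14400 / ε) (hk : 3 ≤ k)
    (hke : Real.exp (s0 ^ 2) ≤ k) (hN : 0 ≤ N) (hT : 0 ≤ T)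
    (h : N * (k * Real.log k ^ 2 / 100) ≤
      T * (36 * k * Real.log (k + 2) ^ (3 / 2 : ℝ))) : N ≤ ε * T := by
  have hk0 : 0 < k := by linarith
  have hs0p : 0 < s0 := by
    rw [hs0]
    positivity
  obtain ⟨L, hL⟩ : ∃ L : ℝ, L = Real.log k := ⟨_, rfl⟩
  have hLs : s0 ^ 2 ≤ L := by
    rw [hL, Real.le_log_iff_exp_le hk0]
    exact hke
  have hL0 : 0 < L := lt_of_lt_of_le (by positivity) hLs
  obtain ⟨s, hs⟩ : ∃ s : ℝ, s = √L := ⟨_, rfl⟩
  have hs2 : s ^ 2 = L := by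
    rw [hs]
    exact Real.sq_sqrt hL0.le
  have hsp : 0 < s := by
    rw [hs]
    exact Real.sqrt_pos.2 hL0
  have hss : s0 ≤ s := by
    rw [hs]
    exact Real.le_sqrt_of_sq_le hLs
  have hM : Real.log (k + 2) ≤ 2 * L := by
    have h1 : k + 2 ≤ k ^ 2 := by nlinarith
    have h2 := Real.log_le_log (by linarith) h1
    rw [Real.log_pow, Nat.cast_ofNat] at h2
    rwa [hL]
  have hM0 : 0 ≤ Real.log (k + 2) := Real.log_nonneg (by linarith)
  have hM2 : Real.log (k + 2) ^ (3 / 2 : ℝ) ≤ 4 * L * s := by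
    refine (Real.rpow_le_rpow hM0 hM (by norm_num)).trans ?_
    rw [show (3 / 2 : ℝ) = 1 + 1 / 2 by norm_num, Real.rpow_add (by positivity), Real.rpow_one,
      ← Real.sqrt_eq_rpow]
    have h1 : √(2 * L) ≤ 2 * s := by
      rw [Real.sqrt_le_iff]
      refine ⟨by positivity, ?_⟩
      nlinarith
    nlinarith
  rw [← hL] at h
  have h3 : N * (k * L ^ 2 / 100) ≤ T * (36 * k * (4 * L * s)) := by
    refine h.trans (mul_le_mul_of_nonneg_left ?_ hT)
    exact mul_le_mul_of_nonneg_left hM2 (by positivity)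
  have h4 : (k * s ^ 3) * (N * s) ≤ (k * s ^ 3) * (14400 * T) := by
    rw [← hs2] at h3
    nlinarith
  have h5 : N * s ≤ 14400 * T := le_of_mul_le_mul_left h4 (by positivity)
  have h6 : N * s0 ≤ 14400 * T := (mul_le_mul_of_nonneg_left hss hN).trans h5
  rw [hs0, mul_div_assoc', div_le_iff₀ hε] at h6
  nlinarith

open Classical in
theorem hgt_tail {ε : ℝ} (hε : 0 < ε) : ∃ k₀ : ℕ, ∀ (V : Type) [Fintype V],
    k₀ ≤ Fintype.card V →
    (((TM V).filter (fun f => (Fintype.card V : ℝ) * Real.log (Fintype.card V) ^ 2 / 100 <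
      ∑ v, (hgt f v : ℝ))).card : ℝ) ≤ ε * (TM V).card := by
  obtain ⟨s0, hs0⟩ : ∃ s0 : ℝ, s0 = 14400 / ε := ⟨_, rfl⟩
  refine ⟨max 3 ⌈Real.exp (s0 ^ 2)⌉₊, ?_⟩
  intro V _ hk
  have hk3 : 3 ≤ Fintype.card V := (le_max_left _ _).trans hk
  have hke : Real.exp (s0 ^ 2) ≤ (Fintype.card V : ℝ) :=
    (Nat.le_ceil _).trans (by exact_mod_cast (le_max_right _ _).trans hk)
  have h1 := total_hgt (V := V) (by omega)
  have h2 := tm_card V (by omega)
  refine htail_num hε hs0 (by exact_mod_cast hk3) hke (Nat.cast_nonneg _) (Nat.cast_nonneg _) ?_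
  rw [h2]
  push_cast
  refine le_trans ?_ h1
  rw [← nsmul_eq_mul, ← Finset.sum_const]
  refine (Finset.sum_le_sum fun f hf => (Finset.mem_filter.1 hf).2.le).trans ?_
  refine Finset.sum_le_sum_of_subset_of_nonneg (Finset.filter_subset _ _) fun f _ _ => ?_
  exact Finset.sum_nonneg fun v _ => Nat.cast_nonneg _

end Pool.Agent.Work.MP_fcea8e_co.Typ
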