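import Pool.Agent.Work.MP_fcea8e_co.Typ.MapBase

/-!
# Module Local (M): locality

Proofs. `loc_iter`: if `f` and `g` agree on `desc f v` without `v`, then for `w ∈ desc f v` and
`i ≤ dp f v w`, `g^[i] w = f^[i] w` (induction; `f^[i] w ∈ desc f v` by `iter_mem_desc` and
`f^[i] w ≠ v` for `i < dp f v w` by `not_of_lt_dp`). `loc_dp`: `dp_eq`. `loc_rh`: the same sum.
`loc_mem`: `w ∈ desc g v`. `loc_hgt`, `loc_mx`: with `desc f v = desc g v = A` the suprema are over
the same set of the same numbers. `loc_sum` the same for the sum (this is `Loc`).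
`res_fo`: let `A = desc f v` and `g x = if x ∈ A \ {v} then f x else x`: `g` maps `A` into `A`
(`iter_mem_desc`: for `x ∈ A`, `x ≠ v`, `dp f v x ≥ 1` and `f x ∈ desc f v`), and every `w ∈ A` reaches `v`
under `g` (`loc_iter` for `g`). `out_desc`: if `x ∉ desc f v` then `f x ∉ desc f v` (otherwise `n + 1`
steps lead from `x` to `v`).
-/

set_option autoImplicit false

namespace Pool.Agent.Work.MP_fcea8e_co.Typ

open Finset

variable {V : Type} [Fintype V] {f g : V → V} {v : V}

theorem loc_iter (h : ∀ x ∈ desc f v, x ≠ v → f x = g x) {w : V} (hw : w ∈ desc f v) {i : ℕ}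
    (hi : i ≤ dp f v w) : g^[i] w = f^[i] w := by
  induction i with
  | zero => rfl
  | succ i ih =>
    rw [Function.iterate_succ_apply', Function.iterate_succ_apply', ih (by omega)]
    exact (h _ (iter_mem_desc hw (by omega)) (not_of_lt_dp (by omega))).symm

theorem loc_dp (h : ∀ x ∈ desc f v, x ≠ v → f x = g x) {w : V} (hw : w ∈ desc f v) :
    dp g v w = dp f v w := by
  refine dp_eq ?_ (fun i hi => ?_)
  · rw [loc_iter h hw le_rfl]
    exact iter_dp hw
  · rw [loc_iter h hw hi.le]
    exact not_of_lt_dp hi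

theorem loc_mem (h : ∀ x ∈ desc f v, x ≠ v → f x = g x) {w : V} (hw : w ∈ desc f v) :
    w ∈ desc g v := by
  refine mem_desc.2 ⟨dp f v w, ?_⟩
  rw [loc_iter h hw le_rfl]
  exact iter_dp hw

theorem loc_rh (h : ∀ x ∈ desc f v, x ≠ v → f x = g x) {e e' : V → Bool}
    (he : ∀ x ∈ desc f v, x ≠ v → e x = e' x) {w : V} (hw : w ∈ desc f v) :
    rh g e' v w = rh f e v w := by
  unfold rh
  rw [loc_dp h hw]
  refine sum_congr rfl (fun i hi => ?_)
  rw [mem_range] at hi
  rw [loc_iter h hw hi.le, he _ (iter_mem_desc hw hi.le) (not_of_lt_dp hi)]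

theorem loc_mx (h : ∀ x ∈ desc f v, x ≠ v → f x = g x) {e e' : V → Bool}
    (he : ∀ x ∈ desc f v, x ≠ v → e x = e' x) (hd : desc g v = desc f v) :
    mx g e' v = mx f e v := by
  unfold mx
  rw [hd]
  exact sup_congr rfl (fun w hw => by rw [loc_rh h he hw])

theorem loc_hgt (h : ∀ x ∈ desc f v, x ≠ v → f x = g x) (hd : desc g v = desc f v) :
    hgt g v = hgt f v := by
  unfold hgt
  rw [hd]
  exact sup_congr rfl (fun w hw => loc_dp h hw)

open Classical in
theorem loc_fun_mx (A : Finset V) (v : V) :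
    Loc A v (fun f => ∑ e : V → Bool, (mx f e v : ℝ)) := by
  intro f g hfg hf hg
  refine sum_congr rfl (fun e _ => ?_)
  rw [loc_mx (f := f) (g := g) (e := e) (e' := e) (by rw [hf]; exact hfg)
    (fun _ _ _ => rfl) (by rw [hf, hg])]

theorem loc_fun_hgt (A : Finset V) (v : V) : Loc A v (fun f => (hgt f v : ℝ)) := by
  intro f g hfg hf hg
  show (hgt f v : ℝ) = (hgt g v : ℝ)
  rw [loc_hgt (f := f) (g := g) (by rw [hf]; exact hfg) (by rw [hf, hg])]

open Classical in
theorem res_fo (f : V → V) (v : V) :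
    (fun x => if x ∈ desc f v \ {v} then f x else x) ∈ Fo (desc f v) {v} := by
  unfold Fo
  rw [mem_filter]
  refine ⟨mem_univ _, fun x hx => if_neg hx, fun x hx => ?_, fun w hw => ?_⟩
  · beta_reduce
    split
    · rename_i h1
      have h2 : x ≠ v := fun h => (mem_sdiff.1 h1).2 (mem_singleton.2 h)
      have h3 : 1 ≤ dp f v x := by
        by_contra h0
        have h4 : dp f v x = 0 := by omega
        have h5 := iter_dp hx
        rw [h4] at h5
        exact h2 h5
      exact iter_mem_desc hx h3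
    · exact hx
  · refine ⟨dp f v w, mem_singleton.2 ?_⟩
    rw [loc_iter (f := f) (v := v) (fun x hx hxv => ?_) hw le_rfl]
    · exact iter_dp hw
    · rw [if_pos (mem_sdiff.2 ⟨hx, fun h => hxv (mem_singleton.1 h)⟩)]

theorem out_desc {x : V} (hx : x ∉ desc f v) : f x ∉ desc f v := by
  intro h
  obtain ⟨n, hn⟩ := mem_desc.1 h
  exact hx (mem_desc.2 ⟨n + 1, hn⟩)

end Pool.Agent.Work.MP_fcea8e_co.Typ
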