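import Pool.Agent.Work.MP_fcea8e_co.Typ.SizeTotal
import Pool.Agent.Work.MP_fcea8e_co.Typ.HSeries
import Pool.Agent.Work.MP_fcea8e_co.Typ.HSize
import Pool.Agent.Work.MP_fcea8e_co.Typ.Local
import Pool.Agent.Work.MP_fcea8e_co.Typ.GlueTree

/-!
# Module HTotal (M): the total mean of the heights

Proof. Let `k = |V|`, `Q v f = hgt f v` (nonnegative, local by `loc_fun_hgt`), `F = TM V`, `κ = 1`
(`glue_tree`). As `1 ≤ |desc f v| ≤ k`, `∑_v hgt f v = ∑_{m ∈ Icc 1 k} ∑_v (if |desc f v| = m then hgt f v else 0)`.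
`size_total` with `q = 4 √(m log (m + 2)) ≤ 4 √m √(log (k + 2))` (`size_hgt`). For `m < k`:
`k ^ k * 4 √(log (k + 2)) √(k / (k - m)) m ^ (1/2 - 3/2)`; the sum over `m ∈ Ico 1 k` is by `h_series` at most
`k ^ k * 4 √(log (k + 2)) (6 + 2 log k) ≤ k ^ k * 32 (log (k + 2)) ^ (3/2)` (`log (k + 2) ≥ 1`,
`log k ≤ log (k + 2)`). For `m = k`: `k ^ (k - 1) * 4 √k √(log (k + 2)) ≤ k ^ k * 4 (log (k + 2)) ^ (3/2)`.
-/

set_option autoImplicit false

namespace Pool.Agent.Work.MP_fcea8e_co.Typ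

open Finset

private theorem log_ge_one {k : ℕ} (hk : 1 ≤ k) : 1 ≤ Real.log ((k : ℝ) + 2) := by
  have h : Real.exp 1 ≤ (k : ℝ) + 2 := by
    have h1 := Real.exp_one_lt_d9
    have hk' : (1 : ℝ) ≤ k := by exact_mod_cast hk
    linarith
  exact (Real.le_log_iff_exp_le (by positivity)).2 h

private theorem term_bd {k m : ℕ} (hm : 1 ≤ m) (hmk : m < k) :
    4 * √((m : ℝ) * Real.log ((m : ℝ) + 2)) *
      (√((k : ℝ) / ((k : ℝ) - m)) * (m : ℝ) ^ (-(3 / 2) : ℝ)) ≤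
    4 * √(Real.log ((k : ℝ) + 2)) * (√((k : ℝ) / ((k : ℝ) - m)) * (m : ℝ)⁻¹) := by
  have hm' : (1 : ℝ) ≤ m := by exact_mod_cast hm
  have hm0 : (0 : ℝ) < m := by linarith
  have hmk' : (m : ℝ) ≤ k := by exact_mod_cast hmk.le
  have h1 : √((m : ℝ) * Real.log ((m : ℝ) + 2)) ≤ √(m : ℝ) * √(Real.log ((k : ℝ) + 2)) := by
    rw [Real.sqrt_mul hm0.le]
    refine mul_le_mul_of_nonneg_left (Real.sqrt_le_sqrt ?_) (Real.sqrt_nonneg _)
    exact Real.log_le_log (by positivity) (by linarith)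
  have h2 : √(m : ℝ) * (m : ℝ) ^ (-(3 / 2) : ℝ) = (m : ℝ)⁻¹ := by
    rw [Real.sqrt_eq_rpow, ← Real.rpow_add hm0, ← Real.rpow_neg_one]
    norm_num
  have h3 : 0 ≤ √((k : ℝ) / ((k : ℝ) - m)) * (m : ℝ) ^ (-(3 / 2) : ℝ) := by positivity
  calc 4 * √((m : ℝ) * Real.log ((m : ℝ) + 2)) *
      (√((k : ℝ) / ((k : ℝ) - m)) * (m : ℝ) ^ (-(3 / 2) : ℝ))
      ≤ 4 * (√(m : ℝ) * √(Real.log ((k : ℝ) + 2))) *
        (√((k : ℝ) / ((k : ℝ) - m)) * (m : ℝ) ^ (-(3 / 2) : ℝ)) :=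
        mul_le_mul_of_nonneg_right (by linarith) h3
    _ = 4 * √(Real.log ((k : ℝ) + 2)) * (√((k : ℝ) / ((k : ℝ) - m)) *
        (√(m : ℝ) * (m : ℝ) ^ (-(3 / 2) : ℝ))) := by ring
    _ = _ := by rw [h2]

private theorem pow_three_half {L : ℝ} (hL : 1 ≤ L) : √L * L = L ^ (3 / 2 : ℝ) := by
  have h0 : 0 < L := by linarith
  nth_rewrite 2 [← Real.rpow_one L]
  rw [Real.sqrt_eq_rpow, ← Real.rpow_add h0]
  norm_num

theorem total_hgt {V : Type} [Fintype V] (hV : 1 ≤ Fintype.card V) :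
    ∑ f ∈ TM V, ∑ v, (hgt f v : ℝ) ≤ (Fintype.card V : ℝ) ^ (Fintype.card V - 1) *
      (36 * Fintype.card V * Real.log (Fintype.card V + 2) ^ (3 / 2 : ℝ)) := by
  classical
  have hsplit : ∀ f : V → V, ∑ v, (hgt f v : ℝ) = ∑ m ∈ Icc 1 (Fintype.card V),
      ∑ v, (if (desc f v).card = m then (hgt f v : ℝ) else 0) := by
    intro f
    rw [Finset.sum_comm]
    refine Finset.sum_congr rfl (fun v _ => ?_)
    rw [Finset.sum_ite_eq, if_pos]
    exact Finset.mem_Icc.2 ⟨Finset.card_pos.2 ⟨v, self_mem_desc⟩, Finset.card_le_univ _⟩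
  rw [Finset.sum_congr rfl (fun f _ => hsplit f), Finset.sum_comm,
    ← Finset.Ico_insert_right hV, Finset.sum_insert (by simp)]
  have hQ : ∀ (v : V) (f : V → V), 0 ≤ (hgt f v : ℝ) := fun v f => Nat.cast_nonneg _
  have hst : ∀ m : ℕ, 1 ≤ m → _ := fun m hm => size_total (glue_tree V) zero_le_one
    (fun v f => (hgt f v : ℝ)) hQ loc_fun_hgt hm
    (q := 4 * √((m : ℝ) * Real.log ((m : ℝ) + 2))) (by positivity)
    (fun A v hv hA => by
      have h := size_hgt hv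
      rw [hA] at h
      exact h)
  set k := Fintype.card V with hk
  have hk1 : (1 : ℝ) ≤ k := by exact_mod_cast hV
  have hL1 : 1 ≤ Real.log ((k : ℝ) + 2) := log_ge_one hV
  set L := Real.log ((k : ℝ) + 2) with hL
  have hL32 := pow_three_half hL1
  have hpow : (k : ℝ) ^ k = (k : ℝ) ^ (k - 1) * k := by
    rw [← pow_succ, Nat.sub_add_cancel hV]
  have hpos : 0 ≤ (k : ℝ) ^ (k - 1) := by positivity
  have hsL : 0 ≤ √L := Real.sqrt_nonneg _
  -- the term of size `k`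
  have hlast : ∑ f ∈ TM V, ∑ v, (if (desc f v).card = k then (hgt f v : ℝ) else 0) ≤
      (k : ℝ) ^ (k - 1) * (4 * k * L ^ (3 / 2 : ℝ)) := by
    have h1 := (hst k hV).2 rfl
    refine h1.trans ?_
    rw [one_mul]
    refine mul_le_mul_of_nonneg_left ?_ hpos
    rw [← hL, Real.sqrt_mul (by linarith), ← hL32]
    have h2 : √(k : ℝ) ≤ k := by
      rw [Real.sqrt_le_left (by linarith)]
      nlinarith
    have h3 : √(k : ℝ) * √L ≤ (k : ℝ) * (√L * L) := by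
      have h4 : √L ≤ √L * L := le_mul_of_one_le_right hsL hL1
      exact mul_le_mul h2 h4 hsL (by linarith)
    linarith
  -- the other sizes
  have hrest : ∑ m ∈ Ico 1 k, ∑ f ∈ TM V, ∑ v,
      (if (desc f v).card = m then (hgt f v : ℝ) else 0) ≤
      (k : ℝ) ^ (k - 1) * (32 * k * L ^ (3 / 2 : ℝ)) := by
    have h1 : ∀ m ∈ Ico 1 k, ∑ f ∈ TM V, ∑ v,
        (if (desc f v).card = m then (hgt f v : ℝ) else 0) ≤
        (k : ℝ) ^ k * (4 * √L) * (√((k : ℝ) / ((k : ℝ) - m)) * (m : ℝ)⁻¹) := by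
      intro m hm
      obtain ⟨hm1, hmk⟩ := Finset.mem_Ico.1 hm
      have h2 := (hst m hm1).1 hmk
      refine h2.trans ?_
      have h5 := mul_le_mul_of_nonneg_left (term_bd hm1 hmk)
        (by positivity : (0 : ℝ) ≤ (k : ℝ) ^ k)
      calc _ = (k : ℝ) ^ k * (4 * √((m : ℝ) * Real.log ((m : ℝ) + 2)) *
            (√((k : ℝ) / ((k : ℝ) - m)) * (m : ℝ) ^ (-(3 / 2) : ℝ))) := by rw [one_mul]
        _ ≤ _ := h5
        _ = _ := by rw [← hL]; ring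
    refine (Finset.sum_le_sum h1).trans ?_
    rw [← Finset.mul_sum]
    have h3 := h_series hV
    have h4 : Real.log (k : ℝ) ≤ L := Real.log_le_log (by linarith) (by linarith)
    calc (k : ℝ) ^ k * (4 * √L) * ∑ m ∈ Ico 1 k, √((k : ℝ) / ((k : ℝ) - m)) * (m : ℝ)⁻¹
        ≤ (k : ℝ) ^ k * (4 * √L) * (8 * L) := by
          refine mul_le_mul_of_nonneg_left (h3.trans ?_) (by positivity)
          linarith
      _ = (k : ℝ) ^ (k - 1) * (32 * k * (√L * L)) := by rw [hpow]; ring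
      _ = _ := by rw [hL32]
  calc _ ≤ (k : ℝ) ^ (k - 1) * (4 * k * L ^ (3 / 2 : ℝ)) +
        (k : ℝ) ^ (k - 1) * (32 * k * L ^ (3 / 2 : ℝ)) := add_le_add hlast hrest
    _ = _ := by ring

end Pool.Agent.Work.MP_fcea8e_co.Typ
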