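import Pool.Agent.Work.MP_fcea8e_co.Typ.Defs

/-!
# Module LayBase (M): basic properties of the layers

Proofs. `lay_succ_sub`: `filter_subset`. `lay_anti`: induction on `s`. `lay_sub`: `lay_anti` with
`t = 0`. `top_sub_lay`: a vertex of `top` is in all layers `lay t i` by definition.
`exists_stable`: for every `v ∈ G` and every `i` with `v ∉ top i` there is `t` with `v ∉ lay t i`;
choose `t₀` as the maximum of these numbers over the finitely many pairs `(v, i)`, `v ∈ G`,
`i ∈ Finset.Icc (-l) l` (`Finset.sup`); then `lay t₀ i ⊆ top i` by `lay_anti`.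
`top_out`: with `t` from `exists_stable`, `v ∈ top i ⊆ lay (t + 1) i`, so
`K ≤ |outs E (lay t (i + 1)) v|` and `lay t (i + 1) = top (i + 1)`. `top_in` in the same way.
`rout_or_rin`: let `t` be minimal with `v ∉ lay t i`; `t ≠ 0`; `v ∈ lay (t - 1) i` and one of the two
conditions of the filter fails.
-/

set_option autoImplicit false

namespace Pool.Agent.Work.MP_fcea8e_co.Typ

open Finset Pool.Agent.Work.MP_fcea8e_co.Dom

variable {V : Type} {E : V → V → Prop} {G : Finset V} {K l : ℕ}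

theorem lay_succ_sub (t : ℕ) (i : ℤ) : lay E G K l (t + 1) i ⊆ lay E G K l t i := by
  rw [lay]
  exact filter_subset _ _

theorem lay_anti {s t : ℕ} (h : t ≤ s) (i : ℤ) : lay E G K l s i ⊆ lay E G K l t i := by
  induction s, h using Nat.le_induction with
  | base => exact Subset.rfl
  | succ s _ ih => exact (lay_succ_sub s i).trans ih

theorem lay_sub (t : ℕ) (i : ℤ) : lay E G K l t i ⊆ G := by
  have h := lay_anti (E := E) (G := G) (K := K) (l := l) (Nat.zero_le t) i
  rw [lay.eq_1] at h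
  exact h

theorem top_sub (i : ℤ) : top E G K l i ⊆ G := by
  classical
  intro v hv
  unfold top at hv
  rw [mem_filter] at hv
  exact hv.1

theorem top_sub_lay (t : ℕ) (i : ℤ) : top E G K l i ⊆ lay E G K l t i := by
  classical
  intro v hv
  unfold top at hv
  rw [mem_filter] at hv
  exact hv.2 t

theorem exists_stable : ∃ t, ∀ i : ℤ, -(l : ℤ) ≤ i → i ≤ l →
    lay E G K l t i = top E G K l i := by
  classical
  have hex : ∀ (v : V) (i : ℤ), ∃ t : ℕ, (∃ t, v ∉ lay E G K l t i) → v ∉ lay E G K l t i := by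
    intro v i
    by_cases h : ∃ t, v ∉ lay E G K l t i
    · exact ⟨h.choose, fun _ => h.choose_spec⟩
    · exact ⟨0, fun h' => absurd h' h⟩
  choose τ hτ using hex
  refine ⟨(G ×ˢ Finset.Icc (-(l : ℤ)) (l : ℤ)).sup fun p => τ p.1 p.2, fun i h1 h2 => ?_⟩
  refine Subset.antisymm ?_ (top_sub_lay _ i)
  intro v hv
  have hvG := lay_sub _ i hv
  unfold top
  rw [mem_filter]
  refine ⟨hvG, fun t => ?_⟩
  by_contra hcon
  have h3 := hτ v i ⟨t, hcon⟩
  have h4 : τ v i ≤ (G ×ˢ Finset.Icc (-(l : ℤ)) (l : ℤ)).sup fun p => τ p.1 p.2 :=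
    Finset.le_sup (f := fun p : V × ℤ => τ p.1 p.2)
      (mem_product.2 ⟨hvG, Finset.mem_Icc.2 ⟨h1, h2⟩⟩ : (v, i) ∈ _)
  exact h3 (lay_anti h4 i hv)

theorem top_out {i : ℤ} {v : V} (hv : v ∈ top E G K l i) (h1 : -(l : ℤ) ≤ i) (h2 : i < l) :
    K ≤ (outs E (top E G K l (i + 1)) v).card := by
  obtain ⟨t, ht⟩ := exists_stable (E := E) (G := G) (K := K) (l := l)
  have h3 := top_sub_lay (t + 1) i hv
  rw [lay, mem_filter] at h3
  rw [← ht (i + 1) (by omega) (by omega)]
  exact h3.2.1 h2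

theorem top_in {i : ℤ} {v : V} (hv : v ∈ top E G K l i) (h1 : -(l : ℤ) < i) (h2 : i ≤ l) :
    K ≤ (ins E (top E G K l (i - 1)) v).card := by
  obtain ⟨t, ht⟩ := exists_stable (E := E) (G := G) (K := K) (l := l)
  have h3 := top_sub_lay (t + 1) i hv
  rw [lay, mem_filter] at h3
  rw [← ht (i - 1) (by omega) (by omega)]
  exact h3.2.2 h1

theorem rout_or_rin {i : ℤ} {v : V} (hv : v ∈ G) (h : v ∉ top E G K l i) :
    ROut E G K l i v ∨ RIn E G K l i v := by
  classical
  have h0 : ∃ t, v ∉ lay E G K l t i := by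
    by_contra hcon
    push Not at hcon
    apply h
    unfold top
    rw [mem_filter]
    exact ⟨hv, hcon⟩
  obtain ⟨s, hs⟩ : ∃ s, Nat.find h0 = s := ⟨_, rfl⟩
  have hs1 := Nat.find_spec h0
  rw [hs] at hs1
  rcases s with _ | s
  · exact absurd hv hs1
  · have hs2 : v ∈ lay E G K l s i := by
      have h1 := Nat.find_min h0 (m := s) (by omega)
      exact not_not.1 h1
    rw [lay, mem_filter] at hs1
    have h2 : ¬ ((i < l → K ≤ (outs E (lay E G K l s (i + 1)) v).card) ∧
        (-(l : ℤ) < i → K ≤ (ins E (lay E G K l s (i - 1)) v).card)) :=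
      fun h3 => hs1 ⟨hs2, h3⟩
    by_cases h3 : i < l → K ≤ (outs E (lay E G K l s (i + 1)) v).card
    · right
      have h4 : ¬ (-(l : ℤ) < i → K ≤ (ins E (lay E G K l s (i - 1)) v).card) :=
        fun h5 => h2 ⟨h3, h5⟩
      push Not at h4
      exact ⟨s, hs2, h4.1, h4.2⟩
    · left
      push Not at h3
      exact ⟨s, hs2, h3.1, h3.2⟩

end Pool.Agent.Work.MP_fcea8e_co.Typ
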