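import Pool.Agent.Work.MP_fcea8e_co.Typ.LayBase
import Pool.Agent.Work.MP_fcea8e_co.Typ.Charge

/-!
# Module LayClass (M): the key lemma on the deleted vertices

Proof. Let `Y` be the set. For `x ∈ Y` let `t x` be a time with `x ∈ lay (t x) (i - 1)` and
`|outs E (lay (t x) i) x| < K` (from `ROut (i - 1) x`; `i - 1 + 1 = i`). Let `P x y` be
`y ∈ lay (t x) i`. `cb_of_charge` with `d = K - 1`:
`h1`: for `x ∈ Y` the `y` with `E x y ∧ P x y` are in `outs E (lay (t x) i) x`, so fewer than `K`.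
`h2`: let `y ∈ Y` and let `x₀ ∈ Y` with `E x₀ y`, `y ∉ lay (t x₀) i` (if there is none the set is
empty). Then `y ∉ top i` (`top_sub_lay`), so `RIn i y` by `rout_or_rin` and `¬ ROut i y`: there is `s`
with `y ∈ lay s i` and `|ins E (lay s (i - 1)) y| < K`. For every `x ∈ Y` with `E x y` and
`y ∉ lay (t x) i` we have `s < t x` (otherwise `y ∈ lay s i ⊆ lay (t x) i` by `lay_anti`), so
`x ∈ lay (t x) (i - 1) ⊆ lay s (i - 1)`. Hence all these `x` are in `ins E (lay s (i - 1)) y`.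
-/

set_option autoImplicit false

namespace Pool.Agent.Work.MP_fcea8e_co.Typ

open Finset Pool.Agent.Work.MP_fcea8e_co.Dom

open Classical in
theorem cb_class {V : Type} {E : V → V → Prop} (hE : Asym E) {G : Finset V} {K l : ℕ}
    (hK : 1 ≤ K) (i : ℤ) :
    CB E (G.filter (fun v => ROut E G K l (i - 1) v ∧ ¬ ROut E G K l i v))
      (4 * (K - 1) + 1) := by
  have hex : ∀ x : V, ∃ t : ℕ, ROut E G K l (i - 1) x →
      x ∈ lay E G K l t (i - 1) ∧ (outs E (lay E G K l t i) x).card < K := by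
    intro x
    by_cases h : ROut E G K l (i - 1) x
    · obtain ⟨t, h1, -, h3⟩ := h
      rw [sub_add_cancel] at h3
      exact ⟨t, fun _ => ⟨h1, h3⟩⟩
    · exact ⟨0, fun h' => absurd h' h⟩
  choose t ht using hex
  obtain ⟨P, hP⟩ : ∃ P : V → V → Prop, ∀ x y, P x y ↔ y ∈ lay E G K l (t x) i :=
    ⟨fun x y => y ∈ lay E G K l (t x) i, fun _ _ => Iff.rfl⟩
  refine cb_of_charge hE P (K - 1) _ ?_ ?_
  · intro x hx
    obtain ⟨-, hx1, -⟩ := mem_filter.mp hx
    obtain ⟨-, h2⟩ := ht x hx1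
    refine Nat.le_sub_one_of_lt (lt_of_le_of_lt
      (card_le_card (t := outs E (lay E G K l (t x) i) x) ?_) h2)
    intro y hy
    rw [mem_filter] at hy
    obtain ⟨-, h3, h4⟩ := hy
    exact mem_filter.mpr ⟨(hP x y).mp h4, h3⟩
  · intro y hy
    obtain ⟨hyG, -, hy2⟩ := mem_filter.mp hy
    by_cases hex : ∃ x0, E x0 y ∧ ¬ P x0 y
    · obtain ⟨x0, -, h1⟩ := hex
      have h2 : y ∉ top E G K l i := fun hc => h1 ((hP x0 y).mpr (top_sub_lay _ _ hc))
      obtain ⟨s, h3, -, h4⟩ := (rout_or_rin hyG h2).resolve_left hy2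
      refine Nat.le_sub_one_of_lt (lt_of_le_of_lt
        (card_le_card (t := ins E (lay E G K l s (i - 1)) y) ?_) h4)
      intro x hx
      rw [mem_filter] at hx
      obtain ⟨hxY, h5, h6⟩ := hx
      obtain ⟨-, h7, -⟩ := mem_filter.mp hxY
      have h8 : s ≤ t x := by
        by_contra hc
        push Not at hc
        exact h6 ((hP x y).mpr (lay_anti hc.le i h3))
      exact mem_filter.mpr ⟨lay_anti h8 (i - 1) (ht x h7).1, h5⟩
    · refine (card_le_card (t := (∅ : Finset V)) ?_).trans (by simp)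
      intro x hx
      rw [mem_filter] at hx
      obtain ⟨-, h5, h6⟩ := hx
      exact absurd ⟨x, h5, h6⟩ hex

end Pool.Agent.Work.MP_fcea8e_co.Typ
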