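import Pool.Agent.Work.MP_fcea8e_co.Typ.Defs

/-!
# Module LayRev (S): reversing all arcs

Proofs. `lay_rev`: induction on `t` (for all `i`): `outs` and `ins` are exchanged
(`outs (fun a b => E b a) S v = ins E S v`, by definition), `-(i + 1) = -i - 1`, `-(i - 1) = -i + 1`,
`i < l ↔ -l < -i`; the two conditions of the filter are exchanged. `top_rev`, `rout_rev` follow.
-/

set_option autoImplicit false

namespace Pool.Agent.Work.MP_fcea8e_co.Typ

open Finset Pool.Agent.Work.MP_fcea8e_co.Dom

variable {V : Type} (E : V → V → Prop) (G : Finset V) (K l : ℕ)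

theorem lay_rev (t : ℕ) (i : ℤ) :
    lay (fun a b => E b a) G K l t i = lay E G K l t (-i) := by
  classical
  induction t generalizing i with
  | zero => rfl
  | succ t ih =>
    ext v
    simp only [lay, Finset.mem_filter]
    rw [ih i, ih (i + 1), ih (i - 1)]
    have e1 : -(i + 1) = -i - 1 := by ring
    have e2 : -(i - 1) = -i + 1 := by ring
    rw [e1, e2]
    have o1 : outs (fun a b => E b a) (lay E G K l t (-i - 1)) v =
        ins E (lay E G K l t (-i - 1)) v := rfl
    have o2 : ins (fun a b => E b a) (lay E G K l t (-i + 1)) v =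
        outs E (lay E G K l t (-i + 1)) v := rfl
    rw [o1, o2]
    constructor
    · rintro ⟨h1, h2, h3⟩
      exact ⟨h1, fun h => h3 (by omega), fun h => h2 (by omega)⟩
    · rintro ⟨h1, h2, h3⟩
      exact ⟨h1, fun h => h3 (by omega), fun h => h2 (by omega)⟩

theorem top_rev (i : ℤ) : top (fun a b => E b a) G K l i = top E G K l (-i) := by
  classical
  ext v
  unfold top
  rw [Finset.mem_filter, Finset.mem_filter]
  refine and_congr_right (fun _ => forall_congr' (fun t => ?_))
  rw [lay_rev E G K l t i]

theorem rout_rev (i : ℤ) (v : V) :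
    ROut (fun a b => E b a) G K l i v ↔ RIn E G K l (-i) v := by
  unfold ROut RIn
  refine exists_congr (fun t => ?_)
  rw [lay_rev E G K l t i, lay_rev E G K l t (i + 1)]
  have e1 : -(i + 1) = -i - 1 := by ring
  rw [e1]
  have o1 : outs (fun a b => E b a) (lay E G K l t (-i - 1)) v =
      ins E (lay E G K l t (-i - 1)) v := rfl
  rw [o1]
  constructor
  · rintro ⟨h1, h2, h3⟩
    exact ⟨h1, by omega, h3⟩
  · rintro ⟨h1, h2, h3⟩
    exact ⟨h1, by omega, h3⟩

end Pool.Agent.Work.MP_fcea8e_co.Typ
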