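import Pool.Agent.Work.MP_fcea8e_co.Typ.Col
import Pool.Agent.Work.MP_fcea8e_co.Typ.LayRev
import Pool.Agent.Work.MP_fcea8e_co.Typ.LayClass

/-!
# Module LayMain (M): the layer lemma

Proof. Let `v ∈ G \ top 0`. By `rout_or_rin`, `ROut 0 v` or `RIn 0 v`. In the first case let
`i ∈ {1, ..., l}` be minimal with `¬ ROut i v` (it exists because `ROut l v` is impossible: it
contains `l < l`; so `l ≥ 1`); then `ROut (i - 1) v ∧ ¬ ROut i v`. So
`cb_out`: the set of `v ∈ G` with `ROut 0 v` is contained in the union of the `l` sets of `cb_class`,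
`i = 1, ..., l` (`cb_biUnion` over `Finset.range l`, `i = j + 1`), and is coloured with
`l (4 (K - 1) + 1)` colours. In the second case use `cb_out` for the reversed relation and `rout_rev`
(`-0 = 0`); a colouring for the reversed relation is a colouring for `E`. Finally `cb_union` and
`l (4 (K - 1) + 1) + l (4 (K - 1) + 1) ≤ 8 l K` (`K ≥ 1`).
-/

set_option autoImplicit false

namespace Pool.Agent.Work.MP_fcea8e_co.Typ

open Finset Pool.Agent.Work.MP_fcea8e_co.Dom

open Classical in
theorem cb_out {V : Type} {E : V → V → Prop} (hE : Asym E) {G : Finset V} {K l : ℕ}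
    (hK : 1 ≤ K) : CB E (G.filter (fun v => ROut E G K l 0 v)) (l * (4 * (K - 1) + 1)) := by
  have hU := cb_biUnion (E := E) (Finset.range l)
    (fun j : ℕ => G.filter (fun v => ROut E G K l (((j : ℤ) + 1) - 1) v ∧
      ¬ ROut E G K l ((j : ℤ) + 1) v)) (4 * (K - 1) + 1)
    (fun j _ => cb_class hE hK ((j : ℤ) + 1))
  rw [Finset.card_range] at hU
  refine cb_mono hU ?_ le_rfl
  intro v hv
  rw [Finset.mem_filter] at hv
  obtain ⟨hvG, hv0⟩ := hv
  -- minimal `i`
  have hex : ∃ i : ℕ, ¬ ROut E G K l (i : ℤ) v := by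
    refine ⟨l, ?_⟩
    rintro ⟨t, -, h, -⟩
    exact lt_irrefl _ h
  have hl : ¬ ROut E G K l (l : ℤ) v := by
    rintro ⟨t, -, h, -⟩
    exact lt_irrefl _ h
  have hspec := Nat.find_spec hex
  have hle : Nat.find hex ≤ l := Nat.find_min' hex hl
  have hpos : Nat.find hex ≠ 0 := by
    intro h0
    rw [h0] at hspec
    exact hspec (by simpa using hv0)
  obtain ⟨j, hj⟩ := Nat.exists_eq_succ_of_ne_zero hpos
  have hjlt : j < Nat.find hex := by omega
  have hjR : ROut E G K l (j : ℤ) v := by
    by_contra hcon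
    exact Nat.find_min hex hjlt hcon
  rw [hj] at hspec
  rw [Finset.mem_biUnion]
  refine ⟨j, Finset.mem_range.2 (by omega), ?_⟩
  rw [Finset.mem_filter]
  refine ⟨hvG, ?_, ?_⟩
  · have : ((j : ℤ) + 1) - 1 = (j : ℤ) := by ring
    rw [this]
    exact hjR
  · have : ((j.succ : ℕ) : ℤ) = (j : ℤ) + 1 := by push_cast; rfl
    rw [this] at hspec
    exact hspec

open Classical in
/-- The layer lemma: the vertices which are not in the final layer `0` can be coloured with
`8 l K` colours. -/
theorem layer_col {V : Type} {E : V → V → Prop} (hE : Asym E) (G : Finset V) {K : ℕ} (l : ℕ)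
    (hK : 1 ≤ K) : CB E (G \ top E G K l 0) (8 * l * K) := by
  have h1 := cb_out (l := l) (G := G) hE hK
  have hE' : Asym (fun a b => E b a) := fun a b hab hba => hE a b hba hab
  have h2' := cb_out (l := l) (G := G) hE' hK
  have h2 : CB E (G.filter (fun v => RIn E G K l 0 v)) (l * (4 * (K - 1) + 1)) := by
    obtain ⟨c, hc1, hc2⟩ := h2'
    have hiff : ∀ v, ROut (fun a b => E b a) G K l 0 v ↔ RIn E G K l 0 v := by
      intro v
      have := rout_rev E G K l 0 v
      rwa [neg_zero] at this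
    refine ⟨c, ?_, ?_⟩
    · intro x hx
      rw [Finset.mem_filter] at hx
      exact hc1 x (Finset.mem_filter.2 ⟨hx.1, (hiff x).2 hx.2⟩)
    · intro x hx y hy hxy
      rw [Finset.mem_filter] at hx hy
      exact (hc2 y (Finset.mem_filter.2 ⟨hy.1, (hiff y).2 hy.2⟩) x
        (Finset.mem_filter.2 ⟨hx.1, (hiff x).2 hx.2⟩) hxy).symm
  refine cb_mono (cb_union h1 h2) ?_ ?_
  · intro v hv
    rw [Finset.mem_sdiff] at hv
    rw [Finset.mem_union, Finset.mem_filter, Finset.mem_filter]
    rcases rout_or_rin hv.1 hv.2 with h | h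
    · exact Or.inl ⟨hv.1, h⟩
    · exact Or.inr ⟨hv.1, h⟩
  · obtain ⟨k, rfl⟩ := Nat.exists_eq_add_of_le hK
    have : 1 + k - 1 = k := by omega
    rw [this]
    nlinarith [Nat.zero_le (l * k), Nat.zero_le l]

end Pool.Agent.Work.MP_fcea8e_co.Typ
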