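import Pool.Agent.Work.MP_fcea8e_co.Typ.Local

/-!
# Module Lip (M-L): changing one coordinate

Proofs. `anc_card`: for `z : V` the number of `v` with `z ∈ desc f v` and `|desc f v| ≤ L` is at most `L`: such a
`v` is `f^[j] z` with `j = dp f v z < |desc f v| ≤ L` (`iter_dp`, `dp_lt_card`), so the set is contained in
the image of `range L` under `j ↦ f^[j] z`.
`term_eq`: let `f' = update f x y`, `e'` equal to `e` outside of `x`, and let `v = x`, or
(`x ∉ desc f v` and `y ∉ desc f v`). Then `desc f' v = desc f v` and `mx f' e' v = mx f e v`. Case `v = x`: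
`f` and `f'` agree except at `v`; `loc_mem` (twice, in both directions) gives `desc f' v = desc f v`, then
`loc_mx`. Case `v ≠ x`: `f` and `f'` agree on `desc f v` (it does not contain `x`), so `desc f v ⊆ desc f' v`
(`loc_mem`) and it remains to see `desc f' v ⊆ desc f v`: let `w ∈ desc f' v`, by induction on
`dp f' v w` (or on `n` with `f'^[n] w = v`): if `w = v` fine; if `w = x` then `f' w = y`, and `y ∈ desc f v` by
the induction hypothesis, a contradiction; otherwise `f' w = f w`, `f w ∈ desc f v`, so
`w ∈ desc f v`.
`xl_lip`: let `ω' = update ω x (y, b)`. Let `T ω v` be the term of `v` in `XL`, `0 ≤ T ω v ≤ L`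
(`mx_lt_card`-type: `mx ≤ hgt < |desc| ≤ L` by `mx_le_hgt`, `hgt_lt_card`). If `T ω v > T ω' v` then
`|desc f v| ≤ L` and `term_eq` fails, so `v ≠ x` and (`x ∈ desc f v` or `y ∈ desc f v`); there are at most
`2 L` such `v` (`anc_card`). So `XL ω ≤ XL ω' + 2 L * L`. The other inequality by symmetry:
`ω = update ω' x (ω x)`.
-/

set_option autoImplicit false

namespace Pool.Agent.Work.MP_fcea8e_co.Typ

open Finset

open Classical in
theorem anc_card {V : Type} [Fintype V] (f : V → V) (z : V) (L : ℕ) :
    (univ.filter (fun v => z ∈ desc f v ∧ (desc f v).card ≤ L)).card ≤ L := by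
  have hsub : univ.filter (fun v => z ∈ desc f v ∧ (desc f v).card ≤ L) ⊆
      (range L).image (fun j => f^[j] z) := by
    intro v hv
    obtain ⟨-, h1, h2⟩ := mem_filter.mp hv
    refine mem_image.mpr ⟨dp f v z, mem_range.mpr ?_, iter_dp h1⟩
    exact lt_of_lt_of_le (dp_lt_card h1) h2
  refine (card_le_card hsub).trans (card_image_le.trans ?_)
  rw [card_range]

open Classical in
theorem term_eq {V : Type} [Fintype V] (f : V → V) (e e' : V → Bool) (x y v : V)
    (he : ∀ z, z ≠ x → e z = e' z) (h : v = x ∨ (x ∉ desc f v ∧ y ∉ desc f v)) :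
    desc (Function.update f x y) v = desc f v ∧
      mx (Function.update f x y) e' v = mx f e v := by
  have hup : ∀ z, z ≠ x → Function.update f x y z = f z := fun z hz =>
    Function.update_of_ne hz y f
  have h1 : ∀ z ∈ desc f v, z ≠ v → z ≠ x := by
    intro z hz hzv hzx
    rcases h with h | h
    · exact hzv (hzx.trans h.symm)
    · exact h.1 (hzx ▸ hz)
  have h2 : ∀ z ∈ desc f v, z ≠ v → f z = Function.update f x y z := fun z hz hzv =>
    (hup z (h1 z hz hzv)).symm
  have hd : desc (Function.update f x y) v = desc f v := by
    refine Subset.antisymm ?_ (fun w hw => loc_mem h2 hw)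
    rcases h with h | h
    · intro w hw
      refine loc_mem (f := Function.update f x y) (g := f) ?_ hw
      intro z _ hzv
      exact hup z (fun hzx => hzv (hzx.trans h.symm))
    · have key : ∀ (n : ℕ) (w : V), (Function.update f x y)^[n] w = v → w ∈ desc f v := by
        intro n
        induction n with
        | zero =>
          intro w hw
          have : w = v := hw
          rw [this]
          exact self_mem_desc
        | succ n ih =>
          intro w hw
          rw [Function.iterate_succ_apply] at hw
          have h3 := ih _ hw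
          by_cases hwx : w = x
          · exfalso
            rw [hwx, Function.update_self] at h3
            exact h.2 h3
          · rw [hup w hwx] at h3
            by_contra hc
            exact out_desc hc h3
      intro w hw
      obtain ⟨n, hn⟩ := mem_desc.mp hw
      exact key n w hn
  refine ⟨hd, loc_mx h2 (fun z hz hzv => he z (h1 z hz hzv)) hd⟩

open Classical in
private theorem lip_aux {V : Type} [Fintype V] (L : ℕ) (ω : V → V × Bool) (x : V) (a : V × Bool) :
    XL L ω ≤ XL L (Function.update ω x a) + 2 * L * L := by
  have hf : (fun z => (Function.update ω x a z).1) =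
      Function.update (fun z => (ω z).1) x a.1 := by
    funext z
    by_cases hz : z = x
    · subst hz
      simp
    · rw [Function.update_of_ne hz, Function.update_of_ne hz]
  have he : ∀ z, z ≠ x → (fun z => (ω z).2) z = (fun z => (Function.update ω x a z).2) z := by
    intro z hz
    show (ω z).2 = (Function.update ω x a z).2
    rw [Function.update_of_ne hz]
  set f : V → V := fun z => (ω z).1 with hfdef
  set Bad : Finset V := univ.filter (fun v => (x ∈ desc f v ∨ a.1 ∈ desc f v) ∧
    (desc f v).card ≤ L) with hBad
  have hBc : Bad.card ≤ 2 * L := by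
    have hsub : Bad ⊆ univ.filter (fun v => x ∈ desc f v ∧ (desc f v).card ≤ L) ∪
        univ.filter (fun v => a.1 ∈ desc f v ∧ (desc f v).card ≤ L) := by
      intro v hv
      obtain ⟨-, h1, h2⟩ := mem_filter.mp hv
      rcases h1 with h1 | h1
      · exact mem_union_left _ (mem_filter.mpr ⟨mem_univ _, h1, h2⟩)
      · exact mem_union_right _ (mem_filter.mpr ⟨mem_univ _, h1, h2⟩)
    have := (card_le_card hsub).trans (card_union_le _ _)
    have h3 := anc_card f x L
    have h4 := anc_card f a.1 L
    omega
  have hterm : ∀ v ∈ (univ : Finset V), (if (desc f v).card ≤ L then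
      mx f (fun z => (ω z).2) v else 0) ≤
      (if (desc (fun z => (Function.update ω x a z).1) v).card ≤ L then
        mx (fun z => (Function.update ω x a z).1) (fun z => (Function.update ω x a z).2) v
        else 0) + (if v ∈ Bad then L else 0) := by
    intro v _
    by_cases hL : (desc f v).card ≤ L
    · by_cases hb : v ∈ Bad
      · rw [if_pos hL, if_pos hb]
        have h1 : mx f (fun z => (ω z).2) v ≤ hgt f v := mx_le_hgt _
        have h2 : hgt f v < (desc f v).card := hgt_lt_card
        omega
      · have hb2 : x ∉ desc f v ∧ a.1 ∉ desc f v := by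
          constructor
          · intro hc
            exact hb (mem_filter.mpr ⟨mem_univ _, Or.inl hc, hL⟩)
          · intro hc
            exact hb (mem_filter.mpr ⟨mem_univ _, Or.inr hc, hL⟩)
        obtain ⟨h1, h2⟩ := term_eq f (fun z => (ω z).2)
          (fun z => (Function.update ω x a z).2) x a.1 v he (Or.inr hb2)
        rw [hf, h1, h2]
        exact Nat.le_add_right _ _
    · rw [if_neg hL]
      exact Nat.zero_le _
  have hsum := sum_le_sum hterm
  rw [sum_add_distrib] at hsum
  have h5 : ∑ v, (if v ∈ Bad then L else 0) = Bad.card * L := by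
    rw [← sum_filter]
    simp
  rw [h5] at hsum
  have h6 : Bad.card * L ≤ 2 * L * L := Nat.mul_le_mul_right L hBc
  exact hsum.trans (Nat.add_le_add_left h6 _)

open Classical in
theorem xl_lip {V : Type} [Fintype V] (L : ℕ) (ω : V → V × Bool) (x : V) (a : V × Bool) :
    XL L (Function.update ω x a) ≤ XL L ω + 2 * L * L ∧
      XL L ω ≤ XL L (Function.update ω x a) + 2 * L * L := by
  refine ⟨?_, lip_aux L ω x a⟩
  have h := lip_aux L (Function.update ω x a) x (ω x)
  rw [Function.update_idem, Function.update_eq_self] at h
  exact h

end Pool.Agent.Work.MP_fcea8e_co.Typ
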