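import Pool.Agent.Work.MP_fcea8e_co.Typ.SignSum

/-!
# Module MaxSum (S-M): the mean of the maximal height

Proof. For every `e` there is `w₀ ∈ desc f v` with `mx f e v = |rh f e v w₀|`
(`Finset.exists_mem_eq_sup`, nonempty by `self_mem_desc`). With `y = lam * mx f e v`:
`y ≤ a + exp (y - a)` (`Real.add_one_le_exp`), and
`exp y = exp (lam * |rh w₀|) ≤ exp (lam * rh w₀) + exp (-lam * rh w₀) ≤
∑_{w ∈ desc f v} (exp (lam * rh w) + exp (-lam * rh w))`. Sum over `e` and use `sign_sum` for `lam` and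
`-lam` (`Real.cosh_neg`): `∑_e exp y ≤ 2 * 2 ^ |V| * ∑_w cosh lam ^ dp`. Divide by `lam`;
the number of `e` is `2 ^ |V|`.
-/

set_option autoImplicit false

namespace Pool.Agent.Work.MP_fcea8e_co.Typ

open Finset

open Classical in
theorem max_sum {V : Type} [Fintype V] (f : V → V) (v : V) {lam : ℝ} (hl : 0 < lam) (a : ℝ) :
    ∑ e : V → Bool, (mx f e v : ℝ) ≤ 2 ^ Fintype.card V * lam⁻¹ *
      (a + 2 * Real.exp (-a) * ∑ w ∈ desc f v, Real.cosh lam ^ dp f v w) := by
  have key : ∀ e : V → Bool, lam * (mx f e v : ℝ) ≤ a + Real.exp (-a) *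
      ∑ w ∈ desc f v, (Real.exp (lam * (rh f e v w : ℤ)) +
        Real.exp (-lam * (rh f e v w : ℤ))) := by
    intro e
    obtain ⟨w₀, hw₀, he⟩ := exists_mem_eq_sup (desc f v) ⟨v, self_mem_desc⟩
      (fun w => (rh f e v w).natAbs)
    have h0 : mx f e v = (rh f e v w₀).natAbs := he
    have h1 : Real.exp (lam * mx f e v) ≤ ∑ w ∈ desc f v,
        (Real.exp (lam * (rh f e v w : ℤ)) + Real.exp (-lam * (rh f e v w : ℤ))) := by
      refine le_trans ?_ (single_le_sum (f := fun w => Real.exp (lam * (rh f e v w : ℤ)) +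
        Real.exp (-lam * (rh f e v w : ℤ)))
        (fun w _ => add_nonneg (Real.exp_pos _).le (Real.exp_pos _).le) hw₀)
      have h5 : ((rh f e v w₀).natAbs : ℝ) = |((rh f e v w₀ : ℤ) : ℝ)| := by
        rw [Nat.cast_natAbs, Int.cast_abs]
      rw [h0, h5]
      rcases abs_cases ((rh f e v w₀ : ℤ) : ℝ) with h | h
      · rw [h.1]
        have := (Real.exp_pos (-lam * (rh f e v w₀ : ℤ))).le
        linarith
      · rw [h.1]
        have h6 : lam * -((rh f e v w₀ : ℤ) : ℝ) = -lam * (rh f e v w₀ : ℤ) := by ring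
        rw [h6]
        have := (Real.exp_pos (lam * (rh f e v w₀ : ℤ))).le
        linarith
    have h2 := Real.add_one_le_exp (lam * mx f e v - a)
    rw [sub_eq_add_neg, Real.exp_add, mul_comm (Real.exp (lam * mx f e v))] at h2
    have h3 := mul_le_mul_of_nonneg_left h1 (Real.exp_pos (-a)).le
    linarith
  have hsum := sum_le_sum (fun e (_ : e ∈ (univ : Finset (V → Bool))) => key e)
  rw [← mul_sum, sum_add_distrib, sum_const, card_univ, Fintype.card_fun,
    Fintype.card_bool, ← mul_sum, sum_comm, nsmul_eq_mul] at hsum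
  have hin : ∀ w ∈ desc f v, ∑ e : V → Bool, (Real.exp (lam * (rh f e v w : ℤ)) +
      Real.exp (-lam * (rh f e v w : ℤ))) =
      2 * (2 ^ Fintype.card V * Real.cosh lam ^ dp f v w) := by
    intro w hw
    rw [sum_add_distrib, sign_sum hw lam, sign_sum hw (-lam), Real.cosh_neg]
    ring
  rw [sum_congr rfl hin] at hsum
  rw [mul_assoc, mul_left_comm, inv_mul_eq_div, le_div_iff₀ hl, mul_comm]
  refine hsum.trans (le_of_eq ?_)
  rw [← mul_sum, ← mul_sum]
  push_cast
  ring

end Pool.Agent.Work.MP_fcea8e_co.Typ
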