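import Mathlib

/-!
# Module McD (M): McDiarmid inequality on a finite product space

Proofs. `exp_le`: `exp x ≤ x + exp (x ^ 2)` for all real `x` (for `x ≤ 0` or small: known elementary
inequality; e.g. for `|x| ≤ 1`, `exp x ≤ 1 + x + x ^ 2` (`Real.abs_exp_sub_one_sub_id_le`) and
`1 + x ^ 2 ≤ exp (x ^ 2)`; for `x ≥ 1`, `exp x ≤ exp (x ^ 2)`; for `x ≤ -1`, `exp x ≤ 1 + x + x ^ 2` as well, because
`exp x ≤ 1` and `x + x ^ 2 ≥ 0`). `mean_exp`: for `X : α → ℝ` with sum `0` and `|X a| ≤ c`,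
`∑_a exp (s X a) ≤ |α| exp (s ^ 2 c ^ 2)`.
`mgf`: induction on `n` for functions `F : (Fin n → α) → ℝ` which change by at most `c` when one
coordinate is changed, with mean `μ` (`|α|^n μ = ∑ F`): `∑_ω exp (s (F ω - μ)) ≤ |α|^n exp (n s ^ 2 c ^ 2)`.
Step: `Fin (n + 1) → α ≃ α × (Fin n → α)` (`Fin.consEquiv` / `Fin.cons`); let `F' ω = (∑_a F (cons a ω)) / |α|`,
which again changes by at most `c`. For fixed `ω`, `X a = F (cons a ω) - F' ω` has sum `0` and `|X a| ≤ c`
(average of differences which are at most `c`), so `∑_a exp (s X a) ≤ |α| exp (s ^ 2 c ^ 2)`; multiply by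
`exp (s (F' ω - μ))` and sum over `ω`.
`mcd`: transport `ι ≃ Fin |ι|` (`Fintype.equivFin`, `Equiv.arrowCongr`). With `n = |ι| ≥ 1`,
`s = t / (2 n c ^ 2)` (`c > 0`): every `ω` with `F ω ≥ μ + t` has `exp (s (F ω - μ)) ≥ exp (s t)`, so the number
`N` of them satisfies `N exp (s t) ≤ |α|^n exp (n s ^ 2 c ^ 2)`, and `s t - n s ^ 2 c ^ 2 = t ^ 2 / (4 n c ^ 2)`.
-/

set_option autoImplicit false

namespace Pool.Agent.Work.MP_fcea8e_co.Typ

open Finset

private theorem exp_le' (x : ℝ) : Real.exp x ≤ x + Real.exp (x ^ 2) := by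
  have h1 : x ^ 2 + 1 ≤ Real.exp (x ^ 2) := Real.add_one_le_exp (x ^ 2)
  rcases le_total 1 x with h | h
  · have h2 : Real.exp x ≤ Real.exp (x ^ 2) := Real.exp_le_exp.2 (by nlinarith)
    linarith
  · rcases le_total (-1) x with h' | h'
    · have h2 : |Real.exp x - 1 - x| ≤ x ^ 2 := Real.abs_exp_sub_one_sub_id_le (abs_le.2 ⟨h', h⟩)
      have h3 := (abs_le.1 h2).2
      linarith
    · have h2 : Real.exp x ≤ 1 := Real.exp_le_one_iff.2 (by linarith)
      nlinarith

private theorem mean_exp {α : Type} [Fintype α] (X : α → ℝ) {c s : ℝ} (h0 : ∑ a, X a = 0)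
    (hX : ∀ a, |X a| ≤ c) :
    ∑ a, Real.exp (s * X a) ≤ Fintype.card α * Real.exp (s ^ 2 * c ^ 2) := by
  calc ∑ a, Real.exp (s * X a) ≤ ∑ a, (s * X a + Real.exp (s ^ 2 * c ^ 2)) := by
        apply sum_le_sum
        intro a _
        refine (exp_le' _).trans (add_le_add_right (Real.exp_le_exp.2 ?_) _)
        rw [mul_pow]
        apply mul_le_mul_of_nonneg_left _ (sq_nonneg s)
        exact sq_le_sq' (by linarith [(abs_le.1 (hX a)).1]) (abs_le.1 (hX a)).2
    _ = Fintype.card α * Real.exp (s ^ 2 * c ^ 2) := by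
        rw [sum_add_distrib, ← mul_sum, h0, mul_zero, zero_add, sum_const, card_univ, nsmul_eq_mul]

private theorem mgf {α : Type} [Fintype α] [Nonempty α] {c s : ℝ} (n : ℕ) :
    ∀ F : (Fin n → α) → ℝ, (∀ ω x a, |F (Function.update ω x a) - F ω| ≤ c) →
    ∑ ω, Real.exp (s * F ω) ≤ (Fintype.card α : ℝ) ^ n *
      Real.exp (s * ((∑ ω, F ω) / (Fintype.card α : ℝ) ^ n) + n * (s ^ 2 * c ^ 2)) := by
  have hα : (0 : ℝ) < Fintype.card α := by exact_mod_cast Fintype.card_pos
  induction n with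
  | zero =>
    intro F _
    simp
  | succ n ih =>
    intro F hF
    set A : ℝ := (Fintype.card α : ℝ) with hA
    set F' : (Fin n → α) → ℝ := fun ω => (∑ a, F (Fin.cons a ω)) / A with hF'
    have hsum : ∀ G : (Fin (n + 1) → α) → ℝ, ∑ ω, G ω = ∑ ω : Fin n → α, ∑ a, G (Fin.cons a ω) := by
      intro G
      rw [← (Fin.consEquiv (fun _ : Fin (n + 1) => α)).sum_comp, Fintype.sum_prod_type_right]
      rfl
    have hF'b : ∀ ω x a, |F' (Function.update ω x a) - F' ω| ≤ c := by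
      intro ω x a
      have h1 : F' (Function.update ω x a) - F' ω =
          (∑ b, (F (Fin.cons b (Function.update ω x a)) - F (Fin.cons b ω))) / A := by
        rw [hF', sum_sub_distrib]
        ring
      rw [h1, abs_div, abs_of_pos hα, div_le_iff₀ hα]
      refine (abs_sum_le_sum_abs _ _).trans ?_
      calc _ ≤ ∑ _b : α, c := by
            apply sum_le_sum
            intro b _
            rw [Fin.cons_update]
            exact hF _ _ _
        _ = c * A := by rw [sum_const, card_univ, nsmul_eq_mul]; ring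
    have hX : ∀ (ω : Fin n → α) (a : α), |F (Fin.cons a ω) - F' ω| ≤ c := by
      intro ω a
      have h1 : F (Fin.cons a ω) - F' ω = (∑ b, (F (Fin.cons a ω) - F (Fin.cons b ω))) / A := by
        rw [hF', sum_sub_distrib, sum_const, card_univ, nsmul_eq_mul, ← hA]
        field_simp
      rw [h1, abs_div, abs_of_pos hα, div_le_iff₀ hα]
      refine (abs_sum_le_sum_abs _ _).trans ?_
      calc _ ≤ ∑ _b : α, c := by
            apply sum_le_sum
            intro b _
            have h2 := hF (Fin.cons b ω) 0 a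
            rwa [Fin.update_cons_zero] at h2
        _ = c * A := by rw [sum_const, card_univ, nsmul_eq_mul]; ring
    have h0 : ∀ ω : Fin n → α, ∑ a, (F (Fin.cons a ω) - F' ω) = 0 := by
      intro ω
      rw [sum_sub_distrib, sum_const, card_univ, nsmul_eq_mul, hF']
      field_simp
      ring
    have hin : ∀ ω : Fin n → α, ∑ a, Real.exp (s * F (Fin.cons a ω)) ≤
        Real.exp (s * F' ω) * (A * Real.exp (s ^ 2 * c ^ 2)) := by
      intro ω
      have h1 := mean_exp (s := s) (fun a => F (Fin.cons a ω) - F' ω) (h0 ω) (hX ω)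
      have h2 : ∑ a, Real.exp (s * F (Fin.cons a ω)) =
          Real.exp (s * F' ω) * ∑ a, Real.exp (s * (F (Fin.cons a ω) - F' ω)) := by
        rw [mul_sum]
        apply sum_congr rfl
        intro a _
        rw [← Real.exp_add]
        congr 1
        ring
      rw [h2]
      exact mul_le_mul_of_nonneg_left h1 (Real.exp_pos _).le
    have hmean : (∑ ω, F' ω) / A ^ n = (∑ ω, F ω) / A ^ (n + 1) := by
      rw [hsum F, hF', ← sum_div, div_div, pow_succ, mul_comm A]
    calc ∑ ω, Real.exp (s * F ω) = ∑ ω : Fin n → α, ∑ a, Real.exp (s * F (Fin.cons a ω)) := hsum _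
      _ ≤ ∑ ω : Fin n → α, Real.exp (s * F' ω) * (A * Real.exp (s ^ 2 * c ^ 2)) :=
          sum_le_sum fun ω _ => hin ω
      _ = (∑ ω : Fin n → α, Real.exp (s * F' ω)) * (A * Real.exp (s ^ 2 * c ^ 2)) := by
          rw [sum_mul]
      _ ≤ (A ^ n * Real.exp (s * ((∑ ω, F' ω) / A ^ n) + n * (s ^ 2 * c ^ 2))) *
            (A * Real.exp (s ^ 2 * c ^ 2)) :=
          mul_le_mul_of_nonneg_right (ih F' hF'b) (by positivity)
      _ = A ^ (n + 1) * Real.exp (s * ((∑ ω, F ω) / A ^ (n + 1)) +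
            ((n + 1 : ℕ) : ℝ) * (s ^ 2 * c ^ 2)) := by
          rw [hmean]
          have h3 : s * ((∑ ω, F ω) / A ^ (n + 1)) + ((n + 1 : ℕ) : ℝ) * (s ^ 2 * c ^ 2) =
              (s * ((∑ ω, F ω) / A ^ (n + 1)) + n * (s ^ 2 * c ^ 2)) + s ^ 2 * c ^ 2 := by
            push_cast
            ring
          rw [h3, Real.exp_add _ (s ^ 2 * c ^ 2)]
          ring

open Classical in
theorem mcd {ι α : Type} [Fintype ι] [Fintype α] [Nonempty α] (hι : 1 ≤ Fintype.card ι)
    (F : (ι → α) → ℝ) {c μ t : ℝ} (hc : 0 < c) (ht : 0 ≤ t)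
    (hF : ∀ ω x a, |F (Function.update ω x a) - F ω| ≤ c)
    (hμ : ∑ ω, F ω ≤ μ * Fintype.card (ι → α)) :
    ((univ.filter (fun ω => μ + t ≤ F ω)).card : ℝ) *
      Real.exp (t ^ 2 / (4 * Fintype.card ι * c ^ 2)) ≤ Fintype.card (ι → α) := by
  set n : ℕ := Fintype.card ι with hn
  have hn0 : (0 : ℝ) < n := by exact_mod_cast hι
  have hα : (0 : ℝ) < Fintype.card α := by exact_mod_cast Fintype.card_pos
  set s : ℝ := t / (2 * n * c ^ 2) with hs
  have hs0 : 0 ≤ s := by positivity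
  let e : ι ≃ Fin n := Fintype.equivFin ι
  let E : (Fin n → α) ≃ (ι → α) := Equiv.arrowCongr e.symm (Equiv.refl α)
  have hE : ∀ ω, E ω = ω ∘ e := fun ω => rfl
  have hcard : (Fintype.card (ι → α) : ℝ) = (Fintype.card α : ℝ) ^ n := by
    rw [Fintype.card_fun]
    push_cast
    rfl
  have h1 := mgf (s := s) (c := c) n (fun ω => F (E ω)) (by
    intro ω x a
    rw [hE, hE, Function.update_comp_equiv]
    exact hF _ _ _)
  rw [E.sum_comp (fun ω => Real.exp (s * F ω)), E.sum_comp F, ← hcard] at h1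
  have hC : (0 : ℝ) < Fintype.card (ι → α) := by
    rw [hcard]
    positivity
  have h2 : (∑ ω, F ω) / Fintype.card (ι → α) ≤ μ := (div_le_iff₀ hC).2 hμ
  have h3 : ((univ.filter (fun ω => μ + t ≤ F ω)).card : ℝ) * Real.exp (s * (μ + t)) ≤
      ∑ ω, Real.exp (s * F ω) := by
    calc _ = ∑ _ω ∈ univ.filter (fun ω => μ + t ≤ F ω), Real.exp (s * (μ + t)) := by
          rw [sum_const, nsmul_eq_mul]
      _ ≤ ∑ ω ∈ univ.filter (fun ω => μ + t ≤ F ω), Real.exp (s * F ω) := by
          apply sum_le_sum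
          intro ω hω
          exact Real.exp_le_exp.2 (mul_le_mul_of_nonneg_left (mem_filter.1 hω).2 hs0)
      _ ≤ ∑ ω, Real.exp (s * F ω) :=
          sum_le_sum_of_subset_of_nonneg (filter_subset _ _) fun ω _ _ => (Real.exp_pos _).le
  have h4 : s * ((∑ ω, F ω) / Fintype.card (ι → α)) + n * (s ^ 2 * c ^ 2) ≤
      s * μ + n * (s ^ 2 * c ^ 2) := by
    linarith [mul_le_mul_of_nonneg_left h2 hs0]
  have h5 := (h3.trans h1).trans (mul_le_mul_of_nonneg_left (Real.exp_le_exp.2 h4) hC.le)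
  have h6 : s * (μ + t) = (s * μ + n * (s ^ 2 * c ^ 2)) + t ^ 2 / (4 * n * c ^ 2) := by
    rw [hs]
    field_simp
    ring
  rw [h6, Real.exp_add, mul_left_comm, mul_comm (Real.exp (s * μ + n * (s ^ 2 * c ^ 2)))] at h5
  exact le_of_mul_le_mul_right h5 (Real.exp_pos _)

end Pool.Agent.Work.MP_fcea8e_co.Typ
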