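import Pool.Agent.Work.MP_fcea8e_co.Typ.HCount

/-!
# Module OrCount (S-M): the number of orientations of a tree

Proof. `G` has a parent function `f` with root `r` (`gr_surj`, any `r : V`). The map `e ↦ (Tr f e, e r)` is a
bijection from `V → Bool` onto the product of the set of the orientations of `G` and `Bool`: `Tr f e` is
oriented (`tr_oriented`) with underlying graph `G` (`gr_tr`); injective by `tr_inj`; surjective: for an
orientation `T` of `G` and `b : Bool`, `tr_surj` gives `f', e` with `Tr f' e = T`, `e r = b`, and `f' = f` by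
`gr_inj` and `gr_tr`.
-/

set_option autoImplicit false

namespace Pool.Agent.Work.MP_fcea8e_co.Typ

open Finset Pool.Agent.Work.MP_fcea8e_co.Dom

theorem or_count {V : Type} [Fintype V] (G : SimpleGraph V) (hG : G.IsTree) :
    Nat.card {T : Digraph V // Oriented T ∧ SimpleGraph.fromRel T.Adj = G} * 2 =
      2 ^ Fintype.card V := by
  classical
  obtain ⟨r⟩ := hG.connected.nonempty
  obtain ⟨f, hfr, hf, hfG⟩ := gr_surj G hG r
  have hTM : f ∈ TM V := by
    unfold TM
    rw [mem_filter]
    exact ⟨mem_univ _, r, hfr, hf⟩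
  have hbij : Function.Bijective (fun e : V → Bool =>
      ((⟨Tr f e, tr_oriented hTM e, (gr_tr f e).trans hfG⟩ :
        {T : Digraph V // Oriented T ∧ SimpleGraph.fromRel T.Adj = G}), e r)) := by
    constructor
    · intro e e' h
      simp only [Prod.mk.injEq, Subtype.mk.injEq] at h
      exact (tr_inj hfr hfr hf hf h.2 h.1).2
    · rintro ⟨⟨T, hT, hTG⟩, b⟩
      obtain ⟨f', e, hf'r, hf', her, hTr⟩ := tr_surj T hT (by rw [hTG]; exact hG) r b
      have h1 : f' = f := by
        refine gr_inj hf'r hfr hf' hf ?_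
        rw [← gr_tr f' e, hTr, hTG, hfG]
      subst h1
      exact ⟨e, by simp only [Prod.mk.injEq, Subtype.mk.injEq]; exact ⟨hTr, her⟩⟩
  have h2 := Nat.card_congr (Equiv.ofBijective _ hbij)
  rw [Nat.card_prod, Nat.card_eq_fintype_card (α := Bool), Fintype.card_bool] at h2
  rw [← h2, Nat.card_eq_fintype_card, Fintype.card_fun, Fintype.card_bool]

end Pool.Agent.Work.MP_fcea8e_co.Typ
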