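import Pool.Agent.Work.MP_fcea8e_co.Typ.PFRec
import Pool.Agent.Work.MP_fcea8e_co.Typ.FoCard

/-!
# Module PFCard (S-M): the number of forests with a marked path

Proof. Induction on `d` (for all `R`, `ρ`). `d = 0`: `PF A R ρ 0` is the set of the pairs `(f, ρ)`
with `f ∈ Fo A R` (`ρ ∈ A`), so the formula is `fo_card`. Step: `pf_rec`; for `x ∈ A \ R`,
`|insert x R| = |R| + 1`, `|A \ insert x R| = |A \ R| - 1`; with `n = |A \ R|`: for `n = 0` the sum is
empty and `descFactorial 0 (d + 1) = 0`; for `n = n' + 1`,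
`(n' + 1) * descFactorial n' d = descFactorial (n' + 1) (d + 1)` (`Nat.succ_descFactorial_succ`) and
`n' - d = n' + 1 - (d + 1)`.
-/

set_option autoImplicit false

namespace Pool.Agent.Work.MP_fcea8e_co.Typ

open Finset

open Classical in
private theorem pf_zero {V : Type} [Fintype V] {A R : Finset V} {ρ : V} (hρ : ρ ∈ A) :
    PF A R ρ 0 = Fo A R ×ˢ {ρ} := by
  unfold PF
  ext q
  rw [Finset.mem_filter, Finset.mem_product, Finset.mem_product, Finset.mem_singleton]
  constructor
  · rintro ⟨⟨h1, _⟩, h2, _⟩
    exact ⟨h1, h2⟩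
  · rintro ⟨h1, h2⟩
    refine ⟨⟨h1, ?_⟩, h2, fun i hi => absurd hi (Nat.not_lt_zero i)⟩
    rw [h2]
    exact hρ

open Classical in
theorem pf_card {V : Type} [Fintype V] {A R : Finset V} (h : R ⊆ A) {ρ : V} (hρ : ρ ∈ R)
    (d : ℕ) : A.card * (PF A R ρ d).card =
      (A \ R).card.descFactorial d * (R.card + d) * A.card ^ ((A \ R).card - d) := by
  induction d generalizing R ρ with
  | zero =>
    rw [pf_zero (h hρ), Finset.card_product, Finset.card_singleton, mul_one, fo_card h,
      Nat.descFactorial_zero, one_mul, add_zero, Nat.sub_zero]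
  | succ d ih =>
    rw [pf_rec h hρ, Finset.mul_sum]
    have h1 : ∀ x ∈ A \ R, A.card * (PF A (insert x R) x d).card =
        ((A \ R).card - 1).descFactorial d * (R.card + (d + 1)) *
          A.card ^ ((A \ R).card - (d + 1)) := by
      intro x hx
      have hxA := Finset.mem_sdiff.1 hx
      have h2 : insert x R ⊆ A := Finset.insert_subset hxA.1 h
      rw [ih h2 (Finset.mem_insert_self x R)]
      have h3 : (insert x R).card = R.card + 1 := Finset.card_insert_of_notMem hxA.2
      have h4 : (A \ insert x R).card = (A \ R).card - 1 := by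
        rw [Finset.card_sdiff_of_subset h2, Finset.card_sdiff_of_subset h, h3]
        omega
      rw [h3, h4]
      have h5 : (A \ R).card - 1 - d = (A \ R).card - (d + 1) := by omega
      rw [h5]
      ring
    rw [Finset.sum_congr rfl h1, Finset.sum_const, smul_eq_mul]
    obtain ⟨n, hn⟩ : ∃ n, n = (A \ R).card := ⟨_, rfl⟩
    rw [← hn]
    rcases n with _ | n
    · rw [Nat.zero_descFactorial_succ]
      ring
    · rw [Nat.add_sub_cancel, Nat.succ_descFactorial_succ]
      ring

end Pool.Agent.Work.MP_fcea8e_co.Typ
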