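import Pool.Agent.Work.MP_fcea8e_co.Typ.Defs

/-!
# Module PFRec (M): the recursion for forests with a marked path

Proof. Map `q = (f, w) ∈ PF A R ρ (h + 1)` to `x = f^[h] w` (in `A \ R`: `f` maps `A` into `A`, and
`f^[h] w ∉ R`); count by the value of `x` (`Finset.card_eq_sum_card_fiberwise`). For fixed `x ∈ A \ R`
the fibre is in bijection with `PF A (insert x R) x h` by `(f, w) ↦ (update f x x, w)`, the inverse map
is `(f', w) ↦ (update f' x ρ, w)` (`Finset.card_nbij'`).
Let `f' = update f x x`. `f' ∈ Fo A (insert x R)`: it is the identity outside of `A \ insert x R`, it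
maps `A` into `A`, every point of `A` reaches `R` under `f`; until the first visit of `insert x R` the
maps agree. `f^[i] w ≠ x` for `i < h` (otherwise `f^[i + 1] w = f x = f^[h + 1] w = ρ ∈ R` with
`i + 1 ≤ h`, a contradiction to the condition of `PF`), so `f'^[i] w = f^[i] w` for `i ≤ h`
(induction), `f'^[h] w = x` and `f'^[i] w ∉ insert x R` for `i < h`. Note `f x = f^[h + 1] w = ρ`
(`Function.iterate_succ_apply'`), so `update f' x ρ = f`.
Conversely let `(f', w) ∈ PF A (insert x R) x h` and `f = update f' x ρ`. `f' x = x`. `f` is the identity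
outside of `A \ R`, maps `A` into `A` (`ρ ∈ R ⊆ A`), every point of `A` reaches `R` or `x` under `f'` and
then `ρ ∈ R` under `f` in one more step; `f^[i] w = f'^[i] w` for `i ≤ h` (as `f'^[i] w ≠ x` for `i < h`),
`f^[h] w = x`, `f^[h + 1] w = ρ`, and `f^[i] w ∉ R` for `i ≤ h` (`x ∉ R`).
-/

set_option autoImplicit false

namespace Pool.Agent.Work.MP_fcea8e_co.Typ

open Finset

private theorem mem_Fo' {V : Type} [Fintype V] {A R : Finset V} {f : V → V} :
    f ∈ Fo A R ↔ (∀ x, ¬(x ∈ A ∧ x ∉ R) → f x = x) ∧ (∀ x ∈ A, f x ∈ A) ∧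
      ∀ x ∈ A, ∃ n, f^[n] x ∈ R := by
  classical
  simp [Fo]

private theorem mem_PF' {V : Type} [Fintype V] {A R : Finset V} {ρ : V} {h : ℕ}
    {f : V → V} {w : V} :
    (f, w) ∈ PF A R ρ h ↔ f ∈ Fo A R ∧ w ∈ A ∧ f^[h] w = ρ ∧
      ∀ i < h, f^[i] w ∉ R := by
  classical
  simp [PF, and_assoc]

private theorem iter_mem' {V : Type} {A : Finset V} {f : V → V} (h : ∀ x ∈ A, f x ∈ A)
    {x : V} (hx : x ∈ A) (n : ℕ) : f^[n] x ∈ A := by
  induction n with
  | zero => exact hx
  | succ n ih => rw [Function.iterate_succ_apply']; exact h _ ih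

private theorem iter_agree' {V : Type} {f g : V → V} {w : V} {n : ℕ}
    (h : ∀ i < n, g (f^[i] w) = f (f^[i] w)) : ∀ i ≤ n, g^[i] w = f^[i] w := by
  intro i
  induction i with
  | zero => intro _; rfl
  | succ i ih =>
    intro hi
    rw [Function.iterate_succ_apply', Function.iterate_succ_apply', ih (by omega)]
    exact h i (by omega)

open Classical in
private theorem fwd' {V : Type} [Fintype V] {A R : Finset V} {ρ : V} (hρ : ρ ∈ R) (d : ℕ)
    {f : V → V} {w : V} (hq : (f, w) ∈ PF A R ρ (d + 1)) :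
    f^[d] w ∈ A \ R ∧
    (Function.update f (f^[d] w) (f^[d] w), w) ∈ PF A (insert (f^[d] w) R) (f^[d] w) d ∧
    f (f^[d] w) = ρ := by
  obtain ⟨hf, hw, he, hn⟩ := mem_PF'.1 hq
  obtain ⟨h1, h2, h3⟩ := mem_Fo'.1 hf
  set x := f^[d] w with hx
  have hfx : f x = ρ := by rw [hx, ← Function.iterate_succ_apply' f d w]; exact he
  have hxA : x ∈ A := iter_mem' h2 hw d
  have hxR : x ∉ R := hn d (by omega)
  have hne : ∀ i < d, f^[i] w ≠ x := by
    intro i hi hc
    apply hn (i + 1) (by omega)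
    rw [Function.iterate_succ_apply', hc, hfx]
    exact hρ
  have hag : ∀ i ≤ d, (Function.update f x x)^[i] w = f^[i] w :=
    iter_agree' (fun i hi => Function.update_of_ne (hne i hi) _ _)
  refine ⟨mem_sdiff.2 ⟨hxA, hxR⟩, mem_PF'.2 ⟨mem_Fo'.2 ⟨?_, ?_, ?_⟩, hw, hag d le_rfl, ?_⟩, hfx⟩
  · intro y hy
    by_cases hyx : y = x
    · rw [hyx, Function.update_self]
    · rw [Function.update_of_ne hyx]
      apply h1
      intro hc
      exact hy ⟨hc.1, by simp [hyx, hc.2]⟩
  · intro y hy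
    by_cases hyx : y = x
    · rw [hyx, Function.update_self]; exact hxA
    · rw [Function.update_of_ne hyx]; exact h2 y hy
  · intro y hy
    obtain ⟨n, hn'⟩ := h3 y hy
    have hex : ∃ n, f^[n] y ∈ insert x R := ⟨n, mem_insert_of_mem hn'⟩
    have hmin : ∀ i < Nat.find hex, f^[i] y ∉ insert x R := fun i hi => Nat.find_min hex hi
    have hspec := Nat.find_spec hex
    refine ⟨Nat.find hex, ?_⟩
    rw [iter_agree' (f := f) (n := Nat.find hex) ?_ _ le_rfl]
    · exact hspec
    · intro i hi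
      apply Function.update_of_ne
      intro hc
      exact hmin i hi (hc ▸ mem_insert_self _ _)
  · intro i hi
    rw [hag i hi.le, mem_insert, not_or]
    exact ⟨hne i hi, hn i (by omega)⟩

open Classical in
private theorem bwd' {V : Type} [Fintype V] {A R : Finset V} (h : R ⊆ A) {ρ : V} (hρ : ρ ∈ R)
    (d : ℕ) {x : V} (hx : x ∈ A \ R) {f : V → V} {w : V}
    (hq : (f, w) ∈ PF A (insert x R) x d) :
    (Function.update f x ρ, w) ∈ PF A R ρ (d + 1) ∧ (Function.update f x ρ)^[d] w = x ∧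
      f x = x := by
  obtain ⟨hf, hw, he, hn⟩ := mem_PF'.1 hq
  obtain ⟨h1, h2, h3⟩ := mem_Fo'.1 hf
  obtain ⟨hxA, hxR⟩ := mem_sdiff.1 hx
  have hfx : f x = x := h1 x (fun hc => hc.2 (mem_insert_self _ _))
  have hne : ∀ i < d, f^[i] w ≠ x := fun i hi hc => hn i hi (hc ▸ mem_insert_self _ _)
  have hag : ∀ i ≤ d, (Function.update f x ρ)^[i] w = f^[i] w :=
    iter_agree' (fun i hi => Function.update_of_ne (hne i hi) _ _)
  have hd : (Function.update f x ρ)^[d] w = x := (hag d le_rfl).trans he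
  refine ⟨mem_PF'.2 ⟨mem_Fo'.2 ⟨?_, ?_, ?_⟩, hw, ?_, ?_⟩, hd, hfx⟩
  · intro y hy
    by_cases hyx : y = x
    · exact absurd ⟨hyx ▸ hxA, hyx ▸ hxR⟩ hy
    · rw [Function.update_of_ne hyx]
      apply h1
      intro hc
      exact hy ⟨hc.1, fun hc' => hc.2 (mem_insert_of_mem hc')⟩
  · intro y hy
    by_cases hyx : y = x
    · rw [hyx, Function.update_self]; exact h hρ
    · rw [Function.update_of_ne hyx]; exact h2 y hy
  · intro y hy
    have hex := h3 y hy
    have hmin : ∀ i < Nat.find hex, f^[i] y ∉ insert x R := fun i hi => Nat.find_min hex hi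
    have hspec := Nat.find_spec hex
    have hag' : (Function.update f x ρ)^[Nat.find hex] y = f^[Nat.find hex] y := by
      refine iter_agree' (f := f) (n := Nat.find hex) ?_ _ le_rfl
      intro i hi
      apply Function.update_of_ne
      intro hc
      exact hmin i hi (hc ▸ mem_insert_self _ _)
    rcases mem_insert.1 hspec with hc | hc
    · refine ⟨Nat.find hex + 1, ?_⟩
      rw [Function.iterate_succ_apply', hag', hc, Function.update_self]
      exact hρ
    · exact ⟨Nat.find hex, hag' ▸ hc⟩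
  · change (Function.update f x ρ)^[d + 1] w = ρ
    rw [Function.iterate_succ_apply', hd, Function.update_self]
  · intro i hi
    change (Function.update f x ρ)^[i] w ∉ R
    rcases Nat.lt_or_ge i d with h' | h'
    · rw [hag i h'.le]
      exact fun hc => hn i h' (mem_insert_of_mem hc)
    · rw [show i = d by omega, hd]
      exact hxR

open Classical in
theorem pf_rec {V : Type} [Fintype V] {A R : Finset V} (h : R ⊆ A) {ρ : V} (hρ : ρ ∈ R)
    (d : ℕ) : (PF A R ρ (d + 1)).card = ∑ x ∈ A \ R, (PF A (insert x R) x d).card := by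
  rw [← Finset.card_sigma]
  refine Finset.card_nbij'
    (fun q => ⟨q.1^[d] q.2, (Function.update q.1 (q.1^[d] q.2) (q.1^[d] q.2), q.2)⟩)
    (fun q => (Function.update q.2.1 q.1 ρ, q.2.2)) ?_ ?_ ?_ ?_
  · rintro ⟨f, w⟩ hq
    obtain ⟨h1, h2, _⟩ := fwd' hρ d hq
    exact mem_coe.2 (mem_sigma.2 ⟨h1, h2⟩)
  · rintro ⟨x, f, w⟩ hq
    obtain ⟨h1, h2⟩ := mem_sigma.1 (mem_coe.1 hq)
    exact mem_coe.2 (bwd' h hρ d h1 h2).1
  · rintro ⟨f, w⟩ hq
    obtain ⟨_, _, h3⟩ := fwd' hρ d hq
    simp only [Function.update_idem]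
    rw [← h3, Function.update_eq_self]
  · rintro ⟨x, f, w⟩ hq
    obtain ⟨h1, h2⟩ := mem_sigma.1 (mem_coe.1 hq)
    obtain ⟨_, h4, h5⟩ := bwd' h hρ d h1 h2
    simp only at h4 h5 ⊢
    rw [h4, Function.update_idem]
    conv_lhs => rw [show Function.update f x x = f from by
      conv_rhs => rw [← Function.update_eq_self x f]
      rw [h5]]

end Pool.Agent.Work.MP_fcea8e_co.Typ
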