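import Pool.Agent.Work.MP_fcea8e_co.Typ.Defs

/-!
# Module RtBase (M): heights and levels of a rooted tree

Proofs. `ht_root`: `dep v = 0`. `ht_p`: `dep t = dep (p t) + 1` (`R.dep_p`), so the sum over
`range (dep (p t) + 1)` splits with `Finset.sum_range_succ'`: the term `i = 0` is `sg (dir t)` and
`p^[i + 1] t = p^[i] (p t)` (`Function.iterate_succ_apply`). `dsc_refl`: `n = 0`. `dsc_step`: `n + 1`.
`dsc_p`: if `Dsc u t` then `Dsc (p u) t` for `u ≠ v`: `n + 1 ≤ dep t` because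
`dep (p^[n] t) = dep t - n` (`dep_iter`, induction) and `dep u ≥ 1` (`R.dep_p`);
`Function.iterate_succ_apply'`. `dsc_cases`: `n = 0` gives `t = u`; otherwise `t ≠ v`
(`1 ≤ n ≤ dep t` and `dep v = 0`), and `p^[n - 1] (p t) = u`, `n - 1 ≤ dep (p t)`.
`rg_le`: `Finset.le_sup` and `Int.toNat`. `rg_mono`: by `dsc_p` the pairs for `u` are pairs for
`p u` (`Finset.sup_mono`). `exists_rg`: the set of pairs is nonempty (`dsc_refl`),
`Finset.exists_mem_eq_sup`.
`lv_root`: by definition. `lv_p`: `rg_mono`. `lv_anti`: `2 ^ j ≤ 2 ^ (j + 1)`.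
-/

set_option autoImplicit false

namespace Pool.Agent.Work.MP_fcea8e_co.Typ

open Finset Pool.Agent.Work.MP_fcea8e_co.Dom

variable {κ : Type} (R : RT κ)

theorem ht_root : ht R R.v = 0 := by
  unfold ht
  rw [R.dep_v]
  simp

theorem ht_p {t : κ} (h : t ≠ R.v) : ht R t = ht R (R.p t) + sg (R.dir t) := by
  unfold ht
  rw [← R.dep_p t h, Finset.sum_range_succ']
  rfl

theorem dep_iter {t : κ} {n : ℕ} (h : n ≤ R.dep t) : R.dep (R.p^[n] t) = R.dep t - n := by
  induction n with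
  | zero => simp
  | succ n ih =>
    have h1 := ih (by omega)
    rw [Function.iterate_succ_apply']
    have h2 : R.p^[n] t ≠ R.v := by
      intro h3
      rw [h3, R.dep_v] at h1
      omega
    have h4 := R.dep_p _ h2
    omega

theorem dsc_refl (t : κ) : Dsc R t t := by
  exact ⟨0, Nat.zero_le _, rfl⟩

theorem dsc_step {u t : κ} (h : t ≠ R.v) (h1 : Dsc R u (R.p t)) : Dsc R u t := by
  obtain ⟨n, h2, h3⟩ := h1
  have h4 := R.dep_p t h
  exact ⟨n + 1, by omega, h3⟩

theorem dsc_p {u t : κ} (h : u ≠ R.v) (h1 : Dsc R u t) : Dsc R (R.p u) t := by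
  obtain ⟨n, h2, h3⟩ := h1
  have h4 := dep_iter R h2
  rw [h3] at h4
  have h5 := R.dep_p u h
  refine ⟨n + 1, by omega, ?_⟩
  rw [Function.iterate_succ_apply', h3]

theorem dsc_cases {u t : κ} (h : Dsc R u t) : t = u ∨ (t ≠ R.v ∧ Dsc R u (R.p t)) := by
  obtain ⟨n, h2, h3⟩ := h
  rcases n with _ | n
  · exact Or.inl h3
  · right
    have h4 : t ≠ R.v := by
      rintro rfl
      rw [R.dep_v] at h2
      omega
    have h5 := R.dep_p t h4
    exact ⟨h4, n, by omega, h3⟩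

theorem dsc_root (t : κ) : Dsc R R.v t := by
  refine ⟨R.dep t, le_rfl, ?_⟩
  by_contra h
  have h1 := R.dep_p _ h
  rw [dep_iter R le_rfl] at h1
  omega

variable [Fintype κ]

theorem rg_le {u t t' : κ} (h : Dsc R u t) (h' : Dsc R u t') :
    ht R t - ht R t' ≤ rg R u := by
  classical
  have h1 : (t, t') ∈ univ.filter (fun q : κ × κ => Dsc R u q.1 ∧ Dsc R u q.2) := by
    simp [h, h']
  have h2 := Finset.le_sup (f := fun q : κ × κ => (ht R q.1 - ht R q.2).toNat) h1
  have h3 : (ht R t - ht R t').toNat ≤ rg R u := by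
    unfold rg
    convert! h2
  have h4 := Int.self_le_toNat (ht R t - ht R t')
  have h5 : ((ht R t - ht R t').toNat : ℤ) ≤ rg R u := by exact_mod_cast h3
  exact h4.trans h5

theorem exists_rg (u : κ) : ∃ t t', Dsc R u t ∧ Dsc R u t' ∧ ht R t - ht R t' = rg R u := by
  classical
  obtain ⟨q, hq, h1⟩ := Finset.exists_mem_eq_sup
    (univ.filter (fun q : κ × κ => Dsc R u q.1 ∧ Dsc R u q.2))
    ⟨(u, u), by simp [dsc_refl R u]⟩ (fun q => (ht R q.1 - ht R q.2).toNat)
  have h2 : rg R u = (ht R q.1 - ht R q.2).toNat := by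
    rw [← h1]
    unfold rg
    convert! rfl
  obtain ⟨-, h3, h4⟩ := Finset.mem_filter.1 hq
  by_cases h5 : 0 ≤ ht R q.1 - ht R q.2
  · exact ⟨q.1, q.2, h3, h4, by rw [h2, Int.toNat_of_nonneg h5]⟩
  · refine ⟨u, u, dsc_refl R u, dsc_refl R u, ?_⟩
    rw [h2, Int.toNat_of_nonpos (by omega)]
    simp

theorem rg_mono {u : κ} (h : u ≠ R.v) : rg R u ≤ rg R (R.p u) := by
  classical
  obtain ⟨t, t', h1, h2, h3⟩ := exists_rg R u
  have h4 := rg_le R (dsc_p R h h1) (dsc_p R h h2)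
  rw [h3] at h4
  exact_mod_cast h4

theorem rg_le_root (u : κ) : rg R u ≤ rg R R.v := by
  obtain ⟨t, t', h1, h2, h3⟩ := exists_rg R u
  have h4 := rg_le R (dsc_root R t) (dsc_root R t')
  rw [h3] at h4
  exact_mod_cast h4

theorem lv_root (j : ℕ) : R.v ∈ lv R j := by
  classical
  rcases j with _ | j
  · exact Finset.mem_univ _
  · exact Finset.mem_filter.2 ⟨Finset.mem_univ _, Or.inr rfl⟩

theorem lv_p (j : ℕ) {t : κ} (h : t ∈ lv R j) (ht : t ≠ R.v) : R.p t ∈ lv R j := by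
  classical
  rcases j with _ | j
  · exact Finset.mem_univ _
  · rcases (Finset.mem_filter.1 h).2 with h1 | h1
    · exact Finset.mem_filter.2 ⟨Finset.mem_univ _, Or.inl (h1.trans (rg_mono R ht))⟩
    · exact absurd h1 ht

theorem lv_anti (j : ℕ) : lv R (j + 1) ⊆ lv R j := by
  classical
  intro t h
  rcases j with _ | j
  · exact Finset.mem_univ _
  · rcases (Finset.mem_filter.1 h).2 with h1 | h1
    · refine Finset.mem_filter.2 ⟨Finset.mem_univ _, Or.inl (le_trans ?_ h1)⟩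
      exact Nat.pow_le_pow_right (by norm_num) (Nat.le_succ j)
    · exact Finset.mem_filter.2 ⟨Finset.mem_univ _, Or.inr h1⟩

end Pool.Agent.Work.MP_fcea8e_co.Typ
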