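import Mathlib

/-!
# Module Series (M): a sum

Proof. If `k ≤ L` the sum is empty. For `2 m ≤ k`: `k / (k - m) ≤ 2`, so the sum of these terms is at most
`√2 * ∑_{m ≥ L} m ^ (-6/5) ≤ √2 * (L ^ (-6/5) + 5 L ^ (-1/5)) ≤ 9 L ^ (-1/5)`: telescoping, for `m ≥ L + 1`,
`m ^ (-6/5) ≤ 5 ((m - 1) ^ (-1/5) - m ^ (-1/5))` (mean value theorem), and `L ^ (-6/5) ≤ L ^ (-1/5)` for the
first term; or the integral comparison `AntitoneOn.sum_le_integral`.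
For `2 m > k`: `m ^ (-6/5) ≤ (k / 2) ^ (-6/5)`, and `∑_{m < k} √(k / (k - m)) =
√k ∑_{j = 1}^{k - 1} 1 / √j ≤ √k * 2 √k = 2 k` (`1 / √j ≤ 2 (√j - √(j - 1))`; reflection
`j = k - m`, `Finset.sum_flip` / `Finset.sum_bij`). So these terms give at most
`2 k (k / 2) ^ (-6/5) = 2 * 2 ^ (6/5) * k ^ (-1/5) ≤ 8 L ^ (-1/5)`, as `L ≤ k` and `2 ^ (6/5) ≤ 4`. Total `17 ≤ 20`.
-/

set_option autoImplicit false

namespace Pool.Agent.Work.MP_fcea8e_co.Typ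

open Finset

private theorem step_le {x : ℝ} (hx : 1 ≤ x) :
    (x + 1) ^ (-(6 / 5) : ℝ) ≤ 5 * (x ^ (-(1 / 5) : ℝ) - (x + 1) ^ (-(1 / 5) : ℝ)) := by
  have hx0 : 0 < x := by linarith
  set y := x + 1 with hy
  have hy0 : 0 < y := by linarith
  have h1 : x = y * (1 + -(1 / y)) := by
    field_simp
    rw [hy]
    ring
  have hy1 : 1 / y ≤ 1 / 2 := one_div_le_one_div_of_le (by norm_num) (by linarith)
  have hyp : 0 < 1 / y := by positivity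
  have h2 : (1 + -(1 / y)) ^ (1 / 5 : ℝ) ≤ 1 + 1 / 5 * -(1 / y) :=
    _root_.rpow_one_add_le_one_add_mul_self (by linarith) (by norm_num) (by norm_num)
  have h3 : x ^ (1 / 5 : ℝ) = y ^ (1 / 5 : ℝ) * (1 + -(1 / y)) ^ (1 / 5 : ℝ) := by
    conv_lhs => rw [h1]
    exact Real.mul_rpow hy0.le (by linarith)
  have hY : 0 < y ^ (1 / 5 : ℝ) := by positivity
  have hX : 0 < x ^ (1 / 5 : ℝ) := by positivity
  have h4 : x ^ (1 / 5 : ℝ) ≤ y ^ (1 / 5 : ℝ) * (1 - 1 / (5 * y)) := by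
    rw [h3]
    apply mul_le_mul_of_nonneg_left _ hY.le
    refine h2.trans (le_of_eq ?_)
    field_simp
    ring
  rw [Real.rpow_neg hx0.le, Real.rpow_neg hy0.le, Real.rpow_neg hy0.le]
  have h5 : y ^ (6 / 5 : ℝ) = y ^ (1 / 5 : ℝ) * y := by
    rw [show (6 / 5 : ℝ) = 1 / 5 + 1 by norm_num, Real.rpow_add_one hy0.ne']
  rw [h5]
  have h6 : (y ^ (1 / 5 : ℝ))⁻¹ * (1 + 1 / (5 * y)) ≤ (x ^ (1 / 5 : ℝ))⁻¹ := by
    rw [inv_mul_eq_div, inv_eq_one_div, div_le_div_iff₀ hY hX]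
    have h7 : (1 + 1 / (5 * y)) * x ^ (1 / 5 : ℝ) ≤
        (1 + 1 / (5 * y)) * (y ^ (1 / 5 : ℝ) * (1 - 1 / (5 * y))) :=
      mul_le_mul_of_nonneg_left h4 (by positivity)
    refine h7.trans ?_
    have h8 : 0 ≤ y ^ (1 / 5 : ℝ) * (1 / (5 * y)) ^ 2 := by positivity
    nlinarith
  have h9 : (y ^ (1 / 5 : ℝ) * y)⁻¹ = 5 * ((y ^ (1 / 5 : ℝ))⁻¹ * (1 / (5 * y))) := by
    field_simp
  rw [h9]
  linarith [mul_add (y ^ (1 / 5 : ℝ))⁻¹ 1 (1 / (5 * y))]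

private theorem sumA {L : ℕ} (hL : 1 ≤ L) (d : ℕ) :
    ∑ m ∈ Ico L (L + d + 1), (m : ℝ) ^ (-(6 / 5) : ℝ) ≤
      6 * (L : ℝ) ^ (-(1 / 5) : ℝ) - 5 * ((L + d : ℕ) : ℝ) ^ (-(1 / 5) : ℝ) := by
  induction d with
  | zero =>
    have hL' : (1 : ℝ) ≤ L := by exact_mod_cast hL
    simp only [add_zero, Nat.Ico_succ_singleton, sum_singleton]
    have : (L : ℝ) ^ (-(6 / 5) : ℝ) ≤ (L : ℝ) ^ (-(1 / 5) : ℝ) :=
      Real.rpow_le_rpow_of_exponent_le hL' (by norm_num)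
    linarith
  | succ d ih =>
    have h1 : (1 : ℝ) ≤ ((L + d : ℕ) : ℝ) := by exact_mod_cast (by omega : 1 ≤ L + d)
    rw [show L + (d + 1) + 1 = (L + d + 1) + 1 by ring, sum_Ico_succ_top (by omega)]
    have h2 := step_le h1
    have h3 : ((L + d + 1 : ℕ) : ℝ) = ((L + d : ℕ) : ℝ) + 1 := by push_cast; ring
    have h4 : ((L + (d + 1) : ℕ) : ℝ) = ((L + d : ℕ) : ℝ) + 1 := by push_cast; ring
    rw [h3, h4]
    linarith

private theorem sumB (k : ℕ) : ∑ j ∈ range k, 1 / √((j : ℝ) + 1) ≤ 2 * √(k : ℝ) := by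
  induction k with
  | zero => simp
  | succ k ih =>
    rw [sum_range_succ]
    push_cast
    have h0 : (0 : ℝ) ≤ k := by positivity
    have h1 : 0 < √((k : ℝ) + 1) := Real.sqrt_pos.2 (by positivity)
    have h2 : √(k : ℝ) * √(k : ℝ) = k := Real.mul_self_sqrt h0
    have h3 : √((k : ℝ) + 1) * √((k : ℝ) + 1) = k + 1 := Real.mul_self_sqrt (by positivity)
    have h4 : 0 ≤ √(k : ℝ) := Real.sqrt_nonneg _
    have h5 : 1 / √((k : ℝ) + 1) ≤ 2 * (√((k : ℝ) + 1) - √(k : ℝ)) := by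
      rw [div_le_iff₀ h1]
      nlinarith [sq_nonneg (√((k : ℝ) + 1) - √(k : ℝ))]
    linarith

theorem series_le {L k : ℕ} (hL : 1 ≤ L) :
    ∑ m ∈ Ico L k, √((k : ℝ) / ((k : ℝ) - m)) * (m : ℝ) ^ (-(6 / 5) : ℝ) ≤
      20 * (L : ℝ) ^ (-(1 / 5) : ℝ) := by
  have hL0 : (0 : ℝ) < L := by exact_mod_cast hL
  rcases le_or_gt k L with hk | hk
  · rw [Ico_eq_empty (by omega), sum_empty]
    positivity
  have hk0 : (0 : ℝ) < k := by exact_mod_cast (by omega : 0 < k)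
  have hLk : (L : ℝ) ≤ k := by exact_mod_cast hk.le
  have hterm : ∀ m ∈ Ico L k, √((k : ℝ) / ((k : ℝ) - m)) * (m : ℝ) ^ (-(6 / 5) : ℝ) ≤
      3 / 2 * (m : ℝ) ^ (-(6 / 5) : ℝ) +
        √((k : ℝ) / ((k : ℝ) - m)) * ((k : ℝ) / 2) ^ (-(6 / 5) : ℝ) := by
    intro m hm
    rw [mem_Ico] at hm
    have hm0 : (0 : ℝ) < m := by exact_mod_cast (by omega : 0 < m)
    have hmk : (m : ℝ) < k := by exact_mod_cast hm.2
    rcases le_total (2 * (m : ℝ)) k with h | h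
    · have h1 : √((k : ℝ) / ((k : ℝ) - m)) ≤ 3 / 2 := by
        rw [Real.sqrt_le_left (by norm_num), div_le_iff₀ (by linarith)]
        linarith
      have h2 : √((k : ℝ) / ((k : ℝ) - m)) * (m : ℝ) ^ (-(6 / 5) : ℝ) ≤
          3 / 2 * (m : ℝ) ^ (-(6 / 5) : ℝ) := mul_le_mul_of_nonneg_right h1 (by positivity)
      have h3 : 0 ≤ √((k : ℝ) / ((k : ℝ) - m)) * ((k : ℝ) / 2) ^ (-(6 / 5) : ℝ) := by positivity
      linarith
    · have h1 : (m : ℝ) ^ (-(6 / 5) : ℝ) ≤ ((k : ℝ) / 2) ^ (-(6 / 5) : ℝ) :=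
        Real.rpow_le_rpow_of_nonpos (by positivity) (by linarith) (by norm_num)
      have h2 : √((k : ℝ) / ((k : ℝ) - m)) * (m : ℝ) ^ (-(6 / 5) : ℝ) ≤
          √((k : ℝ) / ((k : ℝ) - m)) * ((k : ℝ) / 2) ^ (-(6 / 5) : ℝ) :=
        mul_le_mul_of_nonneg_left h1 (Real.sqrt_nonneg _)
      have h3 : 0 ≤ 3 / 2 * (m : ℝ) ^ (-(6 / 5) : ℝ) := by positivity
      linarith
  refine (sum_le_sum hterm).trans ?_
  rw [sum_add_distrib, ← mul_sum, ← sum_mul]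
  have hA : ∑ m ∈ Ico L k, (m : ℝ) ^ (-(6 / 5) : ℝ) ≤ 6 * (L : ℝ) ^ (-(1 / 5) : ℝ) := by
    obtain ⟨d, rfl⟩ : ∃ d, k = L + d + 1 := ⟨k - L - 1, by omega⟩
    refine (sumA hL d).trans ?_
    have : 0 ≤ ((L + d : ℕ) : ℝ) ^ (-(1 / 5) : ℝ) := by positivity
    linarith
  have hB : ∑ m ∈ Ico L k, √((k : ℝ) / ((k : ℝ) - m)) ≤ 2 * k := by
    have h1 : ∑ m ∈ Ico L k, √((k : ℝ) / ((k : ℝ) - m)) ≤
        ∑ m ∈ range k, √((k : ℝ) / ((k : ℝ) - m)) := by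
      apply sum_le_sum_of_subset_of_nonneg
      · intro m hm
        rw [mem_Ico] at hm
        exact mem_range.2 hm.2
      · intro m _ _
        exact Real.sqrt_nonneg _
    refine h1.trans ?_
    rw [← sum_range_reflect]
    have h2 : ∀ j ∈ range k, √((k : ℝ) / ((k : ℝ) - ((k - 1 - j : ℕ) : ℝ))) =
        √(k : ℝ) * (1 / √((j : ℝ) + 1)) := by
      intro j hj
      rw [mem_range] at hj
      have h3 : ((k - 1 - j : ℕ) : ℝ) = (k : ℝ) - 1 - j := by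
        rw [Nat.cast_sub (by omega), Nat.cast_sub (by omega)]
        simp
      rw [h3, show (k : ℝ) - ((k : ℝ) - 1 - j) = j + 1 by ring, Real.sqrt_div hk0.le, mul_one_div]
    rw [sum_congr rfl h2, ← mul_sum]
    have h4 := mul_le_mul_of_nonneg_left (sumB k) (Real.sqrt_nonneg (k : ℝ))
    have h5 : √(k : ℝ) * √(k : ℝ) = k := Real.mul_self_sqrt hk0.le
    nlinarith
  have hC : 2 * (k : ℝ) * ((k : ℝ) / 2) ^ (-(6 / 5) : ℝ) ≤ 8 * (L : ℝ) ^ (-(1 / 5) : ℝ) := by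
    have h1 : ((k : ℝ) / 2) ^ (-(6 / 5) : ℝ) =
        (k : ℝ) ^ (-(1 / 5) : ℝ) / k * (2 : ℝ) ^ (6 / 5 : ℝ) := by
      rw [Real.div_rpow hk0.le (by norm_num), Real.rpow_neg (by norm_num : (0 : ℝ) ≤ 2) (6 / 5),
        div_inv_eq_mul, ← Real.rpow_sub_one hk0.ne']
      norm_num
    have h2 : (2 : ℝ) ^ (6 / 5 : ℝ) ≤ 4 := by
      have h3 : (2 : ℝ) ^ (6 / 5 : ℝ) ≤ (2 : ℝ) ^ (2 : ℝ) :=
        Real.rpow_le_rpow_of_exponent_le (by norm_num) (by norm_num)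
      refine h3.trans (le_of_eq ?_)
      norm_num
    have h4 : (k : ℝ) ^ (-(1 / 5) : ℝ) ≤ (L : ℝ) ^ (-(1 / 5) : ℝ) :=
      Real.rpow_le_rpow_of_nonpos hL0 hLk (by norm_num)
    rw [h1]
    have h5 : 2 * (k : ℝ) * ((k : ℝ) ^ (-(1 / 5) : ℝ) / k * (2 : ℝ) ^ (6 / 5 : ℝ)) =
        2 * (k : ℝ) ^ (-(1 / 5) : ℝ) * (2 : ℝ) ^ (6 / 5 : ℝ) := by
      field_simp
    rw [h5]
    have h6 : 0 < (k : ℝ) ^ (-(1 / 5) : ℝ) := by positivity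
    nlinarith
  have hD : (∑ m ∈ Ico L k, √((k : ℝ) / ((k : ℝ) - m))) * ((k : ℝ) / 2) ^ (-(6 / 5) : ℝ) ≤
      2 * k * ((k : ℝ) / 2) ^ (-(6 / 5) : ℝ) := mul_le_mul_of_nonneg_right hB (by positivity)
  have hE : 0 ≤ (L : ℝ) ^ (-(1 / 5) : ℝ) := by positivity
  linarith

end Pool.Agent.Work.MP_fcea8e_co.Typ
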