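import Pool.Agent.Work.MP_fcea8e_co.Typ.MapBase

/-!
# Module SignSum (M): the sum over the directions

Proof. Let `d = dp f v w` and `P = (range d).image (fun i => f^[i] w)`, `|P| = d` (`path_inj`). For every
`e`, `exp (lam * rh f e v w) = ∏ i ∈ range d, exp (lam * sg (e (f^[i] w))) = ∏ x ∈ P, exp (lam * sg (e x))`
`= ∏ x, if x ∈ P then exp (lam * sg (e x)) else 1` (`Real.exp_sum`, `Finset.prod_image`,
`Finset.prod_ite_mem`). The sum over all `e : V → Bool` of a product `∏ x, φ x (e x)` is
`∏ x, (φ x true + φ x false)` (`Finset.prod_univ_sum` with `Fintype.piFinset_univ`, or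
`Fintype.prod_sum`), that is `∏ x, if x ∈ P then 2 cosh lam else 2 = 2 ^ |V| * (cosh lam) ^ d`
(`Real.cosh_eq`).
-/

set_option autoImplicit false

namespace Pool.Agent.Work.MP_fcea8e_co.Typ

open Finset

open Classical in
private theorem sum_prod_ite {V : Type} [Fintype V] (P : Finset V) (lam : ℝ) :
    ∑ e : V → Bool, ∏ x, (if x ∈ P then Real.exp (lam * (sg (e x) : ℤ)) else 1) =
      2 ^ Fintype.card V * Real.cosh lam ^ P.card := by
  have h1 := Finset.prod_univ_sum (t := fun _ : V => (univ : Finset Bool))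
    (f := fun (x : V) (b : Bool) => (if x ∈ P then Real.exp (lam * (sg b : ℤ)) else (1 : ℝ)))
  rw [Fintype.piFinset_univ] at h1
  rw [← h1]
  have h2 : ∀ x : V, (∑ b : Bool, (if x ∈ P then Real.exp (lam * (sg b : ℤ)) else (1 : ℝ))) =
      2 * (if x ∈ P then Real.cosh lam else 1) := by
    intro x
    rw [Fintype.sum_bool]
    by_cases hx : x ∈ P
    · simp only [hx, if_true, sg]
      rw [Real.cosh_eq]
      simp
      ring
    · simp only [hx, if_false]
      norm_num
  rw [Finset.prod_congr rfl (fun x _ => h2 x), Finset.prod_mul_distrib, Finset.prod_const,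
    Finset.card_univ, Finset.prod_ite_mem, Finset.univ_inter, Finset.prod_const]

open Classical in
theorem sign_sum {V : Type} [Fintype V] {f : V → V} {v w : V} (h : w ∈ desc f v) (lam : ℝ) :
    ∑ e : V → Bool, Real.exp (lam * (rh f e v w : ℤ)) =
      2 ^ Fintype.card V * Real.cosh lam ^ dp f v w := by
  have hinj : Set.InjOn (fun i => f^[i] w) (↑(range (dp f v w)) : Set ℕ) := by
    intro a ha b hb hab
    rw [Finset.mem_coe, Finset.mem_range] at ha hb
    exact path_inj h (Set.mem_Iic.2 ha.le) (Set.mem_Iic.2 hb.le) hab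
  have hcard : ((range (dp f v w)).image (fun i => f^[i] w)).card = dp f v w := by
    rw [Finset.card_image_of_injOn hinj, Finset.card_range]
  have hmain := sum_prod_ite ((range (dp f v w)).image (fun i => f^[i] w)) lam
  rw [hcard] at hmain
  rw [← hmain]
  refine Finset.sum_congr rfl (fun e _ => ?_)
  rw [Finset.prod_ite_mem, Finset.univ_inter, Finset.prod_image hinj, ← Real.exp_sum]
  congr 1
  rw [rh, Int.cast_sum, Finset.mul_sum]

end Pool.Agent.Work.MP_fcea8e_co.Typ
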