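import Pool.Agent.Work.MP_fcea8e_co.Typ.MaxSum
import Pool.Agent.Work.MP_fcea8e_co.Typ.CoshSum

/-!
# Module SizeMean (M): the mean over all trees on `A` with root `v`

Proof. Let `m = |A| ≥ 1`, `lam = m ^ (-1/4) > 0`, `a = 2 log m + 1`, so `exp (-a) * (m ^ 2 * exp 1) = 1`.
Sum `max_sum` over `f ∈ Fo A {v}` (`desc f v = A` by `fo_desc`) and use `cosh_sum`:
`∑_f ∑_e mx ≤ 2 ^ |V| m ^ (1/4) (a |Fo| + exp (-a) |Fo| m ^ 2 exp 1) = 2 ^ |V| m ^ (1/4) |Fo| (a + 1)`.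
Finally `m ^ (1/4) (2 log m + 2) ≤ 42 m ^ (3/10)`: `log m ≤ m ^ (1/20) * 20` (`Real.log_le_rpow_div`),
`1 ≤ m ^ (1/20)` and `m ^ (1/4) m ^ (1/20) = m ^ (3/10)`.
-/

set_option autoImplicit false

namespace Pool.Agent.Work.MP_fcea8e_co.Typ

open Finset

private theorem last_bd {x : ℝ} (hx : 1 ≤ x) :
    x ^ (1 / 4 : ℝ) * (2 * Real.log x + 2) ≤ 42 * x ^ (3 / 10 : ℝ) := by
  have hx0 : 0 < x := by linarith
  have h1 : Real.log x ≤ x ^ (1 / 20 : ℝ) / (1 / 20) :=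
    Real.log_le_rpow_div hx0.le (by norm_num)
  have h2 : (1 : ℝ) ≤ x ^ (1 / 20 : ℝ) := Real.one_le_rpow hx (by norm_num)
  have h3 : x ^ (1 / 4 : ℝ) * x ^ (1 / 20 : ℝ) = x ^ (3 / 10 : ℝ) := by
    rw [← Real.rpow_add hx0]
    norm_num
  have h4 : 2 * Real.log x + 2 ≤ 42 * x ^ (1 / 20 : ℝ) := by linarith
  calc x ^ (1 / 4 : ℝ) * (2 * Real.log x + 2)
      ≤ x ^ (1 / 4 : ℝ) * (42 * x ^ (1 / 20 : ℝ)) :=
        mul_le_mul_of_nonneg_left h4 (Real.rpow_nonneg hx0.le _)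
    _ = 42 * (x ^ (1 / 4 : ℝ) * x ^ (1 / 20 : ℝ)) := by ring
    _ = _ := by rw [h3]

private theorem exp_cancel {x : ℝ} (hx : 0 < x) :
    Real.exp (-(2 * Real.log x + 1)) * (x ^ 2 * Real.exp 1) = 1 := by
  have h1 : x ^ 2 = Real.exp (2 * Real.log x) := by
    rw [two_mul, Real.exp_add, Real.exp_log hx, sq]
  rw [h1, ← Real.exp_add, ← Real.exp_add, ← Real.exp_zero]
  congr 1
  ring

open Classical in
theorem size_mean {V : Type} [Fintype V] {A : Finset V} {v : V} (hv : v ∈ A) :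
    ∑ f ∈ Fo A {v}, ∑ e : V → Bool, (mx f e v : ℝ) ≤
      2 ^ Fintype.card V * (Fo A {v}).card * (42 * (A.card : ℝ) ^ (3 / 10 : ℝ)) := by
  have hm : 1 ≤ A.card := Finset.card_pos.mpr ⟨v, hv⟩
  have hm1 : (1 : ℝ) ≤ (A.card : ℝ) := by exact_mod_cast hm
  have hm0 : (0 : ℝ) < (A.card : ℝ) := by linarith
  have hc := cosh_sum hv
  set m : ℝ := (A.card : ℝ) with hmdef
  set lam : ℝ := m ^ (-(1 / 4) : ℝ) with hlam
  have hl : 0 < lam := Real.rpow_pos_of_pos hm0 _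
  have hli : lam⁻¹ = m ^ (1 / 4 : ℝ) := by
    rw [hlam, Real.rpow_neg hm0.le, inv_inv]
  set a : ℝ := 2 * Real.log m + 1 with ha
  have hF : (0 : ℝ) ≤ ((Fo A {v}).card : ℝ) := Nat.cast_nonneg _
  have h1 : ∀ f ∈ Fo A {v}, ∑ e : V → Bool, (mx f e v : ℝ) ≤ 2 ^ Fintype.card V * lam⁻¹ *
      (a + 2 * Real.exp (-a) * ∑ w ∈ A, Real.cosh lam ^ dp f v w) := by
    intro f hf
    have h2 := max_sum f v hl a
    rw [fo_desc hv hf] at h2
    exact h2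
  have hC : (0 : ℝ) ≤ 2 ^ Fintype.card V * lam⁻¹ := by positivity
  calc ∑ f ∈ Fo A {v}, ∑ e : V → Bool, (mx f e v : ℝ)
      ≤ ∑ f ∈ Fo A {v}, 2 ^ Fintype.card V * lam⁻¹ *
        (a + 2 * Real.exp (-a) * ∑ w ∈ A, Real.cosh lam ^ dp f v w) := Finset.sum_le_sum h1
    _ = 2 ^ Fintype.card V * lam⁻¹ * ((Fo A {v}).card * a + Real.exp (-a) *
        (2 * ∑ f ∈ Fo A {v}, ∑ w ∈ A, Real.cosh lam ^ dp f v w)) := by
        rw [← Finset.mul_sum, Finset.sum_add_distrib, Finset.sum_const, nsmul_eq_mul,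
          ← Finset.mul_sum]
        ring
    _ ≤ 2 ^ Fintype.card V * lam⁻¹ * ((Fo A {v}).card * a + Real.exp (-a) *
        ((Fo A {v}).card * (m ^ 2 * Real.exp 1))) := by
        refine mul_le_mul_of_nonneg_left ?_ hC
        have := mul_le_mul_of_nonneg_left hc (Real.exp_pos (-a)).le
        linarith
    _ = 2 ^ Fintype.card V * lam⁻¹ * ((Fo A {v}).card * (a + Real.exp (-a) *
        (m ^ 2 * Real.exp 1))) := by ring
    _ = 2 ^ Fintype.card V * (Fo A {v}).card * (m ^ (1 / 4 : ℝ) * (2 * Real.log m + 2)) := by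
        rw [ha, exp_cancel hm0, hli]
        ring
    _ ≤ _ := mul_le_mul_of_nonneg_left (last_bd hm1) (by positivity)

end Pool.Agent.Work.MP_fcea8e_co.Typ
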