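import Mathlib

/-!
# Module Stirl (M): a bound for binomial probabilities

Proof. Stirling: for `n ≥ 1`, `√π * √(2 n) (n / e) ^ n ≤ n! ≤ (e / √2) * √(2 n) (n / e) ^ n`
(`Stirling.stirlingSeq n = n! / (√(2 n) (n / e) ^ n)`, `Stirling.sqrt_pi_le_stirlingSeq`,
`Stirling.stirlingSeq'_antitone`, `Stirling.stirlingSeq_one : stirlingSeq 1 = exp 1 / √2`). So with
`m + n = k`: `k! m ^ m n ^ n / (m! n! k ^ k) ≤ (e / √2) √(2 k) / (√π √(2 m) √π √(2 n))
= (e / (2 π)) √(k / (m n)) ≤ √(k / (m n))`; all powers of `e` cancel, and `e < 2 π`.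
(`Nat.add_choose`, `Nat.choose_eq_factorial_div_factorial` or
`Nat.add_choose_mul_factorial_mul_factorial : (i + j).choose j * i ! * j ! = (i + j)!`.)
-/

set_option autoImplicit false

namespace Pool.Agent.Work.MP_fcea8e_co.Typ

open Finset

private theorem fact_eq {n : ℕ} (hn : 1 ≤ n) :
    (n.factorial : ℝ) = Stirling.stirlingSeq n * (√(2 * n) * (n / Real.exp 1) ^ n) := by
  have hn' : (0 : ℝ) < n := by exact_mod_cast hn
  have h : √(2 * (n : ℝ)) * ((n : ℝ) / Real.exp 1) ^ n ≠ 0 := by positivity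
  rw [Stirling.stirlingSeq, div_mul_cancel₀ _ h]

theorem binom_le {m n : ℕ} (hm : 1 ≤ m) (hn : 1 ≤ n) :
    ((m + n).choose m : ℝ) * (m : ℝ) ^ m * (n : ℝ) ^ n ≤
      ((m + n : ℕ) : ℝ) ^ (m + n) * √(((m + n : ℕ) : ℝ) / (m * n)) := by
  have hk : 1 ≤ m + n := by omega
  have hm' : (0 : ℝ) < m := by exact_mod_cast hm
  have hn' : (0 : ℝ) < n := by exact_mod_cast hn
  have hk' : (0 : ℝ) < ((m + n : ℕ) : ℝ) := by exact_mod_cast hk
  have hfac : ((m + n).choose m : ℝ) * m.factorial * n.factorial = ((m + n).factorial : ℝ) := by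
    rw [Nat.choose_symm_add]
    exact_mod_cast Nat.add_choose_mul_factorial_mul_factorial m n
  rw [fact_eq hm, fact_eq hn, fact_eq hk] at hfac
  set k : ℕ := m + n with hkdef
  have hSm := Stirling.sqrt_pi_le_stirlingSeq (by omega : m ≠ 0)
  have hSn := Stirling.sqrt_pi_le_stirlingSeq (by omega : n ≠ 0)
  have hSk : Stirling.stirlingSeq k ≤ Real.exp 1 / √2 := by
    rw [← Stirling.stirlingSeq_one]
    have h1 := Stirling.stirlingSeq'_antitone (Nat.zero_le (k - 1))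
    simp only [Function.comp_apply, Nat.succ_eq_add_one] at h1
    rwa [Nat.sub_add_cancel hk, zero_add] at h1
  have hexp : 0 < Real.exp 1 := Real.exp_pos 1
  have hfac2 : ((k.choose m : ℝ) * (m : ℝ) ^ m * (n : ℝ) ^ n) *
      (Stirling.stirlingSeq m * Stirling.stirlingSeq n * (√(2 * m) * √(2 * n))) =
      Stirling.stirlingSeq k * √(2 * k) * (k : ℝ) ^ k := by
    have h1 : ((m : ℝ) / Real.exp 1) ^ m * ((n : ℝ) / Real.exp 1) ^ n =
        (m : ℝ) ^ m * (n : ℝ) ^ n / Real.exp 1 ^ k := by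
      rw [div_pow, div_pow, div_mul_div_comm, ← pow_add]
    have h2 : ((k : ℝ) / Real.exp 1) ^ k = (k : ℝ) ^ k / Real.exp 1 ^ k := div_pow _ _ _
    rw [h2] at hfac
    have h3 : (k.choose m : ℝ) * (Stirling.stirlingSeq m * (√(2 * m) * ((m : ℝ) / Real.exp 1) ^ m)) *
        (Stirling.stirlingSeq n * (√(2 * n) * ((n : ℝ) / Real.exp 1) ^ n)) =
        (k.choose m : ℝ) * (Stirling.stirlingSeq m * Stirling.stirlingSeq n * (√(2 * m) * √(2 * n))) *
          (((m : ℝ) / Real.exp 1) ^ m * ((n : ℝ) / Real.exp 1) ^ n) := by ring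
    rw [h3, h1] at hfac
    have h4 : Real.exp 1 ^ k ≠ 0 := by positivity
    field_simp at hfac
    linarith
  have hprod : Real.pi * (2 * √((m : ℝ) * n)) ≤
      Stirling.stirlingSeq m * Stirling.stirlingSeq n * (√(2 * m) * √(2 * n)) := by
    have h1 : √(2 * (m : ℝ)) * √(2 * n) = 2 * √((m : ℝ) * n) := by
      rw [← Real.sqrt_mul (by positivity)]
      rw [show 2 * (m : ℝ) * (2 * n) = 2 ^ 2 * (m * n) by ring, Real.sqrt_mul (by positivity),
        Real.sqrt_sq (by norm_num)]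
    rw [h1]
    apply mul_le_mul_of_nonneg_right _ (by positivity)
    calc Real.pi = √Real.pi * √Real.pi := (Real.mul_self_sqrt Real.pi_pos.le).symm
      _ ≤ _ := mul_le_mul hSm hSn (Real.sqrt_nonneg _) ((Real.sqrt_nonneg _).trans hSm)
  have hX : 0 ≤ (k.choose m : ℝ) * (m : ℝ) ^ m * (n : ℝ) ^ n := by positivity
  have hkey : ((k.choose m : ℝ) * (m : ℝ) ^ m * (n : ℝ) ^ n) * (Real.pi * (2 * √((m : ℝ) * n))) ≤
      Real.exp 1 * √k * (k : ℝ) ^ k := by
    refine (mul_le_mul_of_nonneg_left hprod hX).trans ?_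
    rw [hfac2]
    have h1 : Real.exp 1 / √2 * √(2 * (k : ℝ)) = Real.exp 1 * √k := by
      rw [Real.sqrt_mul (by norm_num)]
      have : √(2 : ℝ) ≠ 0 := by positivity
      field_simp
    rw [← h1]
    apply mul_le_mul_of_nonneg_right _ (by positivity)
    exact mul_le_mul_of_nonneg_right hSk (Real.sqrt_nonneg _)
  have hs : 0 < √((m : ℝ) * n) := Real.sqrt_pos.2 (by positivity)
  rw [Real.sqrt_div hk'.le, ← mul_div_assoc, le_div_iff₀ hs]
  have hpi : Real.exp 1 ≤ 2 * Real.pi := by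
    have := Real.exp_one_lt_d9
    have := Real.pi_gt_three
    linarith
  have h5 : 0 ≤ √(k : ℝ) * (k : ℝ) ^ k := by positivity
  have h6 : Real.exp 1 * √(k : ℝ) * (k : ℝ) ^ k ≤ 2 * Real.pi * (√(k : ℝ) * (k : ℝ) ^ k) := by
    rw [mul_assoc]
    exact mul_le_mul_of_nonneg_right hpi h5
  have h7 : 2 * Real.pi * (((k.choose m : ℝ) * (m : ℝ) ^ m * (n : ℝ) ^ n) * √((m : ℝ) * n)) ≤
      2 * Real.pi * ((k : ℝ) ^ k * √(k : ℝ)) := by
    calc _ = ((k.choose m : ℝ) * (m : ℝ) ^ m * (n : ℝ) ^ n) * (Real.pi * (2 * √((m : ℝ) * n))) := by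
          ring
      _ ≤ 2 * Real.pi * (√(k : ℝ) * (k : ℝ) ^ k) := hkey.trans h6
      _ = _ := by ring
  exact le_of_mul_le_mul_left h7 (by positivity)

end Pool.Agent.Work.MP_fcea8e_co.Typ
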