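import Pool.Agent.Work.MP_fcea8e_co.Typ.FoCard
import Pool.Agent.Work.MP_fcea8e_co.Typ.Stirl

/-!
# Module SizeTotal (M): the total contribution of the vertices with `m` descendants

General form: `Q v : (V → V) → ℝ` are nonnegative local functions, with mean at most `q` over the trees on
`A` with root `v`, for `|A| = m`.
Proof. `∑_{f ∈ F} ∑_{v, |desc f v| = m} Q v f = ∑_v ∑_{A ∋ v, |A| = m} ∑_{f ∈ F, desc f v = A} Q v f`
(`v ∈ desc f v`; `Finset.sum_comm`, `Finset.sum_fiberwise`), by `Glue` at most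
`∑_{|A| = m} ∑_{v ∈ A} κ (k - m) ^ (k - m) |Fo A {v}| q`, and `m |Fo A {v}| = m ^ (m - 1)` (`fo_card`,
`|A \ {v}| = m - 1`). The number of pairs `(A, v)` is `choose k m * m`
(`Finset.card_powersetCard`). So the sum is at most `κ q choose k m * m ^ (m - 1) (k - m) ^ (k - m)`
(`exact_total`).
`size_total`: for `m = k` this is `κ q k ^ (k - 1)`. For `m < k`, `binom_le` with `n = k - m`:
`choose k m * m ^ m (k - m) ^ (k - m) ≤ k ^ k √(k / (m (k - m)))`, so
`choose k m * m ^ (m - 1) (k - m) ^ (k - m) ≤ k ^ k √(k / (k - m)) m ^ (-3/2)`.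
-/

set_option autoImplicit false

namespace Pool.Agent.Work.MP_fcea8e_co.Typ

open Finset

open Classical in
theorem exact_total {V : Type} [Fintype V] {F : Finset (V → V)} {κ : ℝ} (hF : Glue F κ)
    (hκ : 0 ≤ κ) (Q : V → (V → V) → ℝ) (hQ : ∀ v f, 0 ≤ Q v f) (hQl : ∀ A v, Loc A v (Q v))
    {m : ℕ} (hm : 1 ≤ m) {q : ℝ}
    (hq : ∀ A v, v ∈ A → A.card = m → ∑ f ∈ Fo A {v}, Q v f ≤ (Fo A {v}).card * q) :
    ∑ f ∈ F, ∑ v, (if (desc f v).card = m then Q v f else 0) ≤
      κ * q * ((Fintype.card V).choose m * (m : ℝ) ^ (m - 1) *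
        ((Fintype.card V - m : ℕ) : ℝ) ^ (Fintype.card V - m)) := by
  have hm0 : (0 : ℝ) < m := by exact_mod_cast hm
  have key : ∀ v : V, ∀ A ∈ (powersetCard m (univ : Finset V)).filter (fun A => v ∈ A),
      ∑ f ∈ (F.filter (fun f => (desc f v).card = m)).filter (fun f => desc f v = A), Q v f ≤
        κ * q * ((m : ℝ) ^ (m - 1) / m *
          ((Fintype.card V - m : ℕ) : ℝ) ^ (Fintype.card V - m)) := by
    intro v A hA
    obtain ⟨hA1, hvA⟩ := mem_filter.1 hA
    have hAc : A.card = m := (mem_powersetCard.1 hA1).2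
    have hcc : Aᶜ.card = Fintype.card V - m := by rw [card_compl, hAc]
    have h1 := hF A v hvA (Q v) (hQ v) (hQl A v)
    have h2 := hq A v hvA hAc
    have h3 : A.card * (Fo A {v}).card = ({v} : Finset V).card * A.card ^ (A \ {v}).card :=
      fo_card (singleton_subset_iff.2 hvA)
    rw [card_singleton, one_mul, card_sdiff_of_subset (singleton_subset_iff.2 hvA),
      card_singleton, hAc] at h3
    have h3' : ((Fo A {v}).card : ℝ) = (m : ℝ) ^ (m - 1) / m := by
      rw [eq_div_iff hm0.ne', mul_comm]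
      exact_mod_cast h3
    rw [hcc] at h1
    have hp : (0 : ℝ) ≤ κ * ((Fintype.card V - m : ℕ) : ℝ) ^ (Fintype.card V - m) := by
      positivity
    calc _ ≤ ∑ f ∈ F.filter (fun f => desc f v = A), Q v f := by
          refine Finset.sum_le_sum_of_subset_of_nonneg ?_ (fun f _ _ => hQ v f)
          intro f hf
          obtain ⟨hf1, hf2⟩ := mem_filter.1 hf
          exact mem_filter.2 ⟨(mem_filter.1 hf1).1, hf2⟩
      _ ≤ κ * ((Fintype.card V - m : ℕ) : ℝ) ^ (Fintype.card V - m) *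
            ((Fo A {v}).card * q) := h1.trans (mul_le_mul_of_nonneg_left h2 hp)
      _ = _ := by rw [h3']; ring
  rw [Finset.sum_comm]
  have hv : ∀ v : V, ∑ f ∈ F, (if (desc f v).card = m then Q v f else 0) ≤
      ∑ A ∈ powersetCard m (univ : Finset V), if v ∈ A then
        κ * q * ((m : ℝ) ^ (m - 1) / m *
          ((Fintype.card V - m : ℕ) : ℝ) ^ (Fintype.card V - m)) else 0 := by
    intro v
    have hmap : ∀ f ∈ F.filter (fun f => (desc f v).card = m),
        desc f v ∈ (powersetCard m (univ : Finset V)).filter (fun A => v ∈ A) := fun f hf =>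
      mem_filter.2 ⟨mem_powersetCard.2 ⟨subset_univ _, (mem_filter.1 hf).2⟩,
        mem_filter.2 ⟨mem_univ _, 0, rfl⟩⟩
    rw [← Finset.sum_filter, ← Finset.sum_fiberwise_of_maps_to hmap, ← Finset.sum_filter]
    exact Finset.sum_le_sum (key v)
  refine (Finset.sum_le_sum (fun v _ => hv v)).trans (le_of_eq ?_)
  rw [Finset.sum_comm]
  have hA : ∀ A ∈ powersetCard m (univ : Finset V), (∑ v : V, if v ∈ A then
        κ * q * ((m : ℝ) ^ (m - 1) / m *
          ((Fintype.card V - m : ℕ) : ℝ) ^ (Fintype.card V - m)) else 0) =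
      m * (κ * q * ((m : ℝ) ^ (m - 1) / m *
          ((Fintype.card V - m : ℕ) : ℝ) ^ (Fintype.card V - m))) := by
    intro A hA
    rw [Finset.sum_ite_mem, univ_inter, sum_const, nsmul_eq_mul, (mem_powersetCard.1 hA).2]
  rw [Finset.sum_congr rfl hA, sum_const, nsmul_eq_mul, card_powersetCard, card_univ]
  field_simp

open Classical in
theorem size_total {V : Type} [Fintype V] {F : Finset (V → V)} {κ : ℝ} (hF : Glue F κ)
    (hκ : 0 ≤ κ) (Q : V → (V → V) → ℝ) (hQ : ∀ v f, 0 ≤ Q v f) (hQl : ∀ A v, Loc A v (Q v))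
    {m : ℕ} (hm : 1 ≤ m) {q : ℝ} (hq0 : 0 ≤ q)
    (hq : ∀ A v, v ∈ A → A.card = m → ∑ f ∈ Fo A {v}, Q v f ≤ (Fo A {v}).card * q) :
    (m < Fintype.card V → ∑ f ∈ F, ∑ v, (if (desc f v).card = m then Q v f else 0) ≤
      κ * (Fintype.card V : ℝ) ^ Fintype.card V * (q *
        (√((Fintype.card V : ℝ) / (Fintype.card V - m)) * (m : ℝ) ^ (-(3 / 2) : ℝ)))) ∧
    (m = Fintype.card V → ∑ f ∈ F, ∑ v, (if (desc f v).card = m then Q v f else 0) ≤
      κ * (Fintype.card V : ℝ) ^ (Fintype.card V - 1) * q) := by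
  have hb := exact_total hF hκ Q hQ hQl hm hq
  have hm0 : (0 : ℝ) < m := by exact_mod_cast hm
  refine ⟨fun hlt => ?_, fun heq => ?_⟩
  · refine hb.trans ?_
    obtain ⟨n, hn⟩ : ∃ n, Fintype.card V = m + n := ⟨Fintype.card V - m, by omega⟩
    have hn1 : 1 ≤ n := by omega
    have hn0 : (0 : ℝ) < n := by exact_mod_cast hn1
    have h1 := binom_le hm hn1
    have h2 : Fintype.card V - m = n := by omega
    rw [h2, hn]
    have h3 : ((m + n : ℕ) : ℝ) - m = n := by push_cast; ring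
    rw [h3]
    have h4 : √(((m + n : ℕ) : ℝ) / (m * n)) = √(((m + n : ℕ) : ℝ) / n) / √m := by
      rw [← Real.sqrt_div' _ hm0.le]
      congr 1
      field_simp
    have h5 : (m : ℝ) ^ (-(3 / 2) : ℝ) = 1 / (√m * m) := by
      rw [Real.rpow_neg hm0.le, show (3 / 2 : ℝ) = 1 / 2 + 1 by norm_num,
        Real.rpow_add hm0, Real.rpow_one, ← Real.sqrt_eq_rpow, one_div]
    have h6 : (m : ℝ) ^ m = (m : ℝ) ^ (m - 1) * m := by
      rw [← pow_succ, Nat.sub_add_cancel hm]
    rw [h4, h6] at h1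
    rw [h5]
    have hs : 0 < √(m : ℝ) := Real.sqrt_pos.2 hm0
    have h7 : ((m + n).choose m : ℝ) * (m : ℝ) ^ (m - 1) * (n : ℝ) ^ n ≤
        ((m + n : ℕ) : ℝ) ^ (m + n) * (√(((m + n : ℕ) : ℝ) / n) * (1 / (√m * m))) := by
      rw [show ((m + n : ℕ) : ℝ) ^ (m + n) * (√(((m + n : ℕ) : ℝ) / n) * (1 / (√m * m))) =
        (((m + n : ℕ) : ℝ) ^ (m + n) * (√(((m + n : ℕ) : ℝ) / n) / √m)) / m by
          field_simp]
      rw [le_div_iff₀ hm0]
      calc _ = ((m + n).choose m : ℝ) * ((m : ℝ) ^ (m - 1) * m) * (n : ℝ) ^ n := by ring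
        _ ≤ _ := h1
    calc _ ≤ κ * q * (((m + n : ℕ) : ℝ) ^ (m + n) *
          (√(((m + n : ℕ) : ℝ) / n) * (1 / (√m * m)))) :=
          mul_le_mul_of_nonneg_left h7 (mul_nonneg hκ hq0)
      _ = _ := by ring
  · refine hb.trans (le_of_eq ?_)
    rw [← heq, Nat.choose_self, Nat.sub_self, pow_zero]
    push_cast
    ring

end Pool.Agent.Work.MP_fcea8e_co.Typ
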