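import Pool.Agent.Work.MP_fcea8e_co.Typ.SizeTotal
import Pool.Agent.Work.MP_fcea8e_co.Typ.Series
import Pool.Agent.Work.MP_fcea8e_co.Typ.SizeMean
import Pool.Agent.Work.MP_fcea8e_co.Typ.Local

/-!
# Module Total (M): the total mean

Proof. Let `k = |V|`, `Q v f = ∑_e mx f e v` (nonnegative, local by `loc_fun_mx`). `1 ≤ |desc f v| ≤ k`, so
`∑_v (if L ≤ |desc f v| then Q v f else 0) = ∑_{m ∈ Icc L k} ∑_v (if |desc f v| = m then Q v f else 0)`.
`size_total` with `q = 2 ^ k * 42 m ^ (3/10)` (`size_mean`). For `m < k` the bound is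
`κ k ^ k 2 ^ k 42 √(k / (k - m)) m ^ (3/10 - 3/2)`, `3/10 - 3/2 = -6/5`; sum over `m ∈ Ico L k` with
`series_le`: at most `κ k ^ k 2 ^ k * 840 L ^ (-1/5)`. For `m = k`: `κ k ^ (k - 1) 2 ^ k 42 k ^ (3/10)`.
`k ^ k = k ^ (k - 1) * k`.
-/

set_option autoImplicit false

namespace Pool.Agent.Work.MP_fcea8e_co.Typ

open Finset

open Classical in
theorem total_mean {V : Type} [Fintype V] {F : Finset (V → V)} {κ : ℝ} (hF : Glue F κ)
    (hκ : 0 ≤ κ) (hV : 1 ≤ Fintype.card V) {L : ℕ} (hL : 1 ≤ L) :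
    ∑ f ∈ F, ∑ e : V → Bool, ∑ v, (if L ≤ (desc f v).card then (mx f e v : ℝ) else 0) ≤
      κ * (Fintype.card V : ℝ) ^ (Fintype.card V - 1) * 2 ^ Fintype.card V *
        (840 * (Fintype.card V * (L : ℝ) ^ (-(1 / 5) : ℝ) +
          (Fintype.card V : ℝ) ^ (3 / 10 : ℝ))) := by
  have hk0 : (0 : ℝ) < Fintype.card V := by exact_mod_cast hV
  have hL0 : (0 : ℝ) < L := by exact_mod_cast hL
  have h1 : ∑ f ∈ F, ∑ e : V → Bool, ∑ v,
      (if L ≤ (desc f v).card then (mx f e v : ℝ) else 0) =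
      ∑ m ∈ Icc L (Fintype.card V), ∑ f ∈ F, ∑ v,
        (if (desc f v).card = m then ∑ e : V → Bool, (mx f e v : ℝ) else 0) := by
    rw [sum_comm (s := Icc L (Fintype.card V))]
    refine sum_congr rfl fun f _ => ?_
    rw [sum_comm (s := Icc L (Fintype.card V)), sum_comm]
    refine sum_congr rfl fun v _ => ?_
    by_cases h : L ≤ (desc f v).card
    · simp only [if_pos h]
      rw [sum_ite_eq, if_pos (mem_Icc.2 ⟨h, card_le_univ _⟩)]
    · simp only [if_neg h, sum_const_zero]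
      symm
      apply sum_eq_zero
      intro m hm
      rw [if_neg]
      intro h2
      rw [h2] at h
      exact h (mem_Icc.1 hm).1
  have h2 : ∀ m, 1 ≤ m → (m < Fintype.card V → ∑ f ∈ F, ∑ v,
        (if (desc f v).card = m then ∑ e : V → Bool, (mx f e v : ℝ) else 0) ≤
      κ * (Fintype.card V : ℝ) ^ Fintype.card V *
        ((2 ^ Fintype.card V * (42 * (m : ℝ) ^ (3 / 10 : ℝ))) *
        (√((Fintype.card V : ℝ) / (Fintype.card V - m)) * (m : ℝ) ^ (-(3 / 2) : ℝ)))) ∧
    (m = Fintype.card V → ∑ f ∈ F, ∑ v,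
        (if (desc f v).card = m then ∑ e : V → Bool, (mx f e v : ℝ) else 0) ≤
      κ * (Fintype.card V : ℝ) ^ (Fintype.card V - 1) *
        (2 ^ Fintype.card V * (42 * (m : ℝ) ^ (3 / 10 : ℝ)))) := by
    intro m hm
    refine size_total hF hκ (fun v f => ∑ e : V → Bool, (mx f e v : ℝ))
      (fun v f => sum_nonneg fun e _ => Nat.cast_nonneg _) (fun A v => loc_fun_mx A v) hm
      (by positivity) ?_
    intro A v hv hA
    refine (size_mean hv).trans (le_of_eq ?_)
    rw [hA]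
    ring
  have h3 : ∑ m ∈ Ico L (Fintype.card V), ∑ f ∈ F, ∑ v,
        (if (desc f v).card = m then ∑ e : V → Bool, (mx f e v : ℝ) else 0) ≤
      κ * (Fintype.card V : ℝ) ^ Fintype.card V * 2 ^ Fintype.card V *
        (840 * (L : ℝ) ^ (-(1 / 5) : ℝ)) := by
    calc ∑ m ∈ Ico L (Fintype.card V), ∑ f ∈ F, ∑ v,
          (if (desc f v).card = m then ∑ e : V → Bool, (mx f e v : ℝ) else 0)
        ≤ ∑ m ∈ Ico L (Fintype.card V), κ * (Fintype.card V : ℝ) ^ Fintype.card V *
          2 ^ Fintype.card V * 42 * (√((Fintype.card V : ℝ) / (Fintype.card V - m)) *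
            (m : ℝ) ^ (-(6 / 5) : ℝ)) := by
          refine sum_le_sum fun m hm => ?_
          obtain ⟨h4, h5⟩ := mem_Ico.1 hm
          have hm0 : (0 : ℝ) < m := by
            have : 0 < m := by omega
            exact_mod_cast this
          refine ((h2 m (by omega)).1 h5).trans (le_of_eq ?_)
          have h6 : (m : ℝ) ^ (-(6 / 5) : ℝ) =
              (m : ℝ) ^ (3 / 10 : ℝ) * (m : ℝ) ^ (-(3 / 2) : ℝ) := by
            rw [← Real.rpow_add hm0]
            norm_num
          rw [h6]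
          ring
      _ = κ * (Fintype.card V : ℝ) ^ Fintype.card V * 2 ^ Fintype.card V * 42 *
          ∑ m ∈ Ico L (Fintype.card V), √((Fintype.card V : ℝ) / (Fintype.card V - m)) *
            (m : ℝ) ^ (-(6 / 5) : ℝ) := by rw [mul_sum]
      _ ≤ κ * (Fintype.card V : ℝ) ^ Fintype.card V * 2 ^ Fintype.card V * 42 *
          (20 * (L : ℝ) ^ (-(1 / 5) : ℝ)) :=
          mul_le_mul_of_nonneg_left (series_le hL) (by positivity)
      _ = _ := by ring
  have h7 : (Fintype.card V : ℝ) ^ Fintype.card V =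
      (Fintype.card V : ℝ) ^ (Fintype.card V - 1) * Fintype.card V := by
    rw [← pow_succ, Nat.sub_add_cancel hV]
  rw [h1]
  by_cases hLk : L ≤ Fintype.card V
  · rw [← Finset.Ico_insert_right hLk, sum_insert (by simp)]
    have h4 := (h2 (Fintype.card V) hV).2 rfl
    have h5 : κ * (Fintype.card V : ℝ) ^ (Fintype.card V - 1) *
        (2 ^ Fintype.card V * (42 * (Fintype.card V : ℝ) ^ (3 / 10 : ℝ))) ≤
        κ * (Fintype.card V : ℝ) ^ (Fintype.card V - 1) *
        (2 ^ Fintype.card V * (840 * (Fintype.card V : ℝ) ^ (3 / 10 : ℝ))) := by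
      have h6 : (0 : ℝ) ≤ (Fintype.card V : ℝ) ^ (3 / 10 : ℝ) := by positivity
      refine mul_le_mul_of_nonneg_left ?_ (by positivity)
      refine mul_le_mul_of_nonneg_left ?_ (by positivity)
      linarith
    refine (add_le_add (h4.trans h5) h3).trans (le_of_eq ?_)
    rw [h7]
    ring
  · rw [Icc_eq_empty hLk, sum_empty]
    positivity

end Pool.Agent.Work.MP_fcea8e_co.Typ
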