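import Pool.Agent.Work.MP_fcea8e_co.Typ.MapBase

/-!
# Module TrTree (M): the digraph of a rooted tree

Proofs. Let `f ∈ TM V` with root `r` (`f r = r`, `r` the only fixed point: a fixed point reaches `r`,
`Function.iterate_fixed`). `desc f r = univ`, and for `x ≠ r`, `dp f r (f x) + 1 = dp f r x` (`dp_iter` with
`i = 1`, `dp f r x ≥ 1`). `tr_oriented`: if `Adj a b` and `Adj b a` then, `a ≠ b`, and either `f a = b` and
`f b = a`, which gives `dp a = dp b + 1` and `dp b = dp a + 1` (`a, b ≠ r` as they are not fixed), or both arcs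
come from the same equation `f b = a` (or `f a = b`) with `e b = true` and `e b = false`.
`tr_isTree`: `G = fromRel (Tr f e).Adj`: `G.Adj a b` iff `a ≠ b` and (`f a = b` or `f b = a`). Connected:
every `x` is reachable from `r` by induction on `dp f r x` (`SimpleGraph.connected_iff`,
`Reachable.trans`). The edges are the `s(x, f x)`, `x ≠ r`, all different (`dp`), so there are `|V| - 1`
edges: `SimpleGraph.isTree_iff_connected_and_card` (with `Nat.card`), or
`SimpleGraph.IsTree` from connectedness and `card_edgeFinset`. Model: `Dom/Tree.lean`.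
`tr_describes`: with `R.v = r`, `R.p = f`, `R.dir = e`, `R.dep = dp f r`: `a ≠ b`, `f b = a` is the same as
`b ≠ r`, `f b = a` (a vertex with `f b = b` is the root).
-/

set_option autoImplicit false

namespace Pool.Agent.Work.MP_fcea8e_co.Typ

open Finset Pool.Agent.Work.MP_fcea8e_co.Dom

variable {V : Type} [Fintype V] {f : V → V} {r : V}

theorem root_unique (hr : f r = r) (h : ∀ x, ∃ n, f^[n] x = r) {x : V} (hx : f x = x) :
    x = r := by
  obtain ⟨n, hn⟩ := h x
  rw [Function.iterate_fixed hx] at hn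
  exact hn

theorem dp_step (hr : f r = r) (h : ∀ x, ∃ n, f^[n] x = r) {x : V} (hx : x ≠ r) :
    dp f r (f x) + 1 = dp f r x := by
  have hm : x ∈ desc f r := mem_desc.mpr (h x)
  have h0 : 1 ≤ dp f r x := by
    rcases Nat.eq_zero_or_pos (dp f r x) with h0 | h0
    · exfalso
      have h1 := iter_dp hm
      rw [h0] at h1
      exact hx h1
    · exact h0
  have h1 : dp f r (f x) = dp f r x - 1 := dp_iter hm h0
  omega

private theorem no_two (hr : f r = r) (h : ∀ x, ∃ n, f^[n] x = r) {a b : V} (hab : a ≠ b)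
    (h1 : f a = b) (h2 : f b = a) : False := by
  have ha : a ≠ r := by
    intro hc
    apply hab
    rw [← h1, hc, hr]
  have hb : b ≠ r := by
    intro hc
    apply hab
    rw [← h2, hc, hr]
  have h3 := dp_step hr h ha
  have h4 := dp_step hr h hb
  rw [h1] at h3
  rw [h2] at h4
  omega

theorem tr_oriented (hf : f ∈ TM V) (e : V → Bool) : Oriented (Tr f e) := by
  classical
  rw [TM, mem_filter] at hf
  obtain ⟨-, r, hr, h⟩ := hf
  intro a b h1 h2
  rcases h1 with ⟨h3, h4, h5⟩ | ⟨h3, h4, h5⟩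
  · rcases h2 with ⟨h6, h7, h8⟩ | ⟨h6, h7, h8⟩
    · exact no_two hr h h3 h7 h4
    · rw [h5] at h8
      exact Bool.noConfusion h8
  · rcases h2 with ⟨h6, h7, h8⟩ | ⟨h6, h7, h8⟩
    · rw [h5] at h8
      exact Bool.noConfusion h8
    · exact no_two hr h h3 h4 h7

theorem tr_isTree (hf : f ∈ TM V) (e : V → Bool) :
    (SimpleGraph.fromRel (Tr f e).Adj).IsTree := by
  classical
  rw [TM, mem_filter] at hf
  obtain ⟨-, r, hr, h⟩ := hf
  obtain ⟨G, hG⟩ : ∃ G : SimpleGraph V, G = SimpleGraph.fromRel (Tr f e).Adj := ⟨_, rfl⟩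
  rw [← hG]
  have hGadj : ∀ a b, G.Adj a b ↔ a ≠ b ∧ (f a = b ∨ f b = a) := by
    intro a b
    rw [hG, SimpleGraph.fromRel_adj]
    constructor
    · rintro ⟨h1, h2⟩
      refine ⟨h1, ?_⟩
      rcases h2 with (⟨_, h3, _⟩ | ⟨_, h3, _⟩) | (⟨_, h3, _⟩ | ⟨_, h3, _⟩)
      · exact Or.inr h3
      · exact Or.inl h3
      · exact Or.inl h3
      · exact Or.inr h3
    · rintro ⟨h1, h2 | h2⟩
      · refine ⟨h1, ?_⟩
        cases he : e a with
        | true => exact Or.inr (Or.inl ⟨h1.symm, h2, he⟩)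
        | false => exact Or.inl (Or.inr ⟨h1, h2, he⟩)
      · refine ⟨h1, ?_⟩
        cases he : e b with
        | true => exact Or.inl (Or.inl ⟨h1, h2, he⟩)
        | false => exact Or.inr (Or.inr ⟨h1.symm, h2, he⟩)
  have hreach : ∀ (n : ℕ) (x : V), dp f r x = n → G.Reachable x r := by
    intro n
    induction n with
    | zero =>
      intro x hx
      have h1 := iter_dp (f := f) (v := r) (w := x) (mem_desc.mpr (h x))
      rw [hx] at h1
      have h2 : x = r := h1
      rw [h2]
    | succ n ih =>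
      intro x hx
      have hxr : x ≠ r := by
        intro hc
        rw [hc, dp_self] at hx
        omega
      have h1 := dp_step hr h hxr
      have h2 : f x ≠ x := fun hc => hxr (root_unique hr h hc)
      have h3 : G.Adj x (f x) := (hGadj _ _).mpr ⟨h2.symm, Or.inl rfl⟩
      exact h3.reachable.trans (ih (f x) (by omega))
  have hconn : G.Connected := by
    have : Nonempty V := ⟨r⟩
    exact ⟨fun a b => (hreach _ a rfl).trans (hreach _ b rfl).symm⟩
  rw [SimpleGraph.isTree_iff_connected_and_card]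
  refine ⟨hconn, le_antisymm ?_ hconn.card_vert_le_card_edgeSet_add_one⟩
  have hsub : G.edgeSet ⊆ (((univ.erase r).image (fun x => s(x, f x)) : Finset (Sym2 V)) :
      Set (Sym2 V)) := by
    intro z
    refine Sym2.ind (fun a b => ?_) z
    intro hz
    rw [SimpleGraph.mem_edgeSet, hGadj] at hz
    obtain ⟨hab, h1 | h1⟩ := hz
    · rw [mem_coe, mem_image]
      refine ⟨a, mem_erase.mpr ⟨?_, mem_univ _⟩, ?_⟩
      · intro hc
        apply hab
        rw [← h1, hc, hr]
      · rw [h1]
    · rw [mem_coe, mem_image]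
      refine ⟨b, mem_erase.mpr ⟨?_, mem_univ _⟩, ?_⟩
      · intro hc
        apply hab
        rw [← h1, hc, hr]
      · rw [h1]
        exact Sym2.eq_swap
  have h1 := Set.ncard_le_ncard hsub (Finset.finite_toSet _)
  rw [Set.ncard_coe_finset] at h1
  have h2 : ((univ.erase r).image (fun x => s(x, f x))).card ≤ (univ.erase r).card :=
    card_image_le
  rw [card_erase_of_mem (mem_univ _), card_univ] at h2
  have h3 : 0 < Fintype.card V := Fintype.card_pos_iff.mpr ⟨r⟩
  rw [Nat.card_coe_set_eq, Nat.card_eq_fintype_card]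
  omega

theorem tr_describes (hr : f r = r) (h : ∀ x, ∃ n, f^[n] x = r) (e : V → Bool) :
    ∃ R : RT V, R.v = r ∧ R.p = f ∧ R.dir = e ∧ R.dep = dp f r ∧
      Describes R (Tr f e) r := by
  refine ⟨{ v := r, p := f, dir := e, dep := dp f r, dep_v := dp_self,
            dep_p := fun t ht => dp_step hr h ht }, rfl, rfl, rfl, rfl, rfl, ?_⟩
  intro a b
  have hne : ∀ a b : V, a ≠ b → f a = b → a ≠ r := by
    intro a b hab h1 hc
    apply hab
    rw [← h1, hc, hr]
  have hne2 : ∀ a b : V, a ≠ r → f a = b → a ≠ b := by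
    intro a b har h1 hc
    exact har (root_unique hr h (h1.trans hc.symm))
  constructor
  · rintro (⟨h1, h2, h3⟩ | ⟨h1, h2, h3⟩)
    · exact Or.inr ⟨hne b a h1.symm h2, h2, h3⟩
    · exact Or.inl ⟨hne a b h1 h2, h2, h3⟩
  · rintro (⟨h1, h2, h3⟩ | ⟨h1, h2, h3⟩)
    · exact Or.inr ⟨hne2 a b h1 h2, h2, h3⟩
    · exact Or.inl ⟨(hne2 b a h1 h2).symm, h2, h3⟩

end Pool.Agent.Work.MP_fcea8e_co.Typ
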