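import Pool.Agent.Work.MP_fcea8e_co.Typ.Total
import Pool.Agent.Work.MP_fcea8e_co.Typ.McD
import Pool.Agent.Work.MP_fcea8e_co.Typ.Lip
import Pool.Agent.Work.MP_fcea8e_co.Typ.GlueMap
import Pool.Agent.Work.MP_fcea8e_co.Typ.GlueTree
import Pool.Agent.Work.MP_fcea8e_co.Typ.TMCard

/-!
# Module TreeTail (M-L): the sum is at most `4000 k` for almost all trees

Let `k = |V| ≥ 1`.
`small_part`: the mean of `XL L` over all `ω : V → V × Bool` is at most `1680 k`: `XL L ω ≤ ∑_v mx`, and
`total_mean` with `F = univ`, `κ = k` (`glue_map`), `L = 1`: `∑_f ∑_e ∑_v mx ≤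
k * k ^ (k - 1) 2 ^ k * 840 (k + k ^ (3/10)) ≤ (2 k) ^ k * 1680 k` (the functions `ω` correspond to the pairs
`(f, e)`: `Equiv.arrowProdEquivProdArrow`; `|V → V × Bool| = (2 k) ^ k`). By `mcd` with `c = 2 L ^ 2`, `t = k`
(`xl_lip`, `L ≥ 1`): the number of `ω` with `XL L ω ≥ 1681 k` is at most
`(2 k) ^ k exp (-k / (16 L ^ 4))`.
`large_part`: `total_mean` with `F = TM V`, `κ = 1` (`glue_tree`) and `L + 1`: by Markov, the number of
`(f, e)` with `f ∈ TM V` and `∑_{v, |desc f v| ≥ L + 1} mx ≥ k` is at most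
`k ^ (k - 1) 2 ^ k * 840 ((L + 1) ^ (-1/5) + k ^ (-7/10))`.
`tree_tail`: given `ε > 0` choose `L ≥ 1` with `840 (L + 1) ^ (-1/5) ≤ ε / 3`, and then `k₀` with
`840 k ^ (-7/10) ≤ ε / 3` and `k exp (-k / (16 L ^ 4)) ≤ ε / 3` for `k ≥ k₀` (limits:
`tendsto_rpow_neg_atTop`, `Real.tendsto_pow_mul_exp_neg_atTop_nhds_zero`). If `∑_v mx f e v > 1682 k` then
`XL L ω ≥ 1681 k` (`ω = (f, e)`) or the part with `|desc| ≥ L + 1` is `≥ k`. So the number of bad pairs is at
most `k ^ (k - 1) 2 ^ k (k exp (-k / (16 L ^ 4)) + 840 (L + 1) ^ (-1/5) + 840 k ^ (-7/10))` and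
`|TM V| = k ^ (k - 1)` (`tm_card`).
-/

set_option autoImplicit false

namespace Pool.Agent.Work.MP_fcea8e_co.Typ

open Finset

private theorem tt_pos {V : Type} [Fintype V] (f : V → V) (v : V) : 1 ≤ (desc f v).card := by
  classical
  refine Finset.card_pos.2 ⟨v, ?_⟩
  unfold desc
  simp only [mem_filter, mem_univ, true_and]
  exact ⟨0, rfl⟩

open Classical in
theorem small_part {V : Type} [Fintype V] (hV : 1 ≤ Fintype.card V) {L : ℕ} (hL : 1 ≤ L) :
    ((univ.filter (fun ω : V → V × Bool => 1681 * Fintype.card V ≤ XL L ω)).card : ℝ) ≤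
      (2 * Fintype.card V : ℝ) ^ Fintype.card V *
        Real.exp (-(Fintype.card V / (16 * (L : ℝ) ^ 4))) := by
  have hk1 : (1 : ℝ) ≤ Fintype.card V := by exact_mod_cast hV
  have hk0 : (0 : ℝ) < Fintype.card V := by linarith
  have : Nonempty V := Fintype.card_pos_iff.1 hV
  have hL1 : (1 : ℝ) ≤ L := by exact_mod_cast hL
  have hL0 : (0 : ℝ) < L := by linarith
  have hcard : (Fintype.card (V → V × Bool) : ℝ) =
      (2 * Fintype.card V : ℝ) ^ Fintype.card V := by
    rw [Fintype.card_fun, Fintype.card_prod, Fintype.card_bool]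
    push_cast
    rw [mul_comm]
  have hmean : ∑ ω : V → V × Bool, ((XL L ω : ℕ) : ℝ) ≤
      1680 * Fintype.card V * Fintype.card (V → V × Bool) := by
    have h1 : ∑ ω : V → V × Bool, ((XL L ω : ℕ) : ℝ) ≤
        ∑ ω : V → V × Bool, ∑ v, (mx (fun x => (ω x).1) (fun x => (ω x).2) v : ℝ) := by
      refine sum_le_sum fun ω _ => ?_
      unfold XL
      push_cast
      refine sum_le_sum fun v _ => ?_
      split_ifs
      · exact le_refl _
      · exact Nat.cast_nonneg _
    have h2 : ∑ ω : V → V × Bool, ∑ v, (mx (fun x => (ω x).1) (fun x => (ω x).2) v : ℝ) =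
        ∑ f : V → V, ∑ e : V → Bool, ∑ v, (mx f e v : ℝ) := by
      rw [← Fintype.sum_prod_type' (fun (f : V → V) (e : V → Bool) => ∑ v, (mx f e v : ℝ))]
      exact Fintype.sum_equiv (Equiv.arrowProdEquivProdArrow V (fun _ => V) (fun _ => Bool)) _ _
        (fun ω => rfl)
    have h3 := total_mean (glue_map V) hk0.le hV (le_refl 1)
    have h4 : ∑ f : V → V, ∑ e : V → Bool, ∑ v, (mx f e v : ℝ) =
        ∑ f ∈ (univ : Finset (V → V)), ∑ e : V → Bool, ∑ v,
          (if 1 ≤ (desc f v).card then (mx f e v : ℝ) else 0) := by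
      refine sum_congr rfl fun f _ => sum_congr rfl fun e _ => sum_congr rfl fun v _ => ?_
      rw [if_pos (tt_pos f v)]
    have h5 : (Fintype.card V : ℝ) ^ (3 / 10 : ℝ) ≤ Fintype.card V :=
      Real.rpow_le_self_of_one_le hk1 (by norm_num)
    have h6 : (Fintype.card V : ℝ) * (Fintype.card V : ℝ) ^ (Fintype.card V - 1) =
        (Fintype.card V : ℝ) ^ Fintype.card V := by
      rw [← pow_succ', Nat.sub_add_cancel hV]
    calc ∑ ω : V → V × Bool, ((XL L ω : ℕ) : ℝ)
        ≤ ∑ f ∈ (univ : Finset (V → V)), ∑ e : V → Bool, ∑ v,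
          (if 1 ≤ (desc f v).card then (mx f e v : ℝ) else 0) := by
          rw [← h4, ← h2]
          exact h1
      _ ≤ _ := h3
      _ ≤ 1680 * Fintype.card V * (2 * Fintype.card V : ℝ) ^ Fintype.card V := by
          rw [h6, Nat.cast_one, Real.one_rpow, mul_one, mul_pow]
          have h7 : (0 : ℝ) ≤ (Fintype.card V : ℝ) ^ Fintype.card V * 2 ^ Fintype.card V := by
            positivity
          calc (Fintype.card V : ℝ) ^ Fintype.card V * 2 ^ Fintype.card V *
                (840 * (Fintype.card V + (Fintype.card V : ℝ) ^ (3 / 10 : ℝ)))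
              ≤ (Fintype.card V : ℝ) ^ Fintype.card V * 2 ^ Fintype.card V *
                (840 * (Fintype.card V + Fintype.card V)) := by
                refine mul_le_mul_of_nonneg_left ?_ h7
                linarith
            _ = _ := by ring
      _ = _ := by rw [hcard]
  have h := mcd (ι := V) (α := V × Bool) hV (fun ω => (XL L ω : ℝ)) (c := 2 * (L : ℝ) ^ 2)
    (μ := 1680 * Fintype.card V) (t := Fintype.card V) (by positivity) hk0.le
    (by
      intro ω x a
      obtain ⟨h1, h2⟩ := xl_lip L ω x a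
      have h1' : ((XL L (Function.update ω x a) : ℕ) : ℝ) ≤ XL L ω + 2 * L * L := by
        exact_mod_cast h1
      have h2' : ((XL L ω : ℕ) : ℝ) ≤ XL L (Function.update ω x a) + 2 * L * L := by
        exact_mod_cast h2
      rw [abs_le]
      constructor <;> nlinarith) hmean
  have hf : (univ.filter (fun ω : V → V × Bool => 1681 * Fintype.card V ≤ XL L ω)) =
      univ.filter (fun ω : V → V × Bool =>
        1680 * (Fintype.card V : ℝ) + Fintype.card V ≤ (XL L ω : ℝ)) := by
    refine filter_congr fun ω _ => ?_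
    constructor
    · intro h1
      have h2 : (1681 * Fintype.card V : ℝ) ≤ XL L ω := by exact_mod_cast h1
      linarith
    · intro h1
      have h2 : (1681 * Fintype.card V : ℝ) ≤ XL L ω := by linarith
      exact_mod_cast h2
  have he : (Fintype.card V : ℝ) ^ 2 / (4 * Fintype.card V * (2 * (L : ℝ) ^ 2) ^ 2) =
      Fintype.card V / (16 * (L : ℝ) ^ 4) := by
    field_simp
    ring
  rw [← hf, he, hcard] at h
  calc ((univ.filter (fun ω : V → V × Bool => 1681 * Fintype.card V ≤ XL L ω)).card : ℝ)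
      = (univ.filter (fun ω : V → V × Bool => 1681 * Fintype.card V ≤ XL L ω)).card *
        Real.exp (Fintype.card V / (16 * (L : ℝ) ^ 4)) *
        Real.exp (-(Fintype.card V / (16 * (L : ℝ) ^ 4))) := by
        rw [mul_assoc, ← Real.exp_add, add_neg_cancel, Real.exp_zero, mul_one]
    _ ≤ _ := mul_le_mul_of_nonneg_right h (Real.exp_pos _).le

open Classical in
theorem large_part {V : Type} [Fintype V] (hV : 1 ≤ Fintype.card V) {L : ℕ} (hL : 1 ≤ L) :
    (((TM V ×ˢ (univ : Finset (V → Bool))).filter (fun q => Fintype.card V ≤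
      ∑ v, (if L + 1 ≤ (desc q.1 v).card then mx q.1 q.2 v else 0))).card : ℝ) ≤
      (Fintype.card V : ℝ) ^ (Fintype.card V - 1) * 2 ^ Fintype.card V *
        (840 * (((L : ℝ) + 1) ^ (-(1 / 5) : ℝ) +
          (Fintype.card V : ℝ) ^ (-(7 / 10) : ℝ))) := by
  have hk1 : (1 : ℝ) ≤ Fintype.card V := by exact_mod_cast hV
  have hk0 : (0 : ℝ) < Fintype.card V := by linarith
  have h3 := total_mean (glue_tree V) zero_le_one hV (L := L + 1) (by omega)
  have h4 : (((TM V ×ˢ (univ : Finset (V → Bool))).filter (fun q => Fintype.card V ≤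
      ∑ v, (if L + 1 ≤ (desc q.1 v).card then mx q.1 q.2 v else 0))).card : ℝ) *
        Fintype.card V ≤ ∑ f ∈ TM V, ∑ e : V → Bool, ∑ v,
        (if L + 1 ≤ (desc f v).card then (mx f e v : ℝ) else 0) := by
    have h5 : ∑ f ∈ TM V, ∑ e : V → Bool, ∑ v,
        (if L + 1 ≤ (desc f v).card then (mx f e v : ℝ) else 0) =
        ((∑ q ∈ TM V ×ˢ (univ : Finset (V → Bool)), ∑ v,
          (if L + 1 ≤ (desc q.1 v).card then mx q.1 q.2 v else 0) : ℕ) : ℝ) := by
      rw [sum_product]
      push_cast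
      rfl
    rw [h5]
    norm_cast
    rw [← smul_eq_mul]
    refine (card_nsmul_le_sum _ _ _ fun q hq => (mem_filter.1 hq).2).trans ?_
    exact sum_le_sum_of_subset (filter_subset _ _)
  have h6 : (Fintype.card V : ℝ) ^ (3 / 10 : ℝ) =
      Fintype.card V * (Fintype.card V : ℝ) ^ (-(7 / 10) : ℝ) := by
    have h7 := Real.rpow_add hk0 1 (-(7 / 10))
    rw [Real.rpow_one] at h7
    rw [← h7]
    norm_num
  have h8 := h4.trans h3
  refine le_of_mul_le_mul_right (h8.trans (le_of_eq ?_)) hk0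
  rw [h6]
  push_cast
  ring

open Classical in
theorem tree_tail {ε : ℝ} (hε : 0 < ε) : ∃ k₀ : ℕ, ∀ (V : Type) [Fintype V],
    k₀ ≤ Fintype.card V →
    (((TM V ×ˢ (univ : Finset (V → Bool))).filter (fun q => 1682 * Fintype.card V <
      ∑ v, mx q.1 q.2 v)).card : ℝ) ≤ ε * ((TM V).card * 2 ^ Fintype.card V) := by
  obtain ⟨L, hL, hLe⟩ : ∃ L : ℕ, 1 ≤ L ∧ 840 * ((L : ℝ) + 1) ^ (-(1 / 5) : ℝ) ≤ ε / 3 := by
    have h1 : Filter.Tendsto (fun L : ℕ => 840 * ((L : ℝ) + 1) ^ (-(1 / 5) : ℝ)) Filter.atTop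
        (nhds (840 * 0)) := by
      refine Filter.Tendsto.const_mul _ ?_
      exact (tendsto_rpow_neg_atTop (by norm_num : (0 : ℝ) < 1 / 5)).comp
        (Filter.tendsto_atTop_add_const_right _ _ tendsto_natCast_atTop_atTop)
    rw [mul_zero] at h1
    have h2 := (h1.eventually_le_const (show (0 : ℝ) < ε / 3 by positivity)).and
      (Filter.eventually_ge_atTop 1)
    obtain ⟨L, h3, h4⟩ := h2.exists
    exact ⟨L, h4, h3⟩
  have hL0 : (0 : ℝ) < L := by exact_mod_cast hL
  obtain ⟨k₀, hk₀⟩ : ∃ k₀ : ℕ, ∀ k : ℕ, k₀ ≤ k → 1 ≤ k ∧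
      840 * (k : ℝ) ^ (-(7 / 10) : ℝ) ≤ ε / 3 ∧
      (k : ℝ) * Real.exp (-(k / (16 * (L : ℝ) ^ 4))) ≤ ε / 3 := by
    have h1 : Filter.Tendsto (fun k : ℕ => 840 * (k : ℝ) ^ (-(7 / 10) : ℝ)) Filter.atTop
        (nhds (840 * 0)) := by
      refine Filter.Tendsto.const_mul _ ?_
      exact (tendsto_rpow_neg_atTop (by norm_num : (0 : ℝ) < 7 / 10)).comp
        tendsto_natCast_atTop_atTop
    rw [mul_zero] at h1
    have h2 : Filter.Tendsto (fun k : ℕ => (16 * (L : ℝ) ^ 4) *
        (((k : ℝ) / (16 * (L : ℝ) ^ 4)) ^ 1 * Real.exp (-(k / (16 * (L : ℝ) ^ 4)))))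
        Filter.atTop (nhds ((16 * (L : ℝ) ^ 4) * 0)) := by
      refine Filter.Tendsto.const_mul _ ?_
      exact (Real.tendsto_pow_mul_exp_neg_atTop_nhds_zero 1).comp
        (tendsto_natCast_atTop_atTop.atTop_div_const (by positivity))
    rw [mul_zero] at h2
    have h3 := ((h1.eventually_le_const (show (0 : ℝ) < ε / 3 by positivity)).and
      (h2.eventually_le_const (show (0 : ℝ) < ε / 3 by positivity))).and
      (Filter.eventually_ge_atTop 1)
    obtain ⟨k₀, hk₀⟩ := Filter.eventually_atTop.1 h3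
    refine ⟨k₀, fun k hk => ⟨(hk₀ k hk).2, (hk₀ k hk).1.1, ?_⟩⟩
    have h4 := (hk₀ k hk).1.2
    have h5 : (16 * (L : ℝ) ^ 4) *
        (((k : ℝ) / (16 * (L : ℝ) ^ 4)) ^ 1 * Real.exp (-(k / (16 * (L : ℝ) ^ 4)))) =
        (k : ℝ) * Real.exp (-(k / (16 * (L : ℝ) ^ 4))) := by
      rw [pow_one]
      field_simp
    rw [← h5]
    exact h4
  refine ⟨k₀, fun V _ hV => ?_⟩
  obtain ⟨hk1, hke, hkx⟩ := hk₀ _ hV
  have hs := small_part hk1 hL
  have hl := large_part hk1 hL
  have hsub : ((TM V ×ˢ (univ : Finset (V → Bool))).filter (fun q => 1682 * Fintype.card V <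
      ∑ v, mx q.1 q.2 v)).card ≤
      (univ.filter (fun ω : V → V × Bool => 1681 * Fintype.card V ≤ XL L ω)).card +
      ((TM V ×ˢ (univ : Finset (V → Bool))).filter (fun q => Fintype.card V ≤
        ∑ v, (if L + 1 ≤ (desc q.1 v).card then mx q.1 q.2 v else 0))).card := by
    have h1 : ((TM V ×ˢ (univ : Finset (V → Bool))).filter (fun q => 1682 * Fintype.card V <
        ∑ v, mx q.1 q.2 v)) ⊆
        ((univ.filter (fun ω : V → V × Bool => 1681 * Fintype.card V ≤ XL L ω)).image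
          (fun ω => ((fun x => (ω x).1 : V → V), (fun x => (ω x).2 : V → Bool)))) ∪
        ((TM V ×ˢ (univ : Finset (V → Bool))).filter (fun q => Fintype.card V ≤
          ∑ v, (if L + 1 ≤ (desc q.1 v).card then mx q.1 q.2 v else 0))) := by
      intro q hq
      obtain ⟨hq1, hq2⟩ := mem_filter.1 hq
      rw [mem_union]
      by_cases h2 : Fintype.card V ≤
          ∑ v, (if L + 1 ≤ (desc q.1 v).card then mx q.1 q.2 v else 0)
      · exact Or.inr (mem_filter.2 ⟨hq1, h2⟩)
      · left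
        rw [mem_image]
        refine ⟨fun x => (q.1 x, q.2 x), ?_, rfl⟩
        rw [mem_filter]
        refine ⟨mem_univ _, ?_⟩
        have h3 : XL L (fun x => (q.1 x, q.2 x)) +
            ∑ v, (if L + 1 ≤ (desc q.1 v).card then mx q.1 q.2 v else 0) =
            ∑ v, mx q.1 q.2 v := by
          unfold XL
          rw [← sum_add_distrib]
          refine sum_congr rfl fun v _ => ?_
          show (if (desc q.1 v).card ≤ L then mx q.1 q.2 v else 0) +
            (if L + 1 ≤ (desc q.1 v).card then mx q.1 q.2 v else 0) = mx q.1 q.2 v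
          by_cases h4 : (desc q.1 v).card ≤ L
          · rw [if_pos h4, if_neg (by omega), add_zero]
          · rw [if_neg h4, if_pos (by omega), zero_add]
        omega
    refine (card_le_card h1).trans ((card_union_le _ _).trans ?_)
    exact Nat.add_le_add_right card_image_le _
  have hsub' : (((TM V ×ˢ (univ : Finset (V → Bool))).filter (fun q => 1682 * Fintype.card V <
      ∑ v, mx q.1 q.2 v)).card : ℝ) ≤
      (univ.filter (fun ω : V → V × Bool => 1681 * Fintype.card V ≤ XL L ω)).card +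
      ((TM V ×ˢ (univ : Finset (V → Bool))).filter (fun q => Fintype.card V ≤
        ∑ v, (if L + 1 ≤ (desc q.1 v).card then mx q.1 q.2 v else 0))).card := by
    exact_mod_cast hsub
  have h6 : (2 * Fintype.card V : ℝ) ^ Fintype.card V =
      (Fintype.card V : ℝ) ^ (Fintype.card V - 1) * 2 ^ Fintype.card V * Fintype.card V := by
    have h7 : (Fintype.card V : ℝ) ^ Fintype.card V =
        (Fintype.card V : ℝ) ^ (Fintype.card V - 1) * Fintype.card V := by
      rw [← pow_succ, Nat.sub_add_cancel hk1]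
    rw [mul_pow, h7]
    ring
  have h9 : ((TM V).card : ℝ) = (Fintype.card V : ℝ) ^ (Fintype.card V - 1) := by
    rw [tm_card V hk1]
    push_cast
    rfl
  rw [h9]
  rw [h6] at hs
  have h10 : (0 : ℝ) ≤ (Fintype.card V : ℝ) ^ (Fintype.card V - 1) * 2 ^ Fintype.card V := by
    positivity
  calc _ ≤ (Fintype.card V : ℝ) ^ (Fintype.card V - 1) * 2 ^ Fintype.card V *
        Fintype.card V * Real.exp (-(Fintype.card V / (16 * (L : ℝ) ^ 4))) +
        (Fintype.card V : ℝ) ^ (Fintype.card V - 1) * 2 ^ Fintype.card V *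
        (840 * (((L : ℝ) + 1) ^ (-(1 / 5) : ℝ) +
          (Fintype.card V : ℝ) ^ (-(7 / 10) : ℝ))) := hsub'.trans (add_le_add hs hl)
    _ = (Fintype.card V : ℝ) ^ (Fintype.card V - 1) * 2 ^ Fintype.card V *
        (Fintype.card V * Real.exp (-(Fintype.card V / (16 * (L : ℝ) ^ 4))) +
        (840 * ((L : ℝ) + 1) ^ (-(1 / 5) : ℝ) +
          840 * (Fintype.card V : ℝ) ^ (-(7 / 10) : ℝ))) := by ring
    _ ≤ (Fintype.card V : ℝ) ^ (Fintype.card V - 1) * 2 ^ Fintype.card V * ε := by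
        refine mul_le_mul_of_nonneg_left ?_ h10
        linarith
    _ = _ := by ring

end Pool.Agent.Work.MP_fcea8e_co.Typ
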