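import Pool.Agent.Work.MP_fcea8e_co.Typ.Final
import Pool.Agent.Work.MP_fcea8e_co.Typ.HFinal
import Pool.Agent.Work.MP_fcea8e_co.Typ.OrCount

/-!
# Module Typical (M): assembly

Proof. Let `C` be the constant of `almost_all`. Given `ε > 0`, take `k₀` for `ε ^ 2 / 2` in `almost_all` and for
`ε / 2` in `all_orient`. For a tree `G` let `a G` be the number of its orientations `T` with
`C k < cNum T`; all trees have the same number `N` of orientations (`or_count`). The sum of `a G` over all
trees `G` is the number of bad oriented trees, at most `ε ^ 2 / 2` times the number of all oriented trees,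
which is `N` times the number of trees. So at most `ε / 2` of the trees have `a G > ε N`. A tree
which fails the conclusion has `a G > ε N` or is one of those of `all_orient` (`lower` for the lower bounds).
-/

set_option autoImplicit false

namespace Pool.Agent.Work.MP_fcea8e_co.Typ

open Finset Pool.Agent.Work.MP_fcea8e_co.Dom

theorem typical : ∃ C : ℕ, ∀ ε : ℝ, 0 < ε → ∃ k₀ : ℕ, ∀ k : ℕ, k₀ ≤ k →
    (Nat.card {G : SimpleGraph (Fin k) // G.IsTree ∧
      ¬ ((∀ T : Digraph (Fin k), Oriented T → SimpleGraph.fromRel T.Adj = G →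
          k ≤ tNum T ∧ tNum T ≤ cNum T ∧ (cNum T : ℝ) ≤ k * Real.log k ^ 2) ∧
        (Nat.card {T : Digraph (Fin k) // Oriented T ∧ SimpleGraph.fromRel T.Adj = G ∧
          C * k < cNum T} : ℝ) ≤
          ε * Nat.card {T : Digraph (Fin k) // Oriented T ∧
            SimpleGraph.fromRel T.Adj = G})} : ℝ) ≤
      ε * Nat.card {G : SimpleGraph (Fin k) // G.IsTree} := by
  classical
  obtain ⟨C, hC⟩ := almost_all
  refine ⟨C, fun ε hε => ?_⟩
  obtain ⟨k₁, h₁⟩ := hC (ε ^ 2 / 2) (by positivity)
  obtain ⟨k₂, h₂⟩ := all_orient (ε := ε / 2) (by positivity)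
  refine ⟨max k₁ k₂, fun k hk => ?_⟩
  have a1 := h₁ k (le_trans (le_max_left _ _) hk)
  have a2 := h₂ k (le_trans (le_max_right _ _) hk)
  letI : Fintype (SimpleGraph (Fin k)) := Fintype.ofFinite _
  letI : Fintype (Digraph (Fin k)) := Fintype.ofFinite _
  -- the finite sets
  obtain ⟨TR, hTR⟩ : ∃ TR : Finset (SimpleGraph (Fin k)), TR = univ.filter (fun G => G.IsTree) :=
    ⟨_, rfl⟩
  have hTRc : Nat.card {G : SimpleGraph (Fin k) // G.IsTree} = TR.card := by
    rw [hTR]
    exact Nat.subtype_card _ (fun x => by simp)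
  have hO : ∀ G : SimpleGraph (Fin k), Nat.card {T : Digraph (Fin k) // Oriented T ∧
      SimpleGraph.fromRel T.Adj = G} =
      (univ.filter (fun T : Digraph (Fin k) => Oriented T ∧
        SimpleGraph.fromRel T.Adj = G)).card := fun G => Nat.subtype_card _ (fun x => by simp)
  have hB : ∀ G : SimpleGraph (Fin k), Nat.card {T : Digraph (Fin k) // Oriented T ∧
      SimpleGraph.fromRel T.Adj = G ∧ C * k < cNum T} =
      (univ.filter (fun T : Digraph (Fin k) => Oriented T ∧
        SimpleGraph.fromRel T.Adj = G ∧ C * k < cNum T)).card := fun G =>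
    Nat.subtype_card _ (fun x => by simp)
  have hallT : Nat.card {T : Digraph (Fin k) // Oriented T ∧
      (SimpleGraph.fromRel T.Adj).IsTree} = ∑ G ∈ TR,
      (univ.filter (fun T : Digraph (Fin k) => Oriented T ∧
        SimpleGraph.fromRel T.Adj = G)).card := by
    rw [Nat.subtype_card (univ.filter (fun T : Digraph (Fin k) => Oriented T ∧
      (SimpleGraph.fromRel T.Adj).IsTree)) (fun x => by simp)]
    rw [card_eq_sum_card_fiberwise (f := fun T : Digraph (Fin k) =>
      SimpleGraph.fromRel T.Adj) (t := TR)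
      (fun T hT => by
        rw [hTR]
        have := (mem_filter.1 (mem_coe.1 hT)).2.2
        exact mem_coe.2 (mem_filter.2 ⟨mem_univ _, this⟩))]
    refine sum_congr rfl (fun G hG => ?_)
    rw [hTR, mem_filter] at hG
    rw [filter_filter]
    congr 1
    ext T
    simp only [mem_filter, mem_univ, true_and]
    constructor
    · rintro ⟨⟨h1, h2⟩, h3⟩
      exact ⟨h1, h3⟩
    · rintro ⟨h1, h3⟩
      exact ⟨⟨h1, by rw [h3]; exact hG.2⟩, h3⟩
  have hbadT : Nat.card {T : Digraph (Fin k) // Oriented T ∧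
      (SimpleGraph.fromRel T.Adj).IsTree ∧ C * k < cNum T} = ∑ G ∈ TR,
      (univ.filter (fun T : Digraph (Fin k) => Oriented T ∧
        SimpleGraph.fromRel T.Adj = G ∧ C * k < cNum T)).card := by
    rw [Nat.subtype_card (univ.filter (fun T : Digraph (Fin k) => Oriented T ∧
      (SimpleGraph.fromRel T.Adj).IsTree ∧ C * k < cNum T)) (fun x => by simp)]
    rw [card_eq_sum_card_fiberwise (f := fun T : Digraph (Fin k) =>
      SimpleGraph.fromRel T.Adj) (t := TR)
      (fun T hT => by
        rw [hTR]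
        have := (mem_filter.1 (mem_coe.1 hT)).2.2.1
        exact mem_coe.2 (mem_filter.2 ⟨mem_univ _, this⟩))]
    refine sum_congr rfl (fun G hG => ?_)
    rw [hTR, mem_filter] at hG
    rw [filter_filter]
    congr 1
    ext T
    simp only [mem_filter, mem_univ, true_and]
    constructor
    · rintro ⟨⟨h1, h2, h4⟩, h3⟩
      exact ⟨h1, h3, h4⟩
    · rintro ⟨h1, h3, h4⟩
      exact ⟨⟨h1, by rw [h3]; exact hG.2, h4⟩, h3⟩
  -- the common number of orientations
  have hN : ∀ G ∈ TR, (((univ.filter (fun T : Digraph (Fin k) => Oriented T ∧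
      SimpleGraph.fromRel T.Adj = G)).card : ℕ) : ℝ) = 2 ^ k / 2 := by
    intro G hG
    rw [hTR, mem_filter] at hG
    have h3 := or_count G hG.2
    rw [hO G, Fintype.card_fin] at h3
    have h4 : (((univ.filter (fun T : Digraph (Fin k) => Oriented T ∧
      SimpleGraph.fromRel T.Adj = G)).card : ℕ) : ℝ) * 2 = 2 ^ k := by
      exact_mod_cast h3
    linarith
  -- trees with many bad orientations
  obtain ⟨B1, hB1⟩ : ∃ B1 : Finset (SimpleGraph (Fin k)), B1 = TR.filter (fun G =>
      ε * (2 ^ k / 2) < (((univ.filter (fun T : Digraph (Fin k) => Oriented T ∧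
        SimpleGraph.fromRel T.Adj = G ∧ C * k < cNum T)).card : ℕ) : ℝ)) := ⟨_, rfl⟩
  have hpow : (0 : ℝ) < 2 ^ k / 2 := by positivity
  have hB1c : (B1.card : ℝ) ≤ ε / 2 * TR.card := by
    have e1 : (B1.card : ℝ) * (ε * (2 ^ k / 2)) ≤ ∑ G ∈ TR,
        (((univ.filter (fun T : Digraph (Fin k) => Oriented T ∧
          SimpleGraph.fromRel T.Adj = G ∧ C * k < cNum T)).card : ℕ) : ℝ) := by
      calc (B1.card : ℝ) * (ε * (2 ^ k / 2)) = ∑ G ∈ B1, (ε * (2 ^ k / 2)) := by
            rw [sum_const, nsmul_eq_mul]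
        _ ≤ ∑ G ∈ B1, (((univ.filter (fun T : Digraph (Fin k) => Oriented T ∧
              SimpleGraph.fromRel T.Adj = G ∧ C * k < cNum T)).card : ℕ) : ℝ) := by
            refine sum_le_sum (fun G hG => ?_)
            rw [hB1, mem_filter] at hG
            exact hG.2.le
        _ ≤ _ := by
            refine sum_le_sum_of_subset_of_nonneg (by rw [hB1]; exact filter_subset _ _)
              (fun _ _ _ => Nat.cast_nonneg _)
    rw [hbadT, hallT] at a1
    rw [Nat.cast_sum, Nat.cast_sum, sum_congr rfl hN, sum_const, nsmul_eq_mul] at a1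
    have e2 : (B1.card : ℝ) * (ε * (2 ^ k / 2)) ≤
        (ε / 2 * TR.card) * (ε * (2 ^ k / 2)) := by
      calc (B1.card : ℝ) * (ε * (2 ^ k / 2)) ≤ _ := e1
        _ ≤ _ := a1
        _ = _ := by ring
    exact le_of_mul_le_mul_right e2 (mul_pos hε hpow)
  have hB2 : Nat.card {G : SimpleGraph (Fin k) // G.IsTree ∧ ∃ T : Digraph (Fin k),
      Oriented T ∧ SimpleGraph.fromRel T.Adj = G ∧ (k : ℝ) * Real.log k ^ 2 < cNum T} =
      (univ.filter (fun G : SimpleGraph (Fin k) => G.IsTree ∧ ∃ T : Digraph (Fin k),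
      Oriented T ∧ SimpleGraph.fromRel T.Adj = G ∧
        (k : ℝ) * Real.log k ^ 2 < cNum T)).card :=
    Nat.subtype_card _ (fun x => by simp)
  rw [hB2, hTRc] at a2
  rw [Nat.subtype_card (univ.filter (fun G : SimpleGraph (Fin k) => G.IsTree ∧
      ¬ ((∀ T : Digraph (Fin k), Oriented T → SimpleGraph.fromRel T.Adj = G →
          k ≤ tNum T ∧ tNum T ≤ cNum T ∧ (cNum T : ℝ) ≤ k * Real.log k ^ 2) ∧
        (Nat.card {T : Digraph (Fin k) // Oriented T ∧ SimpleGraph.fromRel T.Adj = G ∧
          C * k < cNum T} : ℝ) ≤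
          ε * Nat.card {T : Digraph (Fin k) // Oriented T ∧
            SimpleGraph.fromRel T.Adj = G}))) (fun x => by
              rw [mem_filter]
              exact ⟨fun h => h.2, fun h => ⟨mem_univ _, h⟩⟩), hTRc]
  have hsub : univ.filter (fun G : SimpleGraph (Fin k) => G.IsTree ∧
      ¬ ((∀ T : Digraph (Fin k), Oriented T → SimpleGraph.fromRel T.Adj = G →
          k ≤ tNum T ∧ tNum T ≤ cNum T ∧ (cNum T : ℝ) ≤ k * Real.log k ^ 2) ∧
        (Nat.card {T : Digraph (Fin k) // Oriented T ∧ SimpleGraph.fromRel T.Adj = G ∧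
          C * k < cNum T} : ℝ) ≤
          ε * Nat.card {T : Digraph (Fin k) // Oriented T ∧
            SimpleGraph.fromRel T.Adj = G})) ⊆
      B1 ∪ univ.filter (fun G : SimpleGraph (Fin k) => G.IsTree ∧ ∃ T : Digraph (Fin k),
        Oriented T ∧ SimpleGraph.fromRel T.Adj = G ∧
          (k : ℝ) * Real.log k ^ 2 < cNum T) := by
    intro G hG
    rw [mem_filter] at hG
    obtain ⟨_, hGt, hbad⟩ := hG
    have hGTR : G ∈ TR := by
      rw [hTR]
      exact mem_filter.2 ⟨mem_univ _, hGt⟩
    rw [mem_union]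
    by_cases hb : G ∈ B1
    · exact Or.inl hb
    · right
      rw [mem_filter]
      refine ⟨mem_univ _, hGt, ?_⟩
      by_contra hno
      refine hbad ⟨fun T hT hTG => ?_, ?_⟩
      · obtain ⟨b1, b2⟩ := lower T hT (by rw [hTG]; exact hGt)
        refine ⟨b1, b2, ?_⟩
        by_contra hlt
        push Not at hlt
        exact hno ⟨T, hT, hTG, hlt⟩
      · rw [hB1, mem_filter] at hb
        rw [hB G, hO G, hN G hGTR]
        by_contra hlt
        push Not at hlt
        exact hb ⟨hGTR, hlt⟩
  have hc := (card_le_card hsub).trans (card_union_le _ _)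
  have hc' : ((univ.filter (fun G : SimpleGraph (Fin k) => G.IsTree ∧
      ¬ ((∀ T : Digraph (Fin k), Oriented T → SimpleGraph.fromRel T.Adj = G →
          k ≤ tNum T ∧ tNum T ≤ cNum T ∧ (cNum T : ℝ) ≤ k * Real.log k ^ 2) ∧
        (Nat.card {T : Digraph (Fin k) // Oriented T ∧ SimpleGraph.fromRel T.Adj = G ∧
          C * k < cNum T} : ℝ) ≤
          ε * Nat.card {T : Digraph (Fin k) // Oriented T ∧
            SimpleGraph.fromRel T.Adj = G}))).card : ℝ) ≤ (B1.card : ℝ) +
      ((univ.filter (fun G : SimpleGraph (Fin k) => G.IsTree ∧ ∃ T : Digraph (Fin k),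
        Oriented T ∧ SimpleGraph.fromRel T.Adj = G ∧
          (k : ℝ) * Real.log k ^ 2 < cNum T)).card : ℝ) := by
    exact_mod_cast hc
  linarith

end Pool.Agent.Work.MP_fcea8e_co.Typ
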